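import Pool.Agent.W426.SM.Stm

set_option autoImplicit false

namespace Pool.Agent.W85.SMRL

open Pool.Agent.W426.SM

theorem gordan {B J : Type} [Fintype B] [Fintype J] (Λ : J → B → ℝ) :
    (∃ p : B → ℝ, (∀ b, 0 < p b) ∧ ∀ j, ∑ b, Λ j b * p b < 0) ∨
    (∃ y : J → ℝ, (∀ j, 0 ≤ y j) ∧ (∃ j, y j ≠ 0) ∧ ∀ b, 0 ≤ ∑ j, y j * Λ j b) := by
  classical
  let g : J ⊕ B → (B → ℝ) := fun s => Sum.elim (fun j => Λ j) (fun b => - Pi.single b 1) s
  let L : (J ⊕ B → ℝ) →ₗ[ℝ] (B → ℝ) := Fintype.linearCombination ℝ g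
  have hLc : Continuous L := L.continuous_of_finiteDimensional
  let C : Set (B → ℝ) := L '' (stdSimplex ℝ (J ⊕ B))
  have hCc : Convex ℝ C := (convex_stdSimplex ℝ (J ⊕ B)).linear_image L
  have hCk : IsCompact C := (isCompact_stdSimplex ℝ (J ⊕ B)).image hLc
  by_cases h0 : (0 : B → ℝ) ∈ C
  · right
    obtain ⟨x, hx, hx0⟩ := h0
    have hb : ∀ b, ∑ j, x (Sum.inl j) * Λ j b = x (Sum.inr b) := by
      intro b
      have h1 := congrFun hx0 b
      simp only [L, Fintype.linearCombination_apply, Fintype.sum_sum_type, g, Sum.elim_inl,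
        Sum.elim_inr, Finset.sum_apply, Pi.smul_apply, smul_eq_mul, Pi.neg_apply,
        Pi.zero_apply] at h1
      have h2 : ∑ b', x (Sum.inr b') * -(Pi.single b' (1:ℝ) : B → ℝ) b = - x (Sum.inr b) := by
        rw [Finset.sum_eq_single b]
        · simp
        · intro b' _ hne
          rw [Pi.single_eq_of_ne hne.symm]; simp
        · simp
      rw [h2] at h1
      linarith
    refine ⟨fun j => x (Sum.inl j), fun j => hx.1 _, ?_, fun b => ?_⟩
    · by_contra hcon
      push Not at hcon
      have h3 : ∀ b, x (Sum.inr b) = 0 := by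
        intro b
        rw [← hb b]
        exact Finset.sum_eq_zero (fun j _ => by rw [hcon j]; ring)
      have h4 := hx.2
      rw [Fintype.sum_sum_type] at h4
      simp [hcon, h3] at h4
    · rw [hb b]; exact hx.1 _
  · left
    obtain ⟨f, u, hf0, hf⟩ := geometric_hahn_banach_point_closed hCc hCk.isClosed h0
    rw [map_zero] at hf0
    have hpos : ∀ s, 0 < f (g s) := by
      intro s
      refine hf0.trans (hf _ ⟨Pi.single s 1, single_mem_stdSimplex ℝ s, ?_⟩)
      simp [L]
    refine ⟨fun b => - f (Pi.single b 1), fun b => ?_, fun j => ?_⟩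
    · have := hpos (Sum.inr b)
      simpa [g] using this
    · have h1 := hpos (Sum.inl j)
      simp only [g, Sum.elim_inl] at h1
      have h2 : f (Λ j) = ∑ b, Λ j b * f (Pi.single b 1) := by
        have h3 := LinearMap.pi_apply_eq_sum_univ (f : (B → ℝ) →ₗ[ℝ] ℝ) (Λ j)
        have h4 : ∀ b : B, (fun j => if b = j then (1:ℝ) else 0) = Pi.single b 1 := by
          intro b
          ext c
          simp [Pi.single_apply, eq_comm]
        simp only [h4, smul_eq_mul] at h3
        exact h3
      have h5 : ∑ b, Λ j b * -f (Pi.single b 1) = - f (Λ j) := by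
        rw [h2, ← Finset.sum_neg_distrib]
        exact Finset.sum_congr rfl (fun b _ => by ring)
      rw [h5]; linarith

theorem ratl {k : ℕ} {B : Type} [Fintype B] [DecidableEq B] (M : B → Fin k → ℚ)
    (hM : ∀ X : B → ℚ, (∀ j, ∑ b, X b * M b j = 0) → ∀ b, X b = 0) (tg : B → ℚ) :
    ∃ (v : B → Fin k → ℚ) (base w : Fin k → ℚ),
      (∀ b b', ∑ j, M b' j * v b j = if b' = b then 1 else 0) ∧
      (∀ b, ∑ j, M b j * base j = tg b) ∧ (∀ b, ∑ j, M b j * w j = 0) ∧
      (∀ j, w j = 0 → ∀ j', ∑ b, v b j * M b j' = if j = j' then 1 else 0) := by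
  let Φ : (Fin k → ℚ) →ₗ[ℚ] (B → ℚ) := Matrix.mulVecLin (Matrix.of M)
  have hΦ : ∀ t b, Φ t b = ∑ j, M b j * t j := by
    intro t b
    simp [Φ, Matrix.mulVec, dotProduct]
  have hsurj : Function.Surjective Φ := by
    rw [← LinearMap.range_eq_top]
    by_contra hne
    obtain ⟨f, hf0, hf⟩ := Submodule.exists_le_ker_of_lt_top _ (lt_top_iff_ne_top.2 hne)
    apply hf0
    have hfe : ∀ x : B → ℚ, f x = ∑ b, x b * f (fun j => if b = j then 1 else 0) := by
      intro x
      have := LinearMap.pi_apply_eq_sum_univ f x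
      simpa [smul_eq_mul] using this
    have hX := hM (fun b => f (fun j => if b = j then 1 else 0)) (by
      intro j
      have h1 : f (Φ (Pi.single j 1)) = 0 := by
        have : Φ (Pi.single j 1) ∈ LinearMap.range Φ := ⟨_, rfl⟩
        exact hf this
      rw [hfe] at h1
      refine Eq.trans ?_ h1
      refine Finset.sum_congr rfl (fun b _ => ?_)
      rw [hΦ]
      simp [Pi.single_apply, mul_comm])
    ext b
    simp only [LinearMap.coe_comp, LinearMap.coe_single, Function.comp_apply, LinearMap.zero_comp,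
      LinearMap.zero_apply]
    rw [hfe]
    exact Finset.sum_eq_zero (fun c _ => by rw [hX c]; ring)
  choose v hv using fun b : B => hsurj (Pi.single b 1)
  obtain ⟨base, hbase⟩ := hsurj tg
  obtain ⟨w, hwK, hw⟩ := Module.Dual.exists_forall_mem_ne_zero_of_forall_exists
    (LinearMap.ker Φ) (fun j : {j : Fin k // ∃ x ∈ LinearMap.ker Φ, x j ≠ 0} =>
      (LinearMap.proj j.1 : (Fin k → ℚ) →ₗ[ℚ] ℚ)) (fun j => by
        obtain ⟨x, hx, hxj⟩ := j.2
        exact ⟨x, hx, by simpa using hxj⟩)
  refine ⟨v, base, w, ?_, ?_, ?_, ?_⟩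
  · intro b b'
    rw [← hΦ, hv, Pi.single_apply]
  · intro b
    rw [← hΦ, hbase]
  · intro b
    rw [← hΦ, LinearMap.mem_ker.1 hwK]; rfl
  · intro j hj j'
    have hK : ∀ x ∈ LinearMap.ker Φ, x j = 0 := by
      by_contra hcon
      push Not at hcon
      have := hw ⟨j, hcon⟩
      simp at this
      exact this hj
    have h1 : (Pi.single j' 1 - ∑ b, M b j' • v b : Fin k → ℚ) ∈ LinearMap.ker Φ := by
      rw [LinearMap.mem_ker, map_sub, map_sum]
      ext b'
      simp only [map_smul, hv, Pi.sub_apply, Finset.sum_apply, Pi.smul_apply, smul_eq_mul,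
        Pi.single_apply, mul_ite, mul_one, mul_zero, Pi.zero_apply, hΦ]
      simp
    have h2 := hK _ h1
    simp only [Pi.sub_apply, Finset.sum_apply, Pi.smul_apply, smul_eq_mul, Pi.single_apply] at h2
    have h3 : ∑ b, v b j * M b j' = ∑ b, M b j' * v b j :=
      Finset.sum_congr rfl (fun b _ => mul_comm _ _)
    rw [h3]
    linarith

theorem exists_one {k : ℕ} (c m : Fin k → ℕ) (h : ∑ j, c j * m j = 1) : ∃ j, m j = 1 := by
  by_contra hcon
  push Not at hcon
  have h1 : ∃ j, c j * m j ≠ 0 := by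
    by_contra h2
    push Not at h2
    rw [Finset.sum_eq_zero (fun j _ => h2 j)] at h
    exact zero_ne_one h
  obtain ⟨j, hj⟩ := h1
  have h3 : c j * m j ≤ 1 := by
    rw [← h]
    exact Finset.single_le_sum (f := fun j => c j * m j) (fun _ _ => Nat.zero_le _)
      (Finset.mem_univ j)
  have h4 : c j * m j = 1 := by omega
  exact hcon j (Nat.eq_one_of_mul_eq_one_left h4)

theorem main : S_RL := by
  intro n k A m e a hk he hA hray hford
  classical
  obtain ⟨ha0, hrayu⟩ := hray
  have heQ : (e : ℚ) ≠ 0 := by exact_mod_cast he.ne'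
  have heR : (e : ℝ) ≠ 0 := by exact_mod_cast he.ne'
  obtain ⟨j₀, hj₀⟩ : ∃ j, face m a j := by
    have : Nonempty (Fin k) := ⟨⟨0, hk⟩⟩
    obtain ⟨j, hj⟩ := ciInf_mem (fun j => ∑ i, a i * m j i)
    exact ⟨j, hj⟩
  let M : BB m a → Fin k → ℚ := fun b j =>
    Sum.elim (fun i => (A i.1 : ℚ) / e + m j i.1) (fun l => if j = l.1 then -1 else 0) b
  have hM : ∀ X : BB m a → ℚ, (∀ j, ∑ b, X b * M b j = 0) → ∀ b, X b = 0 := by
    intro X hX
    simp only [Fintype.sum_sum_type, M, Sum.elim_inl, Sum.elim_inr] at hX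
    let u : Fin n → ℚ := fun i => if h : a i ≠ 0 then X (Sum.inl ⟨i, h⟩) else 0
    have hsub : ∀ g : Fin n → ℚ, ∑ i : {i : Fin n // a i ≠ 0}, X (Sum.inl i) * g i.1 =
        ∑ i, u i * g i := by
      intro g
      have h1 : ∑ i ∈ Finset.univ.filter (fun i => a i ≠ 0), u i * g i =
          ∑ i : {i : Fin n // a i ≠ 0}, u i.1 * g i.1 :=
        Finset.sum_subtype (Finset.univ.filter (fun i => a i ≠ 0)) (by simp) (fun i => u i * g i)
      have h2 : ∑ i ∈ Finset.univ.filter (fun i => a i ≠ 0), u i * g i = ∑ i, u i * g i := by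
        apply Finset.sum_subset (Finset.subset_univ _)
        intro i _ hi
        have : ¬ a i ≠ 0 := by simpa using hi
        simp only [u, dif_neg this, zero_mul]
      rw [← h2, h1]
      refine Finset.sum_congr rfl (fun i _ => ?_)
      simp only [u]
      rw [dif_pos i.2]
    have hfj : ∀ j, face m a j → ∑ i, u i * ((A i : ℚ) / e + m j i) = 0 := by
      intro j hj
      have h1 := hX j
      rw [hsub (fun i => (A i : ℚ) / e + m j i)] at h1
      have h2 : ∑ l : {j : Fin k // ¬ face m a j}, X (Sum.inr l) *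
          (if j = l.1 then (-1 : ℚ) else 0) = 0 := by
        refine Finset.sum_eq_zero (fun l _ => ?_)
        rw [if_neg, mul_zero]
        rintro rfl
        exact l.2 hj
      rw [h2, add_zero] at h1
      exact h1
    have hconst : ∀ j, face m a j → ∑ i, u i * m j i = - ∑ i, u i * ((A i : ℚ) / e) := by
      intro j hj
      have h1 := hfj j hj
      simp only [mul_add, Finset.sum_add_distrib] at h1
      linarith
    obtain ⟨r, hr⟩ := hrayu u (fun i hi => by simp [u, hi])
      (fun j j' hj hj' => by rw [hconst j hj, hconst j' hj'])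
    have hr0 : r = 0 := by
      have h1 := hfj j₀ hj₀
      have h2 : ∑ i, u i * ((A i : ℚ) / e + m j₀ i) = r / e * (ford A m e a : ℚ) := by
        have h3 : (ford A m e a : ℚ) = ∑ i, (a i : ℚ) * A i + e * ∑ i, (a i : ℚ) * m j₀ i := by
          unfold ford
          rw [← hj₀]
          push_cast
          ring
        rw [h3, Finset.mul_sum, ← Finset.sum_add_distrib, Finset.mul_sum]
        refine Finset.sum_congr rfl (fun i _ => ?_)
        rw [hr i]
        field_simp
      rw [h2] at h1
      have h4 : (ford A m e a : ℚ) ≠ 0 := by exact_mod_cast hford.ne'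
      rcases mul_eq_zero.1 h1 with h5 | h5
      · rcases div_eq_zero_iff.1 h5 with h6 | h6
        · exact h6
        · exact absurd h6 heQ
      · exact absurd h5 h4
    have hXl : ∀ i, X (Sum.inl i) = 0 := by
      intro i
      have h1 := hr i.1
      rw [hr0, zero_mul] at h1
      simp only [u] at h1
      rw [dif_pos i.2] at h1
      exact h1
    rintro (i | l)
    · exact hXl i
    · have h1 := hX l.1
      rw [Finset.sum_eq_zero (fun i _ => by rw [hXl i, zero_mul]), zero_add,
        Finset.sum_eq_single l] at h1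
      · simpa using h1
      · intro l' _ hne
        rw [if_neg, mul_zero]
        intro h
        exact hne (Subtype.ext h).symm
      · simp
  obtain ⟨v, base, w, hv, hbase, hw, hid⟩ := ratl M hM (Sum.elim (fun _ => -1) (fun _ => 0))
  let t₀ : Fin k → ℝ := fun j => (base j : ℝ) + Real.sqrt 2 * w j
  let Λ : Fin k → BB m a → ℝ := fun j b => (v b j : ℝ)
  have hmu : ∀ (i : {i : Fin n // a i ≠ 0}) (t : Fin k → ℝ),
      (∑ j, t j) / e * A i.1 + ∑ j, t j * m j i.1 =
        ∑ j, ((M (Sum.inl i) j : ℚ) : ℝ) * t j := by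
    intro i t
    simp only [M, Sum.elim_inl]
    push_cast
    rw [Finset.sum_div, Finset.sum_mul, ← Finset.sum_add_distrib]
    exact Finset.sum_congr rfl (fun j _ => by ring)
  have hla : ∀ (l : {j : Fin k // ¬ face m a j}) (t : Fin k → ℝ),
      ∑ j, ((M (Sum.inr l) j : ℚ) : ℝ) * t j = - t l.1 := by
    intro l t
    simp only [M, Sum.elim_inr]
    rw [Finset.sum_eq_single l.1]
    · simp
    · intro j _ hne
      simp [hne]
    · simp
  have ht₀ : ∀ b, ∑ j, ((M b j : ℚ) : ℝ) * t₀ j =
      ((Sum.elim (fun _ => -1) (fun _ => 0) b : ℚ) : ℝ) := by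
    intro b
    have h1 : ∑ j, ((M b j : ℚ) : ℝ) * t₀ j =
        ((∑ j, M b j * base j : ℚ) : ℝ) + Real.sqrt 2 * ((∑ j, M b j * w j : ℚ) : ℝ) := by
      push_cast
      rw [Finset.mul_sum, ← Finset.sum_add_distrib]
      exact Finset.sum_congr rfl (fun j _ => by simp only [t₀]; ring)
    rw [h1, hbase b, hw b]
    simp
  have ht0mu : ∀ i (h : a i ≠ 0), (∑ j, t₀ j) / e * A i + ∑ j, t₀ j * m j i = -1 := by
    intro i h
    rw [hmu ⟨i, h⟩ t₀, ht₀]
    simp
  have ht0l : ∀ j, ¬ face m a j → t₀ j = 0 := by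
    intro j h
    have h1 := ht₀ (Sum.inr ⟨j, h⟩)
    rw [hla] at h1
    simp only [Sum.elim_inr, Rat.cast_zero, neg_eq_zero] at h1
    exact h1
  have hΛ : ∀ b b', ∑ j, ((M b' j : ℚ) : ℝ) * Λ j b = if b' = b then 1 else 0 := by
    intro b b'
    have h1 : ((∑ j, M b' j * v b j : ℚ) : ℝ) = ((if b' = b then 1 else 0 : ℚ) : ℝ) := by
      rw [hv b b']
    have h2 : ((if b' = b then 1 else 0 : ℚ) : ℝ) = if b' = b then 1 else 0 := by
      split_ifs <;> simp
    rw [h2, Rat.cast_sum] at h1
    simp only [Rat.cast_mul] at h1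
    exact h1
  have hw0 : ∀ j, (∃ r : ℕ, t₀ j = -((r : ℝ) + 1)) → w j = 0 := by
    rintro j ⟨r, hr⟩
    by_contra hne
    have h1 : Irrational ((base j : ℝ) + Real.sqrt 2 * w j) := by
      have h2 : Irrational (Real.sqrt 2 * (w j : ℝ)) :=
        irrational_sqrt_two.mul_ratCast hne
      exact h2.ratCast_add (base j)
    apply h1
    refine ⟨-((r : ℚ) + 1), ?_⟩
    rw [← show t₀ j = (base j : ℝ) + Real.sqrt 2 * w j from rfl, hr]
    push_cast
    ring
  have hidR : ∀ j, w j = 0 → ∀ j', ∑ b, Λ j b * ((M b j' : ℚ) : ℝ) = if j = j' then 1 else 0 := by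
    intro j hj j'
    have h1 : ((∑ b, v b j * M b j' : ℚ) : ℝ) = ((if j = j' then 1 else 0 : ℚ) : ℝ) := by
      rw [hid j hj j']
    have h2 : ((if j = j' then 1 else 0 : ℚ) : ℝ) = if j = j' then 1 else 0 := by
      split_ifs <;> simp
    rw [h2, Rat.cast_sum] at h1
    simp only [Rat.cast_mul] at h1
    exact h1
  rcases gordan (J := {j : Fin k // face m a j ∧ ∃ r : ℕ, t₀ j = -((r : ℝ) + 1)})
    (fun j b => Λ j.1 b) with ⟨p, hp, hpJ⟩ | ⟨y, hy, hy0, hyX⟩
  · right
    refine ⟨t₀, Λ, p, hp, ht0l, ?_, ht0mu, ?_, ?_⟩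
    · intro j h b
      have h1 := hΛ b (Sum.inr ⟨j, h⟩)
      rw [hla] at h1
      have h2 : (if b = Sum.inr ⟨j, h⟩ then (-1 : ℝ) else 0) =
          - (if (Sum.inr ⟨j, h⟩ : BB m a) = b then (1 : ℝ) else 0) := by
        by_cases hb : b = Sum.inr ⟨j, h⟩
        · rw [if_pos hb, if_pos hb.symm]
        · rw [if_neg hb, if_neg (fun h => hb h.symm), neg_zero]
      rw [h2, ← h1, neg_neg]
    · intro i h b
      rw [hmu ⟨i, h⟩ (fun j => Λ j b), hΛ]
      simp only [eq_comm]
    · intro j hj hr
      refine ⟨hpJ ⟨j, hj, hr⟩, fun ω => ?_⟩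
      have h1 : ∑ i : {i : Fin n // a i ≠ 0}, Λ j (Sum.inl i) *
              ((∑ j', ω j') / e * A i + ∑ j', ω j' * m j' i) +
            ∑ l : {j : Fin k // ¬ face m a j}, Λ j (Sum.inr l) * (- ω l) =
          ∑ b, Λ j b * ∑ j', ((M b j' : ℚ) : ℝ) * ω j' := by
        rw [Fintype.sum_sum_type]
        congr 1
        · exact Finset.sum_congr rfl (fun i _ => by rw [hmu])
        · exact Finset.sum_congr rfl (fun l _ => by rw [hla])
      rw [h1]
      simp only [Finset.mul_sum]
      rw [Finset.sum_comm]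
      have h2 : ∀ j', ∑ b, Λ j b * (((M b j' : ℚ) : ℝ) * ω j') =
          (if j = j' then 1 else 0) * ω j' := by
        intro j'
        rw [← hidR j (hw0 j hr) j', Finset.sum_mul]
        exact Finset.sum_congr rfl (fun b _ => by ring)
      simp only [h2]
      simp
  · left
    have hkey : ∀ j', face m a j' →
        ∑ i : {i : Fin n // a i ≠ 0}, (∑ j, y j * Λ j.1 (Sum.inl i)) *
          ((M (Sum.inl i) j' : ℚ) : ℝ) = ∑ j, y j * (if j.1 = j' then 1 else 0) := by
      intro j' hj'
      have h1 : ∑ j, y j * (if j.1 = j' then (1 : ℝ) else 0) =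
          ∑ b, (∑ j, y j * Λ j.1 b) * ((M b j' : ℚ) : ℝ) := by
        simp only [Finset.sum_mul]
        rw [Finset.sum_comm]
        refine Finset.sum_congr rfl (fun j _ => ?_)
        rw [← hidR j.1 (hw0 j.1 j.2.2) j', Finset.mul_sum]
        exact Finset.sum_congr rfl (fun b _ => by ring)
      rw [h1, Fintype.sum_sum_type]
      have h2 : ∑ l : {j : Fin k // ¬ face m a j}, (∑ j, y j * Λ j.1 (Sum.inr l)) *
          ((M (Sum.inr l) j' : ℚ) : ℝ) = 0 := by
        refine Finset.sum_eq_zero (fun l _ => ?_)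
        have h3 : M (Sum.inr l) j' = 0 := by
          simp only [M, Sum.elim_inr]
          rw [if_neg]
          rintro rfl
          exact l.2 hj'
        rw [h3]
        simp
      rw [h2, add_zero]
    have hi0 : ∃ i : {i : Fin n // a i ≠ 0}, ∑ j, y j * Λ j.1 (Sum.inl i) ≠ 0 := by
      by_contra hcon
      push Not at hcon
      obtain ⟨j, hj⟩ := hy0
      have h1 := hkey j.1 j.2.1
      rw [Finset.sum_eq_zero (fun i _ => by rw [hcon i, zero_mul]),
        Finset.sum_eq_single j] at h1
      · simp at h1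
        exact hj h1.symm
      · intro j'' _ hne
        rw [if_neg, mul_zero]
        intro h
        exact hne (Subtype.ext h)
      · simp
    obtain ⟨i₀, hi₀⟩ := hi0
    by_cases hall : ∀ j, face m a j → ∃ r : ℕ, t₀ j = -((r : ℝ) + 1)
    · choose r hr using hall
      let c : Fin k → ℕ := fun j => if h : face m a j then r j h + 1 else 0
      have hc : ∀ j, t₀ j = -(c j : ℝ) := by
        intro j
        by_cases h : face m a j
        · simp only [c]
          rw [dif_pos h, hr j h]
          push_cast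
          ring
        · simp only [c]
          rw [dif_neg h, ht0l j h]
          simp
      have hnat : ∀ i, a i ≠ 0 → (∑ j, c j) * A i + e * ∑ j, c j * m j i = e := by
        intro i h
        have h1 := ht0mu i h
        simp only [hc, Finset.sum_neg_distrib, neg_mul] at h1
        have h2 : ((∑ j, (c j : ℝ)) * A i + e * ∑ j, (c j : ℝ) * m j i) = e := by
          have h3 : (∑ j, (c j : ℝ)) / e * A i + ∑ j, (c j : ℝ) * m j i = 1 := by
            have h4 : -(∑ j, (c j : ℝ)) / e * A i = -((∑ j, (c j : ℝ)) / e * A i) := by ring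
            rw [h4] at h1
            linarith
          have h5 : ((∑ j, (c j : ℝ)) * A i + e * ∑ j, (c j : ℝ) * m j i) =
              e * ((∑ j, (c j : ℝ)) / e * A i + ∑ j, (c j : ℝ) * m j i) := by
            field_simp
          rw [h5, h3, mul_one]
        exact_mod_cast h2
      have hApos : A i₀.1 ≠ 0 := by
        intro hA0
        have h1 := hnat i₀.1 i₀.2
        rw [hA0, mul_zero, zero_add] at h1
        have h2 : ∑ j, c j * m j i₀.1 = 1 := by
          have h3 : e * ∑ j, c j * m j i₀.1 = e * 1 := by rw [h1, mul_one]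
          exact Nat.eq_of_mul_eq_mul_left he h3
        obtain ⟨j, hj⟩ := exists_one c (fun j => m j i₀.1) h2
        rcases hA i₀.1 with h | h
        · exact h hA0
        · exact h j hj
      have hC1 : 1 ≤ ∑ j, c j := by
        have h1 : c j₀ ≤ ∑ j, c j :=
          Finset.single_le_sum (f := c) (fun _ _ => Nat.zero_le _) (Finset.mem_univ j₀)
        have h2 : 1 ≤ c j₀ := by
          simp only [c]
          rw [dif_pos hj₀]
          omega
        omega
      have hCe : ∑ j, c j ≤ e := by
        have h1 := hnat i₀.1 i₀.2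
        have h2 : (∑ j, c j) * 1 ≤ (∑ j, c j) * A i₀.1 :=
          Nat.mul_le_mul_left _ (Nat.one_le_iff_ne_zero.2 hApos)
        omega
      refine ⟨∑ j, c j, hC1, hCe, ?_⟩
      have hfin : (∑ j, c j) * ford A m e a = (∑ i, a i) * e := by
        have h1 : ∑ i, a i * ((∑ j, c j) * A i + e * ∑ j, c j * m j i) = (∑ i, a i) * e := by
          rw [Finset.sum_mul]
          refine Finset.sum_congr rfl (fun i _ => ?_)
          by_cases h : a i = 0
          · rw [h]; simp
          · rw [hnat i h]
        rw [← h1]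
        have h2 : ∀ j, c j * ∑ i, a i * m j i = c j * gord m a := by
          intro j
          by_cases h : face m a j
          · have h' : ∑ i, a i * m j i = gord m a := h
            rw [h']
          · simp only [c]
            rw [dif_neg h, zero_mul, zero_mul]
        have h3 : ∑ i, a i * ((∑ j, c j) * A i + e * ∑ j, c j * m j i) =
            (∑ j, c j) * ∑ i, a i * A i + e * ∑ j, c j * ∑ i, a i * m j i := by
          have h4 : ∑ j, c j * ∑ i, a i * m j i = ∑ i, a i * ∑ j, c j * m j i := by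
            simp only [Finset.mul_sum]
            rw [Finset.sum_comm]
            exact Finset.sum_congr rfl (fun i _ => Finset.sum_congr rfl (fun j _ => by ring))
          rw [h4, Finset.mul_sum, Finset.mul_sum, ← Finset.sum_add_distrib]
          exact Finset.sum_congr rfl (fun i _ => by ring)
        rw [h3]
        simp only [h2]
        rw [← Finset.sum_mul]
        unfold ford
        ring
      have hfQ : (ford A m e a : ℚ) ≠ 0 := by exact_mod_cast hford.ne'
      rw [div_eq_div_iff hfQ heQ]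
      exact_mod_cast hfin.symm
    · exfalso
      push Not at hall
      have hzero : ∀ j₁, face m a j₁ → (¬ ∃ r : ℕ, t₀ j₁ = -((r : ℝ) + 1)) →
          A i₀.1 = 0 ∧ m j₁ i₀.1 = 0 := by
        intro j₁ hf hr
        have h1 := hkey j₁ hf
        have h2 : ∑ j : {j : Fin k // face m a j ∧ ∃ r : ℕ, t₀ j = -((r : ℝ) + 1)},
            y j * (if j.1 = j₁ then (1 : ℝ) else 0) = 0 := by
          refine Finset.sum_eq_zero (fun j _ => ?_)
          rw [if_neg, mul_zero]
          intro h
          exact hr (h ▸ j.2.2)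
        rw [h2] at h1
        have h3 : ∀ i : {i : Fin n // a i ≠ 0}, 0 ≤ ((M (Sum.inl i) j₁ : ℚ) : ℝ) := by
          intro i
          simp only [M, Sum.elim_inl]
          push_cast
          positivity
        have h4 := (Finset.sum_eq_zero_iff_of_nonneg
          (fun i _ => mul_nonneg (hyX (Sum.inl i)) (h3 i))).1 h1 i₀ (Finset.mem_univ _)
        rcases mul_eq_zero.1 h4 with h5 | h5
        · exact absurd h5 hi₀
        · simp only [M, Sum.elim_inl] at h5
          push_cast at h5
          have h6 : 0 ≤ (A i₀.1 : ℝ) / e := by positivity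
          have h7 : 0 ≤ (m j₁ i₀.1 : ℝ) := by positivity
          have h8 : (A i₀.1 : ℝ) / e = 0 := by linarith
          have h9 : (m j₁ i₀.1 : ℝ) = 0 := by linarith
          refine ⟨?_, by exact_mod_cast h9⟩
          rcases div_eq_zero_iff.1 h8 with h10 | h10
          · exact_mod_cast h10
          · exact absurd h10 heR
      obtain ⟨j₁, hj₁, hj₁'⟩ := hall
      have hA0 : A i₀.1 = 0 := (hzero j₁ hj₁ (by push Not; exact hj₁')).1
      let c : Fin k → ℕ := fun j =>
        if h : face m a j ∧ ∃ r : ℕ, t₀ j = -((r : ℝ) + 1) then h.2.choose + 1 else 0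
      have hc : ∀ j, t₀ j * m j i₀.1 = -((c j * m j i₀.1 : ℕ) : ℝ) := by
        intro j
        by_cases h : face m a j ∧ ∃ r : ℕ, t₀ j = -((r : ℝ) + 1)
        · simp only [c]
          rw [dif_pos h]
          have h1 := h.2.choose_spec
          conv_lhs => rw [h1]
          push_cast
          ring
        · simp only [c]
          rw [dif_neg h]
          by_cases hf : face m a j
          · have h2 : ¬ ∃ r : ℕ, t₀ j = -((r : ℝ) + 1) := fun hr => h ⟨hf, hr⟩
            rw [(hzero j hf h2).2]
            simp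
          · rw [ht0l j hf]
            simp
      have h1 := ht0mu i₀.1 i₀.2
      rw [hA0] at h1
      simp only [hc, Finset.sum_neg_distrib] at h1
      have h2 : ∑ j, c j * m j i₀.1 = 1 := by
        have h3 : ((∑ j, c j * m j i₀.1 : ℕ) : ℝ) = 1 := by
          push_cast at h1 ⊢
          linarith
        exact_mod_cast h3
      obtain ⟨j, hj⟩ := exists_one c (fun j => m j i₀.1) h2
      rcases hA i₀.1 with h | h
      · exact h hA0
      · exact h j hj

end Pool.Agent.W85.SMRL
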