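import Pool.Agent.NPC.Num

/-!
# Iterating a polynomial-time step quasi-polynomially often
-/

set_option autoImplicit false

namespace Pool.Agent.W85.QIter

open Pool.Agent.NPC Turing

theorem bitsPoly {α : Type} [TEnc α] : Poly (fun a : α => (bits a : List Bool)) := by
  obtain ⟨c, q, h⟩ := PC.ofBits
  exact ⟨c, q, fun a => h (bits a)⟩

theorem usz {α : Type} [TEnc α] : UPoly (fun a : α => sz a) := by
  have h : UPoly (fun a : α => (bits a).length) := UPoly.length bitsPoly
  exact h

theorem ulog {α : Type} [TEnc α] : UPoly (fun a : α => (sz a).size) := by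
  have h : UPoly (fun a : α => ((sz a).bits).length) := UPoly.length (Poly.natBits usz.toPoly)
  have e : (fun a : α => (sz a).size) = fun a : α => ((sz a).bits).length := by
    funext a
    exact (Nat.size_eq_bits_len _).symm
  rw [e]
  exact h

theorem sz_rep (k : ℕ) : sz (List.replicate k ()) = 2 * k + 1 := by
  induction k with
  | zero => rfl
  | succ k ih =>
    rw [List.replicate_succ, sz_list_cons, ih, sz_unit]
    ring

/-- The pad step. -/
def f1 {α : Type} [TEnc α] (p : α × List Unit) : α × List Unit :=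
  (p.1, List.replicate ((2 * sz p.1) * p.2.length) ())

theorem f1_poly {α : Type} [TEnc α] : Poly (f1 : α × List Unit → α × List Unit) :=
  Poly.pair (Poly.fst Poly.id) (UPoly.mul (UPoly.mul (UPoly.const 2) (usz.comp (Poly.fst Poly.id)))
    (UPoly.length (Poly.snd Poly.id)))

theorem f1_iter {α : Type} [TEnc α] (a : α) (k : ℕ) :
    (f1^[k] (a, [()])) = (a, List.replicate ((2 * sz a) ^ k) ()) := by
  induction k with
  | zero => rfl
  | succ k ih =>
    rw [Function.iterate_succ_apply', ih]
    simp only [f1, List.length_replicate]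
    congr 2
    ring

theorem size_log {n : ℕ} (hn : 0 < n) : n.size = Nat.log 2 n + 1 := by
  apply le_antisymm
  · rw [Nat.size_le]
    exact Nat.lt_pow_succ_log_self (by norm_num) n
  · rw [Nat.succ_le_iff, Nat.lt_size]
    exact Nat.pow_log_le_self 2 hn.ne'

theorem poly_le_pow (R : Polynomial ℕ) : ∃ e : ℕ, ∀ Y : ℕ, 2 ≤ Y → R.eval Y ≤ Y ^ e := by
  induction R using Polynomial.induction_on' with
  | add p q hp hq =>
    obtain ⟨e1, h1⟩ := hp
    obtain ⟨e2, h2⟩ := hq
    refine ⟨e1 + e2 + 1, fun Y hY => ?_⟩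
    rw [Polynomial.eval_add]
    have a1 : Y ^ e1 ≤ Y ^ (e1 + e2) := Nat.pow_le_pow_right (by omega) (by omega)
    have a2 : Y ^ e2 ≤ Y ^ (e1 + e2) := Nat.pow_le_pow_right (by omega) (by omega)
    have b1 := h1 Y hY
    have b2 := h2 Y hY
    rw [pow_succ]
    nlinarith [Nat.pos_of_ne_zero (pow_ne_zero (e1 + e2) (show Y ≠ 0 by omega))]
  | monomial k c =>
    refine ⟨c + k, fun Y hY => ?_⟩
    rw [Polynomial.eval_monomial, pow_add]
    apply Nat.mul_le_mul_right
    calc c ≤ 2 ^ c := Nat.lt_two_pow_self.le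
      _ ≤ Y ^ c := Nat.pow_le_pow_left hY c

/-- The total run. -/
theorem total {α σ β : Type} [TEnc α] [TEnc σ] [TEnc β]
    {init : α → σ} {step : σ → σ} {out : σ → β} (hi : Poly init) (hs : Poly step) (ho : Poly out)
    (q : Polynomial ℕ) (D : ℕ) :
    ∃ (c : Cmd ℕ) (R : Polynomial ℕ), ∀ a : α,
      (∀ k : ℕ, sz (step^[k] (init a)) ≤ (k + 1) * q.eval (sz a)) →
      Runs c (inp (bits a))
        (inp (bits (out (step^[2 * (2 * sz a) ^ (2 * (D * (sz a).size) + 1) + 1] (init a)))))
        (R.eval ((2 * sz a) ^ (2 * (D * (sz a).size) + 1))) := by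
  have hA : Poly (fun a : α => T.node (toT (List.replicate (D * (sz a).size) ()))
      (toT ((a, [()]) : α × List Unit))) :=
    Poly.node (Poly.toT' (UPoly.mul (UPoly.const D) ulog))
      (Poly.toT' (Poly.pair Poly.id (Pool.Agent.NPC.Poly.const [()])))
  have hC : Poly (fun p : α × List Unit => T.node (toT p.2) (toT (init p.1))) :=
    Poly.node (Poly.toT' (Poly.snd Poly.id)) (Poly.toT' (hi.comp (Poly.fst Poly.id)))
  obtain ⟨cA, pA, hA⟩ := hA
  obtain ⟨c1, p1, h1⟩ := f1_poly (α := α)
  obtain ⟨cC, pC, hC⟩ := hC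
  obtain ⟨cS, pS, hS⟩ := hs
  obtain ⟨cO, pO, hO⟩ := ho
  refine ⟨Cmd.seq cA (Cmd.seq split (Cmd.seq (Cmd.loop 1 (Cmd.seq (Cmd.pop 1) (ev c1)))
    (Cmd.seq cC (Cmd.seq split (Cmd.seq (Cmd.loop 1 (Cmd.seq (Cmd.pop 1) (ev cS))) cO))))),
    pA + (Polynomial.C 5 * Polynomial.X + Polynomial.C 3) +
      ((p1.comp (Polynomial.C 5 * Polynomial.X) + Polynomial.C 2) * Polynomial.X + Polynomial.C 1) +
      pC.comp (Polynomial.C 5 * Polynomial.X) +
      (Polynomial.C 5 * (Polynomial.C 2 * Polynomial.X + Polynomial.C 1) + Polynomial.C 3) +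
      ((pS.comp ((Polynomial.C 2 * Polynomial.X + Polynomial.C 2) * q) + Polynomial.C 2) *
        (Polynomial.C 2 * Polynomial.X + Polynomial.C 1) + Polynomial.C 1) +
      pO.comp ((Polynomial.C 2 * Polynomial.X + Polynomial.C 2) * q), fun a hsz => ?_⟩
  set n := sz a with hn
  set K1 := 2 * (D * n.size) + 1 with hK1
  set Y := (2 * n) ^ K1 with hY
  have hn1 : 0 < n := sz_pos a
  have h2n : 2 ≤ 2 * n := by omega
  have hnY : 2 * n ≤ Y := by
    calc 2 * n = (2 * n) ^ 1 := (pow_one _).symm
      _ ≤ (2 * n) ^ K1 := Nat.pow_le_pow_right (by omega) (by omega)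
  have hK1Y : K1 ≤ Y := by
    calc K1 ≤ 2 ^ K1 := Nat.lt_two_pow_self.le
      _ ≤ (2 * n) ^ K1 := Nat.pow_le_pow_left h2n _
  have rA := hA a
  rw [inp_eq_st, inp_eq_st] at rA
  have rS1 := split_runs (toT (List.replicate (D * n.size) ())) (toT ((a, [()]) : α × List Unit))
  have sK1 : (toT (List.replicate (D * n.size) ())).enc.reverse.length = K1 := by
    rw [List.length_reverse]
    exact sz_rep _
  have rL1 := loop_runs h1 (5 * Y) (toT (List.replicate (D * n.size) ())).enc.reverse
    ((a, [()]) : α × List Unit) (by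
      intro k hk
      rw [sK1] at hk
      rw [f1_iter]
      change sz ((a, List.replicate ((2 * sz a) ^ k) ()) : α × List Unit) ≤ _
      rw [sz_pair, sz_rep, ← hn]
      have : (2 * n) ^ k ≤ Y := Nat.pow_le_pow_right (by omega) hk
      omega)
  rw [sK1, f1_iter, ← hn, ← hY] at rL1
  have rC := hC ((a, List.replicate Y ()) : α × List Unit)
  rw [inp_eq_st, inp_eq_st] at rC
  simp only at rC
  have rS2 := split_runs (toT (List.replicate Y ())) (toT (init a))
  have sK : (toT (List.replicate Y ())).enc.reverse.length = 2 * Y + 1 := by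
    rw [List.length_reverse]
    exact sz_rep _
  have rL2 := loop_runs hS ((2 * Y + 2) * q.eval Y) (toT (List.replicate Y ())).enc.reverse
    (init a) (by
      intro k hk
      rw [sK] at hk
      refine (hsz k).trans ?_
      apply Nat.mul_le_mul (by omega)
      exact eval_mono q (by omega))
  rw [sK] at rL2
  have rO := hO (step^[2 * Y + 1] (init a))
  rw [inp_eq_st, inp_eq_st] at rO
  rw [inp_eq_st, inp_eq_st]
  refine (rA.seq (rS1.seq (rL1.seq (rC.seq (rS2.seq (rL2.seq rO)))))).mono ?_
  have e1 : pA.eval (bits a).length ≤ pA.eval Y := eval_mono pA (by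
    change sz a ≤ Y
    omega)
  have e2 : (toT (List.replicate (D * n.size) ())).size ≤ Y := by
    have : (toT (List.replicate (D * n.size) ())).size = K1 := sz_rep _
    omega
  have e3 : (p1.eval (5 * Y) + 2) * K1 ≤ (p1.eval (5 * Y) + 2) * Y := Nat.mul_le_mul_left _ hK1Y
  have e4 : pC.eval (bits ((a, List.replicate Y ()) : α × List Unit)).length ≤
      pC.eval (5 * Y) := eval_mono pC (by
    change sz ((a, List.replicate Y ()) : α × List Unit) ≤ _
    rw [sz_pair, sz_rep, ← hn]
    omega)
  have e5 : (toT (List.replicate Y ())).size = 2 * Y + 1 := sz_rep _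
  have e6 : pO.eval (bits (step^[2 * Y + 1] (init a))).length ≤
      pO.eval ((2 * Y + 2) * q.eval Y) := eval_mono pO (by
    refine (hsz (2 * Y + 1)).trans ?_
    apply Nat.mul_le_mul (by omega)
    exact eval_mono q (by omega))
  simp only [Polynomial.eval_add, Polynomial.eval_mul, Polynomial.eval_C, Polynomial.eval_X,
    Polynomial.eval_comp]
  rw [e5]
  omega

theorem quasiPoly_iterate {ι α σ β : Type} [TEnc α] [TEnc σ] [TEnc β] (e : ι → α)
    {init : α → σ} {step : σ → σ} {out : σ → β} (hi : Poly init) (hs : Poly step) (ho : Poly out)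
    (q : Polynomial ℕ)
    (hsz : ∀ (x : ι) (k : ℕ), sz (step^[k] (init (e x))) ≤ (k + 1) * q.eval (sz (e x))) (D : ℕ) :
    ∃ K : ι → ℕ, (∀ x, 2 ^ (D * (Nat.log 2 (sz (e x)) + 1) ^ 2) ≤ K x) ∧
      ∃ (C : ℕ) (h : TM2ComputableInTime (fun x => bits (e x)) (fun b : β => bits b)
        (fun x => out (step^[K x] (init (e x))))),
        ∀ n, h.time n ≤ 2 ^ (C * (Nat.log 2 n + 1) ^ 2) := by
  obtain ⟨c, R, hR⟩ := total hi hs ho q D
  obtain ⟨E, hE⟩ := poly_le_pow (R + 1)
  refine ⟨fun x => 2 * (2 * sz (e x)) ^ (2 * (D * (sz (e x)).size) + 1) + 1, ?_,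
    (4 * D + 2) * E, ?_⟩
  · intro x
    have h0 : 0 < sz (e x) := sz_pos _
    have hsl := size_log h0
    set n := sz (e x) with hn
    set s := Nat.log 2 n + 1 with hs'
    beta_reduce
    rw [← hn, hsl]
    have h1 : 2 ^ s ≤ 2 * n := by
      rw [hs', pow_succ, mul_comm]
      exact Nat.mul_le_mul_left _ (Nat.pow_log_le_self 2 h0.ne')
    calc 2 ^ (D * s ^ 2) ≤ 2 ^ (s * (2 * (D * s) + 1)) := by
          apply Nat.pow_le_pow_right (by norm_num)
          nlinarith [Nat.zero_le (D * s ^ 2)]
      _ = (2 ^ s) ^ (2 * (D * s) + 1) := by rw [pow_mul]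
      _ ≤ (2 * n) ^ (2 * (D * s) + 1) := Nat.pow_le_pow_left h1 _
      _ ≤ _ := by omega
  · have key : ∀ x : ι, ∃ t, t ≤ 2 ^ ((4 * D + 2) * E * (Nat.log 2 (bits (e x)).length + 1) ^ 2) ∧
        Nonempty (TM2OutputsInTime (c.map (Fin.ofNat (c.bd + 1))).toTM (bits (e x))
          (some (bits (out (step^[2 * (2 * sz (e x)) ^ (2 * (D * (sz (e x)).size) + 1) + 1]
            (init (e x)))))) t) := by
      intro x
      obtain ⟨t, ht, hr⟩ := hR (e x) (hsz x)
      have h1 := hr.restrict (n := c.bd) (by omega)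
      refine ⟨t + 1, ?_, toTM_outputs ?_⟩
      · have h0 : 0 < sz (e x) := sz_pos _
        have hsl := size_log h0
        change t + 1 ≤ 2 ^ ((4 * D + 2) * E * (Nat.log 2 (sz (e x)) + 1) ^ 2)
        set n := sz (e x) with hn
        set s := Nat.log 2 n + 1 with hs'
        rw [hsl] at ht
        set Y := (2 * n) ^ (2 * (D * s) + 1) with hY
        have hY2 : 2 ≤ Y := by
          calc 2 ≤ (2 * n) ^ 1 := by rw [pow_one]; omega
            _ ≤ Y := Nat.pow_le_pow_right (by omega) (by omega)
        have h2 := hE Y hY2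
        simp only [Polynomial.eval_add, Polynomial.eval_one] at h2
        have h3 : 2 * n ≤ 2 ^ (2 * s) := by
          have h4 : n < 2 ^ s := Nat.lt_pow_succ_log_self (by norm_num) n
          have h5 : 2 ^ (s + 1) ≤ 2 ^ (2 * s) := Nat.pow_le_pow_right (by norm_num) (by omega)
          rw [pow_succ] at h5
          omega
        have h6 : Y ≤ 2 ^ ((4 * D + 2) * s ^ 2) := by
          calc Y ≤ (2 ^ (2 * s)) ^ (2 * (D * s) + 1) := Nat.pow_le_pow_left h3 _
            _ = 2 ^ ((2 * s) * (2 * (D * s) + 1)) := by rw [← pow_mul]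
            _ ≤ 2 ^ ((4 * D + 2) * s ^ 2) := by
              apply Nat.pow_le_pow_right (by norm_num)
              have : 1 ≤ s := by omega
              nlinarith
        calc t + 1 ≤ R.eval Y + 1 := by omega
          _ ≤ Y ^ E := h2
          _ ≤ (2 ^ ((4 * D + 2) * s ^ 2)) ^ E := Nat.pow_le_pow_left h6 _
          _ = 2 ^ ((4 * D + 2) * E * s ^ 2) := by
            rw [← pow_mul]
            congr 1
            ring
      · convert! h1 using 1
        · funext i
          by_cases hi : i = 0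
          · subst hi; simp [inp]
          · have : (i : ℕ) ≠ 0 := fun h => hi (Fin.ext h)
            simp [inp, hi, this]
        · funext i
          by_cases hi : i = 0
          · subst hi; simp [inp]
          · have : (i : ℕ) ≠ 0 := fun h => hi (Fin.ext h)
            simp [inp, hi, this]
    refine ⟨{ tm := (c.map (Fin.ofNat (c.bd + 1))).toTM
              inputAlphabet := Equiv.refl Bool
              outputAlphabet := Equiv.refl Bool
              time := fun n => 2 ^ ((4 * D + 2) * E * (Nat.log 2 n + 1) ^ 2)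
              outputsFun := ?_ }, fun n => le_rfl⟩
    intro x
    have hx := key x
    exact outputs_conv (List.map_id _).symm (List.map_id _).symm hx.choose_spec.1
      hx.choose_spec.2.some

end Pool.Agent.W85.QIter
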