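import Pool.Agent.W630.Stubs

/-!
# Homotopy invariance of the degree integral over a torus bundle
-/

set_option autoImplicit false

open scoped Topology ContDiff
open Set MeasureTheory

noncomputable section

namespace Pool.Agent.W85.LefG

open Pool.Agent.W630

/-! ### Shears -/

theorem dec {n : ℕ} (i : Fin (n + 1)) (f : (Fin (n + 1) → ℝ) → ℝ) (hf : Continuous f) :
    ∫ x in Icc (0 : Fin (n + 1) → ℝ) 1, f x =
      ∫ y in Icc (0 : Fin n → ℝ) 1, ∫ t in Icc (0 : ℝ) 1, f (i.insertNth t y) := by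
  set e : ℝ × (Fin n → ℝ) ≃ᵐ (Fin (n + 1) → ℝ) :=
    (MeasurableEquiv.piFinSuccAbove (fun _ => ℝ) i).symm with he
  have hem : MeasurePreserving e :=
    (volume_preserving_piFinSuccAbove (fun _ : Fin (n + 1) => ℝ) i).symm _
  have heπ : (e ⁻¹' Icc (0 : Fin (n + 1) → ℝ) 1) =
      Icc (0 : ℝ) 1 ×ˢ Icc (0 : Fin n → ℝ) 1 :=
    ((Fin.insertNthOrderIso (fun _ => ℝ) i).preimage_Icc _ _).trans (Icc_prod_eq _ _)
  have hc : Continuous fun p : ℝ × (Fin n → ℝ) => f (i.insertNth p.1 p.2) :=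
    hf.comp (Continuous.finInsertNth i continuous_fst continuous_snd)
  rw [← hem.map_eq, setIntegral_map_equiv, heπ, Measure.volume_eq_prod,
    ← setIntegral_prod_swap, setIntegral_prod]
  · rfl
  · apply ContinuousOn.integrableOn_compact (isCompact_Icc.prod isCompact_Icc)
    exact (hc.comp continuous_swap).continuousOn

theorem shear (i : Fin 3) (h φ : P → ℝ) (ψ : (Fin 2 → ℝ) → ℝ) (hh : Continuous h)
    (hφ : Continuous φ) (hψ : ∀ t y, φ (i.insertNth t y) = ψ y)
    (hp : ∀ x, h (x + Pi.single i 1) = h x) :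
    ∫ x in Icc (0 : P) 1, h (x + φ x • Pi.single i 1) = ∫ x in Icc (0 : P) 1, h x := by
  refine (dec (n := 2) i (fun x => h (x + φ x • Pi.single i 1)) (by fun_prop)).trans
    (Eq.trans ?_ (dec (n := 2) i h hh).symm)
  congr 1
  funext y
  have e1 : ∀ t : ℝ, (i.insertNth t y : P) + φ (i.insertNth t y) • Pi.single i 1 =
      i.insertNth (t + ψ y) y := by
    intro t
    rw [hψ]
    funext j
    refine i.succAboveCases ?_ (fun j => ?_) j
    · simp
    · simp
  have e2 : Function.Periodic (fun t : ℝ => h (i.insertNth t y)) 1 := by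
    intro t
    have : (i.insertNth (t + 1) y : P) = i.insertNth t y + Pi.single i 1 := by
      funext j
      refine i.succAboveCases ?_ (fun j => ?_) j
      · simp
      · simp
    simp only [this, hp]
  simp only [e1]
  rw [integral_Icc_eq_integral_Ioc, integral_Icc_eq_integral_Ioc,
    ← intervalIntegral.integral_of_le zero_le_one, ← intervalIntegral.integral_of_le zero_le_one,
    intervalIntegral.integral_comp_add_right (fun t : ℝ => h (i.insertNth t y)), zero_add,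
    add_comm 1 (ψ y)]
  have := e2.intervalIntegral_add_eq (ψ y) 0
  rw [zero_add] at this
  exact this

/-- continuous and periodic in the last two variables -/
def Q (h : P → ℝ) : Prop :=
  Continuous h ∧ (∀ x, h (x + Pi.single 1 1) = h x) ∧ ∀ x, h (x + Pi.single 2 1) = h x

def s1 (x : P) : P := x + x 2 • Pi.single 1 1

def s2 (x : P) : P := x + x 1 • Pi.single 2 1

theorem insertNth_one (t : ℝ) (y : Fin 2 → ℝ) : (Fin.insertNth (1 : Fin 3) t y : P) 2 = y 1 := by
  have : (2 : Fin 3) = (1 : Fin 3).succAbove 1 := rfl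
  rw [this, Fin.insertNth_apply_succAbove]

theorem insertNth_two (t : ℝ) (y : Fin 2 → ℝ) : (Fin.insertNth (2 : Fin 3) t y : P) 1 = y 1 := by
  have : (1 : Fin 3) = (2 : Fin 3).succAbove 1 := rfl
  rw [this, Fin.insertNth_apply_succAbove]

theorem Q_s1 {h : P → ℝ} (hh : Q h) :
    Q (fun x => h (s1 x)) ∧ ∫ x in Icc (0 : P) 1, h (s1 x) = ∫ x in Icc (0 : P) 1, h x := by
  obtain ⟨hc, h1, h2⟩ := hh
  refine ⟨⟨?_, ?_, ?_⟩, ?_⟩
  · unfold s1
    fun_prop
  · intro x
    have : s1 (x + Pi.single 1 1) = s1 x + Pi.single 1 1 := by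
      unfold s1
      funext j
      fin_cases j <;> simp
      ring
    simp only [this, h1]
  · intro x
    have : s1 (x + Pi.single 2 1) = (s1 x + Pi.single 1 1) + Pi.single 2 1 := by
      unfold s1
      funext j
      fin_cases j <;> simp
      ring
    simp only [this, h1, h2]
  · exact shear 1 h (fun x => x 2) (fun y => y 1) hc (by fun_prop)
      (fun t y => insertNth_one t y) h1

theorem Q_s2 {h : P → ℝ} (hh : Q h) :
    Q (fun x => h (s2 x)) ∧ ∫ x in Icc (0 : P) 1, h (s2 x) = ∫ x in Icc (0 : P) 1, h x := by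
  obtain ⟨hc, h1, h2⟩ := hh
  refine ⟨⟨?_, ?_, ?_⟩, ?_⟩
  · unfold s2
    fun_prop
  · intro x
    have : s2 (x + Pi.single 1 1) = (s2 x + Pi.single 2 1) + Pi.single 1 1 := by
      unfold s2
      funext j
      fin_cases j <;> simp
      ring
    simp only [this, h1, h2]
  · intro x
    have : s2 (x + Pi.single 2 1) = s2 x + Pi.single 2 1 := by
      unfold s2
      funext j
      fin_cases j <;> simp
      ring
    simp only [this, h2]
  · exact shear 2 h (fun x => x 1) (fun y => y 1) hc (by fun_prop)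
      (fun t y => insertNth_two t y) h2

def M (x : P) : P := ![x 0, 5 * x 1 + 3 * x 2, 3 * x 1 + 2 * x 2]

theorem integral_M {h : P → ℝ} (hh : Q h) :
    ∫ x in Icc (0 : P) 1, h (M x) = ∫ x in Icc (0 : P) 1, h x := by
  have e : ∀ x, M x = s1 (s2 (s1 (s2 x))) := by
    intro x
    unfold M s1 s2
    funext j
    fin_cases j <;> simp <;> ring
  simp only [e]
  have a1 := Q_s1 hh
  have a2 := Q_s2 a1.1
  have a3 := Q_s1 a2.1
  have a4 := Q_s2 a3.1
  rw [a4.2, a3.2, a2.2, a1.2]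

/-! ### The divergence free field -/

/-- the determinant -/
def δ (u v w : P) : ℝ :=
  u 0 * (v 1 * w 2 - v 2 * w 1) - u 1 * (v 0 * w 2 - v 2 * w 0) + u 2 * (v 0 * w 1 - v 1 * w 0)

abbrev E4 : Type := Fin 4 → ℝ

theorem hasFDerivAt_N {A : E4 → ℝ} {A' : E4 →L[ℝ] ℝ} {U V W : E4 → P} {U' V' W' : E4 →L[ℝ] P}
    {y : E4} (hA : HasFDerivAt A A' y) (hU : HasFDerivAt U U' y) (hV : HasFDerivAt V V' y)
    (hW : HasFDerivAt W W' y) :
    ∃ L : E4 →L[ℝ] ℝ, HasFDerivAt (fun y => A y * δ (U y) (V y) (W y)) L y ∧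
      ∀ h, L h = A' h * δ (U y) (V y) (W y) + A y * (δ (U' h) (V y) (W y) +
        δ (U y) (V' h) (W y) + δ (U y) (V y) (W' h)) := by
  have u := hasFDerivAt_pi'.1 hU
  have v := hasFDerivAt_pi'.1 hV
  have w := hasFDerivAt_pi'.1 hW
  refine ⟨_, hA.mul (((u 0).mul (((v 1).mul (w 2)).sub ((v 2).mul (w 1)))).sub
    ((u 1).mul (((v 0).mul (w 2)).sub ((v 2).mul (w 0)))) |>.add
      ((u 2).mul (((v 0).mul (w 1)).sub ((v 1).mul (w 0))))), ?_⟩
  intro h
  simp [δ]
  ring

/-- basis vectors -/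
def eb (j : Fin 4) : E4 := Pi.single j 1

section Main

variable (a : ℝ × P → ℝ) (F : ℝ × P → P)

def φ : E4 →L[ℝ] ℝ × P :=
  (ContinuousLinearMap.proj 0).prod (ContinuousLinearMap.pi fun i => ContinuousLinearMap.proj i.succ)

theorem φ_apply (y : E4) : φ y = (y 0, fun i => y i.succ) := rfl

def A (y : E4) : ℝ := a (φ y)

def G (y : E4) : P := F (φ y)

def X (j : Fin 4) (y : E4) : P := fderiv ℝ (G F) y (eb j)

def N : Fin 4 → E4 → ℝ
  | 0 => fun y => A a y * δ (X F 1 y) (X F 2 y) (X F 3 y)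
  | 1 => fun y => -(A a y * δ (X F 0 y) (X F 2 y) (X F 3 y))
  | 2 => fun y => A a y * δ (X F 0 y) (X F 1 y) (X F 3 y)
  | 3 => fun y => -(A a y * δ (X F 0 y) (X F 1 y) (X F 2 y))

variable {a F}

theorem contDiff_A (ha : ContDiff ℝ ∞ a) : ContDiff ℝ ∞ (A a) := ha.comp φ.contDiff

theorem contDiff_G (hF : ContDiff ℝ ∞ F) : ContDiff ℝ ∞ (G F) := hF.comp φ.contDiff

theorem contDiff_X (hF : ContDiff ℝ ∞ F) (j : Fin 4) : ContDiff ℝ ∞ (X F j) :=
  ((contDiff_G hF).fderiv_right (m := ∞) (by simp)).clm_apply contDiff_const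

theorem contDiff_δ {U V W : E4 → P} (hU : ContDiff ℝ ∞ U) (hV : ContDiff ℝ ∞ V)
    (hW : ContDiff ℝ ∞ W) : ContDiff ℝ ∞ (fun y => δ (U y) (V y) (W y)) := by
  have u := contDiff_pi.1 hU
  have v := contDiff_pi.1 hV
  have w := contDiff_pi.1 hW
  unfold δ
  exact (((u 0).mul (((v 1).mul (w 2)).sub ((v 2).mul (w 1)))).sub
    ((u 1).mul (((v 0).mul (w 2)).sub ((v 2).mul (w 0))))).add
      ((u 2).mul (((v 0).mul (w 1)).sub ((v 1).mul (w 0))))

theorem contDiff_N (ha : ContDiff ℝ ∞ a) (hF : ContDiff ℝ ∞ F) (j : Fin 4) :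
    ContDiff ℝ ∞ (N a F j) := by
  have h := contDiff_A ha
  have x := contDiff_X hF
  fin_cases j
  · exact h.mul (contDiff_δ (x 1) (x 2) (x 3))
  · exact (h.mul (contDiff_δ (x 0) (x 2) (x 3))).neg
  · exact h.mul (contDiff_δ (x 0) (x 1) (x 3))
  · exact (h.mul (contDiff_δ (x 0) (x 1) (x 2))).neg

theorem fderiv_X (hF : ContDiff ℝ ∞ F) (j k : Fin 4) (y : E4) :
    fderiv ℝ (X F j) y (eb k) = fderiv ℝ (fderiv ℝ (G F)) y (eb k) (eb j) := by
  have h1 : DifferentiableAt ℝ (fderiv ℝ (G F)) y :=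
    ((contDiff_G hF).fderiv_right (m := ∞) (by simp)).differentiable (by simp) y
  have h2 : HasFDerivAt (X F j)
      ((ContinuousLinearMap.apply ℝ P (eb j)).comp (fderiv ℝ (fderiv ℝ (G F)) y)) y :=
    (ContinuousLinearMap.apply ℝ P (eb j)).hasFDerivAt.comp y h1.hasFDerivAt
  rw [h2.fderiv]
  rfl

theorem symm_X (hF : ContDiff ℝ ∞ F) (j k : Fin 4) (y : E4) :
    fderiv ℝ (X F j) y (eb k) = fderiv ℝ (X F k) y (eb j) := by
  rw [fderiv_X hF, fderiv_X hF]
  have := ((contDiff_G hF).contDiffAt (x := y)).isSymmSndFDerivAt (by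
    simp only [minSmoothness_of_isRCLikeNormedField]
    exact WithTop.coe_le_coe.mpr (le_top : (2 : ℕ∞) ≤ ⊤))
  exact this (eb k) (eb j)

theorem dA (hda : ∀ q, ∃ L : P →L[ℝ] ℝ, fderiv ℝ a q = L.comp (fderiv ℝ F q))
    (ha : ContDiff ℝ ∞ a) (hF : ContDiff ℝ ∞ F) (y : E4) :
    ∃ l : Fin 3 → ℝ, ∀ j, fderiv ℝ (A a) y (eb j) =
      l 0 * X F j y 0 + l 1 * X F j y 1 + l 2 * X F j y 2 := by
  obtain ⟨L, hL⟩ := hda (φ y)
  refine ⟨fun i => L (Pi.single i 1), fun j => ?_⟩
  have h1 : fderiv ℝ (A a) y = (fderiv ℝ a (φ y)).comp φ := by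
    have := (ha.differentiable (by simp) (φ y)).hasFDerivAt.comp y φ.hasFDerivAt
    exact this.fderiv
  have h2 : fderiv ℝ (G F) y = (fderiv ℝ F (φ y)).comp φ := by
    have := (hF.differentiable (by simp) (φ y)).hasFDerivAt.comp y φ.hasFDerivAt
    exact this.fderiv
  have h3 : fderiv ℝ (A a) y (eb j) = L (X F j y) := by
    rw [h1, hL, X, h2]
    rfl
  rw [h3]
  have h4 : X F j y = X F j y 0 • Pi.single 0 1 + X F j y 1 • Pi.single 1 1 +
      X F j y 2 • Pi.single 2 1 := by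
    funext i
    fin_cases i <;> simp
  conv_lhs => rw [h4]
  simp only [map_add, map_smul, smul_eq_mul]
  ring

theorem div_zero (ha : ContDiff ℝ ∞ a) (hF : ContDiff ℝ ∞ F)
    (hda : ∀ q, ∃ L : P →L[ℝ] ℝ, fderiv ℝ a q = L.comp (fderiv ℝ F q)) (y : E4) :
    ∑ j, fderiv ℝ (N a F j) y (eb j) = 0 := by
  have dX : ∀ j, HasFDerivAt (X F j) (fderiv ℝ (X F j) y) y := fun j =>
    ((contDiff_X hF j).differentiable (by simp) y).hasFDerivAt
  have dA' : HasFDerivAt (A a) (fderiv ℝ (A a) y) y :=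
    ((contDiff_A ha).differentiable (by simp) y).hasFDerivAt
  obtain ⟨L0, h0, g0⟩ := hasFDerivAt_N dA' (dX 1) (dX 2) (dX 3)
  obtain ⟨L1, h1, g1⟩ := hasFDerivAt_N dA' (dX 0) (dX 2) (dX 3)
  obtain ⟨L2, h2, g2⟩ := hasFDerivAt_N dA' (dX 0) (dX 1) (dX 3)
  obtain ⟨L3, h3, g3⟩ := hasFDerivAt_N dA' (dX 0) (dX 1) (dX 2)
  have e0 : fderiv ℝ (N a F 0) y = L0 := h0.fderiv
  have e1 : fderiv ℝ (N a F 1) y = -L1 := h1.neg.fderiv
  have e2 : fderiv ℝ (N a F 2) y = L2 := h2.fderiv
  have e3 : fderiv ℝ (N a F 3) y = -L3 := h3.neg.fderiv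
  obtain ⟨l, hl⟩ := dA hda ha hF y
  rw [Fin.sum_univ_four, e0, e1, e2, e3]
  simp only [neg_apply]
  rw [g0, g1, g2, g3, hl, hl, hl, hl, symm_X hF 1 0, symm_X hF 2 0, symm_X hF 3 0,
    symm_X hF 2 1, symm_X hF 3 1, symm_X hF 3 2]
  simp only [δ]
  ring

/-- the upper corner -/
def bb : E4 := ![1, 1, 1, 2]

theorem faces (ha : ContDiff ℝ ∞ a) (hF : ContDiff ℝ ∞ F)
    (hda : ∀ q, ∃ L : P →L[ℝ] ℝ, fderiv ℝ a q = L.comp (fderiv ℝ F q)) :
    ∑ i : Fin 4, ((∫ x in Icc ((0 : E4) ∘ i.succAbove) (bb ∘ i.succAbove),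
      N a F i (i.insertNth (bb i) x)) -
      ∫ x in Icc ((0 : E4) ∘ i.succAbove) (bb ∘ i.succAbove),
        N a F i (i.insertNth ((0 : E4) i) x)) = 0 := by
  have hle : (0 : E4) ≤ bb := by
    intro i
    fin_cases i <;> simp [bb]
  have hz : ∀ x : E4, ∑ i, fderiv ℝ (N a F i) x (Pi.single i 1) = 0 := fun x =>
    div_zero ha hF hda x
  have := integral_divergence_of_hasFDerivAt_off_countable' (n := 3) (0 : E4) bb hle
    (N a F) (fun i => fderiv ℝ (N a F i)) ∅ countable_empty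
    (fun i => (contDiff_N ha hF i).continuous.continuousOn)
    (fun x _ i => ((contDiff_N ha hF i).differentiable (by simp) x).hasFDerivAt)
    (by simp only [hz]; exact integrableOn_zero)
  rw [← this]
  simp only [hz]
  simp

theorem N_periodic {v : E4} (hA : ∀ y, A a (y + v) = A a y) (hG : ∀ y, G F (y + v) = G F y)
    (j : Fin 4) (y : E4) : N a F j (y + v) = N a F j y := by
  have hX : ∀ j, X F j (y + v) = X F j y := by
    intro j
    unfold X
    rw [← fderiv_comp_add_right]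
    simp only [hG]
  fin_cases j <;> simp [N, hA, hX]

/-- the linear part of the gluing map -/
def SL : E4 →L[ℝ] E4 := ContinuousLinearMap.pi
  ![ContinuousLinearMap.proj 0,
    (5 : ℝ) • ContinuousLinearMap.proj 1 + (3 : ℝ) • ContinuousLinearMap.proj 2,
    (3 : ℝ) • ContinuousLinearMap.proj 1 + (2 : ℝ) • ContinuousLinearMap.proj 2,
    ContinuousLinearMap.proj 3]

def c3 : E4 := ![0, 0, 0, 2]

theorem SL0 : SL (eb 0) = eb 0 := by
  funext i
  fin_cases i <;> simp [SL, eb]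

theorem SL1 : SL (eb 1) = (5 : ℝ) • eb 1 + (3 : ℝ) • eb 2 := by
  funext i
  fin_cases i <;> simp [SL, eb]

theorem SL2 : SL (eb 2) = (3 : ℝ) • eb 1 + (2 : ℝ) • eb 2 := by
  funext i
  fin_cases i <;> simp [SL, eb]

theorem N3_S (hF : ContDiff ℝ ∞ F) (hA : ∀ y, A a (SL y + c3) = A a y)
    (hG : ∀ y, G F (SL y + c3) = G F y) (y : E4) : N a F 3 (SL y + c3) = N a F 3 y := by
  have h1 : fderiv ℝ (G F) y = (fderiv ℝ (G F) (SL y + c3)).comp SL := by
    have h2 : HasFDerivAt (fun y => G F (SL y + c3)) ((fderiv ℝ (G F) (SL y + c3)).comp SL) y :=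
      HasFDerivAt.comp (g := G F) (f := fun y => SL y + c3) y
        (((contDiff_G hF).differentiable (by simp) (SL y + c3)).hasFDerivAt)
        (SL.hasFDerivAt.add_const c3)
    simp only [hG] at h2
    exact h2.fderiv
  have x0 : X F 0 y = X F 0 (SL y + c3) := by
    unfold X
    rw [h1, ContinuousLinearMap.comp_apply, SL0]
  have x1 : X F 1 y = (5 : ℝ) • X F 1 (SL y + c3) + (3 : ℝ) • X F 2 (SL y + c3) := by
    unfold X
    rw [h1, ContinuousLinearMap.comp_apply, SL1, map_add, map_smul, map_smul]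
  have x2 : X F 2 y = (3 : ℝ) • X F 1 (SL y + c3) + (2 : ℝ) • X F 2 (SL y + c3) := by
    unfold X
    rw [h1, ContinuousLinearMap.comp_apply, SL2, map_add, map_smul, map_smul]
  simp only [N]
  rw [x0, x1, x2, hA]
  simp only [δ, Pi.add_apply, Pi.smul_apply, smul_eq_mul]
  ring

theorem face0 (hF : ContDiff ℝ ∞ F) (κ : ℝ) (x : P) :
    N a F 0 (Fin.insertNth (0 : Fin 4) κ x) = a (κ, x) * (fderiv ℝ (fun y => F (κ, y)) x).det := by
  have h0 : φ (Fin.insertNth (0 : Fin 4) κ x) = (κ, x) := by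
    rw [φ_apply]
    refine Prod.ext ?_ ?_
    · simp
    · funext i
      simp
  have h1 : ∀ j : Fin 3, φ (eb j.succ) = (0, Pi.single j 1) := by
    intro j
    rw [φ_apply]
    refine Prod.ext ?_ ?_
    · simp [eb]
    · funext i
      fin_cases j <;> fin_cases i <;> simp [eb]
  have h2 : fderiv ℝ (G F) (Fin.insertNth (0 : Fin 4) κ x) = (fderiv ℝ F (κ, x)).comp φ := by
    have := (hF.differentiable (by simp)
      (φ (Fin.insertNth (0 : Fin 4) κ x))).hasFDerivAt.comp _ φ.hasFDerivAt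
    rw [h0] at this
    exact this.fderiv
  have h3 : fderiv ℝ (fun y => F (κ, y)) x = (fderiv ℝ F (κ, x)).comp
      (ContinuousLinearMap.inr ℝ ℝ P) := by
    have := (hF.differentiable (by simp) (κ, x)).hasFDerivAt.comp x
      (hasFDerivAt_prodMk_right κ x)
    exact this.fderiv
  have h4 : ∀ j : Fin 3, X F j.succ (Fin.insertNth (0 : Fin 4) κ x) =
      fderiv ℝ (fun y => F (κ, y)) x (Pi.single j 1) := by
    intro j
    rw [X, h2, h3, ContinuousLinearMap.comp_apply, h1]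
    rfl
  have h5 : (fderiv ℝ (fun y => F (κ, y)) x).det =
      (LinearMap.toMatrix' (fderiv ℝ (fun y => F (κ, y)) x : P →ₗ[ℝ] P)).det := by
    rw [LinearMap.det_toMatrix']
  rw [h5, Matrix.det_fin_three]
  simp only [LinearMap.toMatrix'_apply]
  have e1 := h4 0
  have e2 := h4 1
  have e3 := h4 2
  rw [show (0 : Fin 3).succ = (1 : Fin 4) from rfl] at e1
  rw [show (1 : Fin 3).succ = (2 : Fin 4) from rfl] at e2
  rw [show (2 : Fin 3).succ = (3 : Fin 4) from rfl] at e3
  simp only [N]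
  rw [e1, e2, e3, A, h0]
  simp only [δ, ContinuousLinearMap.coe_coe]
  ring

end Main

theorem ins3 (t : ℝ) (x : P) : ((3 : Fin 4).insertNth t x : E4) = ![x 0, x 1, x 2, t] := by
  funext j
  fin_cases j <;> rfl

theorem insertNth_add (i : Fin 4) (t : ℝ) (x : P) :
    (i.insertNth (t + 1) x : E4) = i.insertNth t x + Pi.single i 1 := by
  funext j
  refine i.succAboveCases ?_ (fun j => ?_) j
  · simp
  · simp

theorem main : Pool.Agent.W630.S_G := by
  intro a F ha hF h0 h1 hT hda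
  have P1 : ∀ (j : Fin 4) (y : E4), N a F j (y + Pi.single 1 1) = N a F j y := by
    have e : ∀ y : E4, φ (y + Pi.single 1 1) = ((φ y).1, (φ y).2 + e₀) := by
      intro y
      rw [φ_apply, φ_apply]
      refine Prod.ext ?_ ?_
      · simp
      · funext i
        fin_cases i <;> simp [e₀]
    refine N_periodic (fun y => ?_) (fun y => ?_)
    · rw [A, e, (h0 _ _).1]
      rfl
    · rw [G, e, (h0 _ _).2]
      rfl
  have P2 : ∀ (j : Fin 4) (y : E4), N a F j (y + Pi.single 2 1) = N a F j y := by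
    have e : ∀ y : E4, φ (y + Pi.single 2 1) = ((φ y).1, (φ y).2 + e₁) := by
      intro y
      rw [φ_apply, φ_apply]
      refine Prod.ext ?_ ?_
      · simp
      · funext i
        fin_cases i <;> simp [e₁]
    refine N_periodic (fun y => ?_) (fun y => ?_)
    · rw [A, e, (h1 _ _).1]
      rfl
    · rw [G, e, (h1 _ _).2]
      rfl
  have P3 : ∀ y : E4, N a F 3 (SL y + c3) = N a F 3 y := by
    have e : ∀ y : E4, φ (SL y + c3) = ((φ y).1, T₂ (φ y).2) := by
      intro y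
      rw [φ_apply, φ_apply]
      refine Prod.ext ?_ ?_
      · simp [SL, c3]
      · funext i
        fin_cases i <;> simp [SL, c3, T₂]
    refine N3_S hF (fun y => ?_) (fun y => ?_)
    · rw [A, e, (hT _ _).1]
      rfl
    · rw [G, e, (hT _ _).2]
      rfl
  have hf := faces ha hF hda
  rw [Fin.sum_univ_four] at hf
  have z : ∀ i : Fin 4, (0 : E4) i = 0 := fun _ => rfl
  have f1 : ∀ x : P, N a F 1 ((1 : Fin 4).insertNth (bb 1) x) =
      N a F 1 ((1 : Fin 4).insertNth ((0 : E4) 1) x) := by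
    intro x
    have : bb 1 = 0 + 1 := by simp [bb]
    rw [this, insertNth_add, P1, z]
  have f2 : ∀ x : P, N a F 2 ((2 : Fin 4).insertNth (bb 2) x) =
      N a F 2 ((2 : Fin 4).insertNth ((0 : E4) 2) x) := by
    intro x
    have : bb 2 = 0 + 1 := by simp [bb]
    rw [this, insertNth_add, P2, z]
  have f3 : ∫ x in Icc ((0 : E4) ∘ (3 : Fin 4).succAbove) (bb ∘ (3 : Fin 4).succAbove),
      N a F 3 ((3 : Fin 4).insertNth (bb 3) x) =
      ∫ x in Icc ((0 : E4) ∘ (3 : Fin 4).succAbove) (bb ∘ (3 : Fin 4).succAbove),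
        N a F 3 ((3 : Fin 4).insertNth ((0 : E4) 3) x) := by
    have c1 : ((0 : E4) ∘ (3 : Fin 4).succAbove) = (0 : P) := rfl
    have c2 : (bb ∘ (3 : Fin 4).succAbove) = (1 : P) := by
      funext i
      fin_cases i <;> rfl
    rw [c1, c2]
    have q : Q (fun x : P => N a F 3 ((3 : Fin 4).insertNth (bb 3) x)) := by
      refine ⟨?_, ?_, ?_⟩
      · exact (contDiff_N ha hF 3).continuous.comp
          (Continuous.finInsertNth 3 continuous_const continuous_id)
      · intro x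
        have : ((3 : Fin 4).insertNth (bb 3) (x + Pi.single 1 1) : E4) =
            (3 : Fin 4).insertNth (bb 3) x + Pi.single 1 1 := by
          rw [ins3, ins3]
          funext j
          fin_cases j <;> simp
        simp only [this, P1]
      · intro x
        have : ((3 : Fin 4).insertNth (bb 3) (x + Pi.single 2 1) : E4) =
            (3 : Fin 4).insertNth (bb 3) x + Pi.single 2 1 := by
          rw [ins3, ins3]
          funext j
          fin_cases j <;> simp
        simp only [this, P2]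
    rw [← integral_M q]
    refine integral_congr_ae (Filter.Eventually.of_forall fun x => ?_)
    have : ((3 : Fin 4).insertNth (bb 3) (M x) : E4) =
        SL ((3 : Fin 4).insertNth ((0 : E4) 3) x) + c3 := by
      rw [ins3, ins3]
      funext j
      fin_cases j <;> simp [SL, c3, M, bb]
    simp only [this, P3]
  have f0 : ∀ κ : ℝ, ∫ x in Icc ((0 : E4) ∘ (0 : Fin 4).succAbove) (bb ∘ (0 : Fin 4).succAbove),
      N a F 0 ((0 : Fin 4).insertNth κ x) =
      ∫ x in Icc (0 : P) ![1, 1, 2], a (κ, x) * (fderiv ℝ (fun y => F (κ, y)) x).det := by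
    intro κ
    have c1 : ((0 : E4) ∘ (0 : Fin 4).succAbove) = (0 : P) := rfl
    have c2 : (bb ∘ (0 : Fin 4).succAbove) = (![1, 1, 2] : P) := by
      funext i
      fin_cases i <;> rfl
    rw [c1, c2]
    simp only [face0 hF]
  rw [f3] at hf
  simp only [f1, f2, sub_self, add_zero] at hf
  have b0 : bb 0 = 1 := rfl
  rw [b0, z, f0, f0] at hf
  linarith

end Pool.Agent.W85.LefG
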