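import Pool.Agent.W757.QR.St
import Pool.Agent.H713R5.QJ.TINJ

/-!
# A quadratic differential invariant under push-forward vanishes (rational maps with a trap)
-/

set_option autoImplicit false

open Topology Filter Metric Set Polynomial MeasureTheory

namespace Pool.Agent.W85.RQINJ

open Pool.Agent.W757.QR
open Pool.Agent.H713R5.QJ.INJ (exists_lower exists_upper vol_annulus biUnion_le small)

lemma qd_eq (Z : Finset ℂ) (a b : ℂ → ℂ) : qd Z a b = Pool.Agent.H713R5.QJ.qd Z a b := rfl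

lemma fr_differentiableOn (P Q : ℂ[X]) : DifferentiableOn ℂ (fr P Q) {z : ℂ | Q.eval z ≠ 0} := by
  unfold fr
  exact P.differentiable.differentiableOn.div Q.differentiable.differentiableOn fun z hz => hz

lemma isOpen_ne (Q : ℂ[X]) : IsOpen {z : ℂ | Q.eval z ≠ 0} :=
  isOpen_ne_fun Q.continuous continuous_const

lemma hasDerivAt_fr (P Q : ℂ[X]) (z : ℂ) (hz : Q.eval z ≠ 0) :
    HasDerivAt (fr P Q) (d1 P Q z) z := by
  have := (P.hasDerivAt z).div (Q.hasDerivAt z) hz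
  refine this.congr_deriv ?_
  simp only [d1, wn, eval_sub, eval_mul]

lemma fr_continuousAt (P Q : ℂ[X]) (z : ℂ) (hz : Q.eval z ≠ 0) : ContinuousAt (fr P Q) z :=
  (hasDerivAt_fr P Q z hz).continuousAt

/-- Taylor estimate of second order -/
lemma taylor2 (P Q : ℂ[X]) (z : ℂ) (hz : Q.eval z ≠ 0) :
    ∃ ρ L : ℝ, 0 < ρ ∧ 0 ≤ L ∧ ∀ ζ : ℂ, ‖ζ - z‖ ≤ ρ →
      ‖fr P Q ζ - fr P Q z‖ ≤ ‖d1 P Q z‖ * ‖ζ - z‖ + L * ‖ζ - z‖ ^ 2 := by
  have hn : {z : ℂ | Q.eval z ≠ 0} ∈ 𝓝 z := (isOpen_ne Q).mem_nhds hz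
  have h1 : DifferentiableOn ℂ (dslope (fr P Q) z) {z : ℂ | Q.eval z ≠ 0} :=
    (Complex.differentiableOn_dslope hn).2 (fr_differentiableOn P Q)
  have h2 : DifferentiableAt ℂ (dslope (fr P Q) z) z := h1.differentiableAt hn
  have h3 := h2.hasFDerivAt.isBigO_sub
  obtain ⟨C, hC0, hC⟩ := h3.exists_pos
  rw [Asymptotics.isBigOWith_iff] at hC
  obtain ⟨ρ, hρ0, hρ⟩ := Metric.eventually_nhds_iff_ball.1 hC
  refine ⟨ρ / 2, C, by positivity, hC0.le, fun ζ hζ => ?_⟩
  have h4 := hρ ζ (by rw [mem_ball, dist_eq_norm]; linarith)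
  have h5 : fr P Q ζ - fr P Q z = (ζ - z) * dslope (fr P Q) z ζ := by
    have := sub_smul_dslope (fr P Q) z ζ
    rw [smul_eq_mul] at this
    exact this.symm
  have h6 : dslope (fr P Q) z z = d1 P Q z := by
    rw [dslope_same, (hasDerivAt_fr P Q z hz).deriv]
  rw [h6] at h4
  rw [h5, norm_mul]
  have h7 : ‖dslope (fr P Q) z ζ‖ ≤ ‖d1 P Q z‖ + C * ‖ζ - z‖ := by
    have := norm_add_le (dslope (fr P Q) z ζ - d1 P Q z) (d1 P Q z)
    rw [sub_add_cancel] at this
    linarith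
  have := mul_le_mul_of_nonneg_left h7 (norm_nonneg (ζ - z))
  nlinarith

lemma wn_ne_zero {d : ℕ} {P Q : ℂ[X]} (h : RM d P Q) : wn P Q ≠ 0 := by
  obtain ⟨hd, hco, hmax⟩ := h
  intro h0
  have h1 : derivative P * Q = P * derivative Q := sub_eq_zero.1 h0
  have key : ∀ R : ℂ[X], R ∣ derivative R → R.natDegree = 0 := by
    intro R hR
    by_contra hne
    have hpos : 0 < R.natDegree := Nat.pos_of_ne_zero hne
    have hR0 : R ≠ 0 := by
      rintro rfl
      simp at hne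
    have h2 : derivative R = 0 :=
      Polynomial.eq_zero_of_dvd_of_degree_lt hR (degree_derivative_lt hR0)
    have h3 := derivative_eq_zero.1 h2
    omega
  have hP : P.natDegree = 0 := by
    refine key P (hco.dvd_of_dvd_mul_right ?_)
    rw [h1]
    exact dvd_mul_right _ _
  have hQ : Q.natDegree = 0 := by
    refine key Q (hco.symm.dvd_of_dvd_mul_left ?_)
    rw [← h1]
    exact dvd_mul_left _ _
  omega

lemma coprime_ne {P Q : ℂ[X]} (h : IsCoprime P Q) (z : ℂ) (hP : P.eval z = 0) (hQ : Q.eval z = 0) :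
    False := by
  obtain ⟨u, v, huv⟩ := h
  have := congrArg (fun R : ℂ[X] => R.eval z) huv
  simp [hP, hQ] at this

lemma mem_pre {P Q : ℂ[X]} {w ζ : ℂ} (h : ζ ∈ pre P Q w) : P.eval ζ = w * Q.eval ζ := by
  simp only [pre, Multiset.mem_toFinset, mem_roots', IsRoot.def, eval_sub, eval_mul, eval_C] at h
  exact sub_eq_zero.1 h.2

/-- all but finitely many values are generic -/
lemma gv_finite {d : ℕ} {P Q : ℂ[X]} (h : RM d P Q) : {w : ℂ | ¬ Gv d P Q w}.Finite := by
  have hw := wn_ne_zero h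
  obtain ⟨hd, hco, hmax⟩ := h
  refine (((finite_singleton (P.coeff d / Q.coeff d))).union
    ((wn P Q).roots.toFinset.finite_toSet.image fun ζ => fr P Q ζ)).subset ?_
  intro w hw'
  have hdeg : (P - C w * Q).natDegree ≤ d := by
    refine (natDegree_sub_le _ _).trans (max_le ?_ ((natDegree_C_mul_le _ _).trans ?_))
    · rw [← hmax]; exact le_max_left _ _
    · rw [← hmax]; exact le_max_right _ _
  have hw2 : (P - C w * Q).natDegree ≠ d ∨ ¬ ∀ ζ ∈ pre P Q w, (wn P Q).eval ζ ≠ 0 := by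
    by_contra hcon
    push Not at hcon
    exact hw' ⟨hcon.1, hcon.2⟩
  rcases hw2 with h1 | h1
  · left
    have h2 : (P - C w * Q).coeff d = 0 := coeff_eq_zero_of_natDegree_lt (lt_of_le_of_ne hdeg h1)
    rw [coeff_sub, coeff_C_mul] at h2
    have h3 : Q.coeff d ≠ 0 := by
      intro h3
      rw [h3, mul_zero, sub_zero] at h2
      rcases max_choice P.natDegree Q.natDegree with h4 | h4
      · have h5 : P.natDegree = d := by omega
        rw [← h5] at h2
        have : P = 0 := leadingCoeff_eq_zero.1 h2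
        rw [this] at h5
        simp at h5
        omega
      · have h5 : Q.natDegree = d := by omega
        rw [← h5] at h3
        have : Q = 0 := leadingCoeff_eq_zero.1 h3
        rw [this] at h5
        simp at h5
        omega
    rw [mem_singleton_iff, eq_div_iff h3]
    linear_combination -h2
  · right
    push Not at h1
    obtain ⟨ζ, h2, h3⟩ := h1
    refine ⟨ζ, ?_, ?_⟩
    · simp [hw, h3]
    · have h4 := mem_pre h2
      have h5 : Q.eval ζ ≠ 0 := by
        intro h5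
        rw [h5, mul_zero] at h4
        exact coprime_ne hco ζ h4 h5
      show fr P Q ζ = w
      rw [fr, div_eq_iff h5, h4]

/-- push-forward does not increase the mass -/
lemma mass_le (hAF : StAF) {d : ℕ} (P Q : ℂ[X]) (Z : Finset ℂ) (a b : ℂ → ℂ) (hT : RM d P Q)
    (hinv : ∀ y : ℂ, y ∉ Z → Gv d P Q y →
      ∑ ζ ∈ pre P Q y, qd Z a b ζ / d1 P Q ζ ^ 2 = qd Z a b y)
    (E : Set ℂ) (hE : MeasurableSet E) :
    ∫⁻ w in E, ENNReal.ofReal ‖qd Z a b w‖ ≤
      ∫⁻ z in {z : ℂ | Q.eval z ≠ 0 ∧ fr P Q z ∈ E}, ENNReal.ofReal ‖qd Z a b z‖ := by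
  classical
  have hqm : Measurable (qd Z a b) := Pool.Agent.H713R5.QJ.INJ.qd_measurable Z a b
  have hdm : Measurable fun z : ℂ => d1 P Q z := by
    unfold d1
    exact (wn P Q).continuous.measurable.div (Q.continuous.measurable.pow_const 2)
  have hgm : Measurable fun z : ℂ => ENNReal.ofReal (‖qd Z a b z‖ / ‖d1 P Q z‖ ^ 2) := by
    fun_prop
  have hae : ∀ᵐ w : ℂ, w ∉ Z ∧ Gv d P Q w := by
    rw [ae_iff]
    have : {w : ℂ | ¬ (w ∉ Z ∧ Gv d P Q w)} ⊆ (Z : Set ℂ) ∪ {w : ℂ | ¬ Gv d P Q w} := by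
      intro w hw
      simp only [mem_ofPred_eq, not_and_or, not_not] at hw
      exact hw
    exact ((Z.finite_toSet.union (gv_finite hT)).subset this).measure_zero _
  have h1 : ∫⁻ w in E, ENNReal.ofReal ‖qd Z a b w‖ ≤
      ∫⁻ w in E, ∑ ζ ∈ pre P Q w,
        ENNReal.ofReal (‖qd Z a b ζ‖ / ‖d1 P Q ζ‖ ^ 2) := by
    refine lintegral_mono_ae (ae_restrict_of_ae ?_)
    filter_upwards [hae] with w hw
    rw [← hinv w hw.1 hw.2, ← ENNReal.ofReal_sum_of_nonneg (fun _ _ => by positivity)]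
    refine ENNReal.ofReal_le_ofReal ((norm_sum_le _ _).trans (le_of_eq ?_))
    refine Finset.sum_congr rfl fun ζ _ => ?_
    rw [norm_div, norm_pow]
  refine h1.trans ?_
  rw [hAF d P Q _ E hT hgm hE]
  refine lintegral_mono fun z => ?_
  rw [← ENNReal.ofReal_mul (by positivity)]
  refine ENNReal.ofReal_le_ofReal ?_
  by_cases h0 : ‖d1 P Q z‖ ^ 2 = 0
  · rw [h0]; simp
  · rw [div_mul_cancel₀ _ h0]

/-- the set of points mapped to `K` -/
def LL (P Q : ℂ[X]) (K : Set ℂ) : Set ℂ := {z : ℂ | Q.eval z ≠ 0 ∧ fr P Q z ∈ K}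

lemma LL_compact {P Q : ℂ[X]} {K : Set ℂ} (hco : IsCoprime P Q) (hK : Trap P Q K) :
    IsCompact (LL P Q K) := by
  have h1 : IsClosed {p : ℂ × ℂ | P.eval p.1 - p.2 * Q.eval p.1 = 0} := by
    refine isClosed_eq ?_ continuous_const
    exact (P.continuous.comp continuous_fst).sub
      (continuous_snd.mul (Q.continuous.comp continuous_fst))
  have h2 : IsCompact ((K ×ˢ K) ∩ {p : ℂ × ℂ | P.eval p.1 - p.2 * Q.eval p.1 = 0}) :=
    (hK.1.prod hK.1).inter_right h1
  have h3 : LL P Q K = Prod.fst '' ((K ×ˢ K) ∩ {p : ℂ × ℂ | P.eval p.1 - p.2 * Q.eval p.1 = 0}) := by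
    ext z
    constructor
    · rintro ⟨hz1, hz2⟩
      refine ⟨(z, fr P Q z), ⟨⟨interior_subset (hK.2 z hz1 hz2), hz2⟩, ?_⟩, rfl⟩
      show P.eval z - fr P Q z * Q.eval z = 0
      rw [fr, div_mul_cancel₀ _ hz1, sub_self]
    · rintro ⟨⟨z', w⟩, ⟨⟨hz1, hw⟩, h⟩, rfl⟩
      have h : P.eval z' - w * Q.eval z' = 0 := h
      have hQ : Q.eval z' ≠ 0 := by
        intro h0
        rw [h0, mul_zero, sub_zero] at h
        exact coprime_ne hco z' h h0
      refine ⟨hQ, ?_⟩
      show fr P Q z' ∈ K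
      have : fr P Q z' = w := by
        rw [fr, div_eq_iff hQ]
        exact sub_eq_zero.1 h
      rw [this]
      exact hw
  rw [h3]
  exact h2.image continuous_fst

theorem task : StINJ := by
  classical
  intro hAF N P Q Z K₀ a b wt hT hcyc htrap hZK hwt hinv
  obtain ⟨hc, hc2⟩ := hcyc
  rcases Z.eq_empty_or_nonempty with hZe | hZne
  · intro z hz
    rw [hZe] at hz
    simp at hz
  have hLc : IsCompact (LL P Q K₀) := LL_compact hT.2.1 htrap
  have hLi : LL P Q K₀ ⊆ interior K₀ := fun z hz => htrap.2 z hz.1 hz.2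
  have hZL : ∀ z ∈ Z, z ∈ LL P Q K₀ := fun z hz => ⟨(hc z hz).1, hZK _ (hc z hz).2.2⟩
  -- the points of `Z` are interior points of `LL`
  have hZi : ∀ z ∈ Z, ∃ e : ℝ, 0 < e ∧ closedBall z e ⊆ LL P Q K₀ := by
    intro z hz
    have h1 : ∀ᶠ ζ in 𝓝 z, Q.eval ζ ≠ 0 := (isOpen_ne Q).mem_nhds (hc z hz).1
    have h2 : ∀ᶠ ζ in 𝓝 z, fr P Q ζ ∈ interior K₀ :=
      (fr_continuousAt P Q z (hc z hz).1).eventually
        (isOpen_interior.mem_nhds (hLi (hZL _ (hc z hz).2.2)))
    obtain ⟨e, he0, he⟩ := Metric.nhds_basis_closedBall.mem_iff.1 (h1.and h2)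
    exact ⟨e, he0, fun ζ hζ => ⟨(he hζ).1, interior_subset (he hζ).2⟩⟩
  choose! e₁ he₁0 he₁ using hZi
  obtain ⟨c, hc0, hcc⟩ := exists_lower Z (fun z => wt z / 2) (fun z hz => by
    have := (hwt z hz).1; positivity)
  obtain ⟨c₁, hc₁0, hc₁⟩ := exists_lower Z e₁ (fun z hz => he₁0 z hz)
  obtain ⟨W, hW0, hW⟩ := exists_upper Z wt
  have htay : ∀ z : ℂ, ∃ ρ L : ℝ, z ∈ Z → 0 < ρ ∧ 0 ≤ L ∧ ∀ ζ : ℂ, ‖ζ - z‖ ≤ ρ →
      ‖fr P Q ζ - fr P Q z‖ ≤ ‖d1 P Q z‖ * ‖ζ - z‖ + L * ‖ζ - z‖ ^ 2 := by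
    intro z
    by_cases hz : z ∈ Z
    · obtain ⟨ρ, L, h1, h2, h3⟩ := taylor2 P Q z (hc z hz).1
      exact ⟨ρ, L, fun _ => ⟨h1, h2, h3⟩⟩
    · exact ⟨1, 0, fun h => absurd h hz⟩
  choose ρ' L' htay using htay
  obtain ⟨ρ, hρ0, hρ⟩ := exists_lower Z ρ' (fun z hz => (htay z hz).1)
  obtain ⟨L, hL0, hL⟩ := exists_upper Z L'
  obtain ⟨m, hm0, hm⟩ := exists_lower Z (fun z => ‖d1 P Q z‖)
    (fun z hz => norm_pos_iff.2 (div_ne_zero (hc z hz).2.1 (pow_ne_zero 2 (hc z hz).1)))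
  -- separation
  obtain ⟨d, hd0, hd⟩ : ∃ d : ℝ, 0 < d ∧ ∀ z ∈ Z, ∀ z' ∈ Z, z ≠ z' → d ≤ ‖z - z'‖ := by
    have h1 : ∀ z : ℂ, ∃ e : ℝ, 0 < e ∧ ∀ z' ∈ Z, z ≠ z' → e ≤ ‖z - z'‖ := by
      intro z
      obtain ⟨e, he0, he⟩ := exists_lower (Z.erase z) (fun z' => ‖z - z'‖) (fun z' hz' =>
        norm_pos_iff.2 (sub_ne_zero.2 (Finset.mem_erase.1 hz').1.symm))
      exact ⟨e, he0, fun z' hz' hne => he z' (Finset.mem_erase.2 ⟨hne.symm, hz'⟩)⟩
    choose e he0 he using h1
    obtain ⟨d, hd0, hd⟩ := exists_lower Z e (fun z _ => he0 z)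
    exact ⟨d, hd0, fun z hz z' hz' hne => (hd z hz).trans (he z z' hz' hne)⟩
  obtain ⟨K, hK0, hK⟩ : ∃ K : ℝ, 0 < K ∧ ∀ (ζ : ℂ) (s : ℝ), 0 < s → s ≤ 1 →
      (∀ z ∈ Z, s ≤ ‖ζ - z‖) → ‖qd Z a b ζ‖ ≤ K / s ^ 2 :=
    Pool.Agent.H713R5.QJ.INJ.qd_bound Z a b
  set C' : ℝ := L * W ^ 2 / m with hC'
  have hC'0 : 0 < C' := by positivity
  set φ : ℂ → ENNReal := fun ζ => ENNReal.ofReal ‖qd Z a b ζ‖ with hφ
  set A : Set ℂ := interior K₀ \ LL P Q K₀ with hA
  have hLm : MeasurableSet (LL P Q K₀) := hLc.isClosed.measurableSet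
  -- main estimate
  have hmain : ∀ᶠ r : ℝ in 𝓝[>] (0 : ℝ), ∫⁻ z in A, φ z ≤
      ENNReal.ofReal ((∑ _z ∈ Z, (K / c ^ 2 * (Real.pi * (2 * W * C')))) * r) := by
    filter_upwards [self_mem_nhdsWithin, small W ρ hρ0, small W c₁ hc₁0, small C' c hc0,
      small (W + c) d hd0, small c 1 one_pos] with r hr0 hr1 hr2 hr3 hr4 hr5
    have hr0 : 0 < r := hr0
    set U : Set ℂ := ⋃ z ∈ Z, closedBall z (r * wt z) with hU
    have hUm : MeasurableSet U := Z.measurableSet_biUnion fun _ _ => measurableSet_closedBall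
    have hrw : ∀ z ∈ Z, r * wt z ≤ W * r := fun z hz => by
      have := mul_le_mul_of_nonneg_left (hW z hz) hr0.le
      linarith
    have hUR : U ⊆ LL P Q K₀ := by
      intro ζ hζ
      simp only [hU, mem_iUnion, mem_closedBall, dist_eq_norm] at hζ
      obtain ⟨z, hz, hζ⟩ := hζ
      refine he₁ z hz ?_
      rw [mem_closedBall, dist_eq_norm]
      have h2 := hc₁ z hz
      have h3 := hrw z hz
      linarith
    -- annuli
    set An : ℂ → Set ℂ := fun z => closedBall z (r * wt z) \ ball z (r * wt z - C' * r ^ 2) with hAn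
    have hlow : ∀ z ∈ Z, r * c ≤ r * wt z - C' * r ^ 2 := by
      intro z hz
      have h1 := hcc z hz
      have h2 : C' * r * r ≤ c * r := mul_le_mul_of_nonneg_right hr3.le hr0.le
      nlinarith
    have hAnin : ∀ ζ ∈ U, fr P Q ζ ∉ U → ∃ z ∈ Z, ζ ∈ An z := by
      intro ζ hζ hTζ
      simp only [hU, mem_iUnion, exists_prop] at hζ
      obtain ⟨z, hz, hζ⟩ := hζ
      refine ⟨z, hz, hζ, ?_⟩
      rw [mem_closedBall, dist_eq_norm] at hζ
      have h1 : r * wt (fr P Q z) < ‖fr P Q ζ - fr P Q z‖ := by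
        by_contra hcon
        push Not at hcon
        apply hTζ
        simp only [hU, mem_iUnion, exists_prop]
        exact ⟨fr P Q z, (hc z hz).2.2, by rw [mem_closedBall, dist_eq_norm]; exact hcon⟩
      rw [(hwt z hz).2] at h1
      have h3 := hrw z hz
      have h2 := (htay z hz).2.2 ζ (by have := hρ z hz; linarith)
      have h4 : L' z * ‖ζ - z‖ ^ 2 ≤ L * (W * r) ^ 2 := by
        refine mul_le_mul (hL z hz) (pow_le_pow_left₀ (norm_nonneg _) (hζ.trans h3) 2)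
          (by positivity) hL0.le
      rw [mem_ball, dist_eq_norm, not_lt]
      have hmz := hm z hz
      set D := ‖d1 P Q z‖ with hD
      have hDpos : 0 < D := lt_of_lt_of_le hm0 hmz
      have h5 : D * (r * wt z - ‖ζ - z‖) < L * (W * r) ^ 2 := by
        nlinarith
      by_contra hcon
      push Not at hcon
      have h6 : C' * r ^ 2 < r * wt z - ‖ζ - z‖ := by linarith
      have h7 : m * (C' * r ^ 2) = L * (W * r) ^ 2 := by
        rw [hC']; field_simp
      have h8 : m * (C' * r ^ 2) ≤ D * (C' * r ^ 2) :=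
        mul_le_mul_of_nonneg_right hmz (by positivity)
      have h9 : D * (C' * r ^ 2) < D * (r * wt z - ‖ζ - z‖) := mul_lt_mul_of_pos_left h6 hDpos
      linarith
    -- integral over one annulus
    have hAnint : ∀ z ∈ Z, ∫⁻ ζ in An z, φ ζ ≤
        ENNReal.ofReal (K / c ^ 2 * (Real.pi * (2 * W * C')) * r) := by
      intro z hz
      have h1 : ∀ ζ ∈ An z, φ ζ ≤ ENNReal.ofReal (K / (r * c) ^ 2) := by
        intro ζ hζ
        refine ENNReal.ofReal_le_ofReal (hK ζ (r * c) (by positivity) (by linarith) ?_)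
        intro z' hz'
        obtain ⟨hζ1, hζ2⟩ := hζ
        rw [mem_ball, dist_eq_norm, not_lt] at hζ2
        rw [mem_closedBall, dist_eq_norm] at hζ1
        by_cases hzz : z = z'
        · rw [← hzz]; exact (hlow z hz).trans hζ2
        · have h2 := hd z hz z' hz' hzz
          have h3 : ‖z - z'‖ ≤ ‖ζ - z'‖ + ‖ζ - z‖ := by
            have := norm_sub_le (ζ - z') (ζ - z)
            simpa using this
          have h4 := hrw z hz
          linarith
      have h2 : ∫⁻ ζ in An z, φ ζ ≤ ∫⁻ _ζ in An z, ENNReal.ofReal (K / (r * c) ^ 2) :=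
        setLIntegral_mono measurable_const h1
      rw [setLIntegral_const] at h2
      refine h2.trans ?_
      have h3 := vol_annulus z (r * wt z - C' * r ^ 2) (r * wt z)
        (le_trans (by positivity) (hlow z hz)) (by nlinarith [sq_nonneg r])
      refine (mul_le_mul_right h3 _).trans ?_
      rw [← ENNReal.ofReal_mul (by positivity)]
      refine ENNReal.ofReal_le_ofReal ?_
      have h4 : (r * wt z) ^ 2 - (r * wt z - C' * r ^ 2) ^ 2 ≤ 2 * W * C' * r ^ 3 := by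
        have h5 := mul_le_mul_of_nonneg_left (hW z hz) (show 0 ≤ C' * r ^ 3 by positivity)
        nlinarith [sq_nonneg (C' * r ^ 2)]
      calc K / (r * c) ^ 2 * (Real.pi * ((r * wt z) ^ 2 - (r * wt z - C' * r ^ 2) ^ 2))
          ≤ K / (r * c) ^ 2 * (Real.pi * (2 * W * C' * r ^ 3)) := by
            gcongr
        _ = K / c ^ 2 * (Real.pi * (2 * W * C')) * r := by
            field_simp
    -- comparison
    have hmass := mass_le hAF P Q Z a b hT hinv (interior K₀ \ U)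
      (isOpen_interior.measurableSet.diff hUm)
    have hdisj : Disjoint A (LL P Q K₀ \ U) := by
      rw [Set.disjoint_left]
      rintro x ⟨_, hx⟩ ⟨hx', _⟩
      exact hx hx'
    have hsplit : interior K₀ \ U = A ∪ (LL P Q K₀ \ U) := by
      ext x
      have hxx : x ∈ LL P Q K₀ → x ∈ interior K₀ := fun h => hLi h
      have hUx : x ∈ U → x ∈ LL P Q K₀ := fun h => hUR h
      simp only [hA, Set.mem_sdiff, mem_union]
      tauto
    have hsub : {z : ℂ | Q.eval z ≠ 0 ∧ fr P Q z ∈ interior K₀ \ U} ⊆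
        (LL P Q K₀ \ U) ∪ ⋃ z ∈ Z, An z := by
      intro x hx
      obtain ⟨hx0, hx1, hx2⟩ := hx
      have hxR : x ∈ LL P Q K₀ := ⟨hx0, interior_subset hx1⟩
      by_cases hxU : x ∈ U
      · right
        obtain ⟨z, hz, hxz⟩ := hAnin x hxU hx2
        simp only [mem_iUnion, exists_prop]
        exact ⟨z, hz, hxz⟩
      · exact Or.inl ⟨hxR, hxU⟩
    have hfinite : ∫⁻ ζ in LL P Q K₀ \ U, φ ζ ≠ ⊤ := by
      have h1 : ∀ ζ ∈ LL P Q K₀ \ U, φ ζ ≤ ENNReal.ofReal (K / (r * c) ^ 2) := by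
        intro ζ hζ
        refine ENNReal.ofReal_le_ofReal (hK ζ (r * c) (by positivity) (by linarith) ?_)
        intro z' hz'
        by_contra hcon
        push Not at hcon
        apply hζ.2
        simp only [hU, mem_iUnion, exists_prop]
        refine ⟨z', hz', ?_⟩
        rw [mem_closedBall, dist_eq_norm]
        have h2 := hcc z' hz'
        have h3 : r * c ≤ r * wt z' := mul_le_mul_of_nonneg_left (by linarith) hr0.le
        linarith
      have h2 : ∫⁻ ζ in LL P Q K₀ \ U, φ ζ ≤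
          ∫⁻ _ζ in LL P Q K₀ \ U, ENNReal.ofReal (K / (r * c) ^ 2) :=
        setLIntegral_mono measurable_const h1
      rw [setLIntegral_const] at h2
      refine ne_top_of_le_ne_top ?_ h2
      refine ENNReal.mul_ne_top ENNReal.ofReal_ne_top ?_
      exact ne_top_of_le_ne_top hLc.measure_lt_top.ne (measure_mono sdiff_subset)
    rw [hsplit, lintegral_union (hLm.diff hUm) hdisj] at hmass
    rw [hsplit] at hsub
    have h1 : (∫⁻ z in A, φ z) + (∫⁻ z in LL P Q K₀ \ U, φ z) ≤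
        (∑ _z ∈ Z, ENNReal.ofReal (K / c ^ 2 * (Real.pi * (2 * W * C')) * r)) +
          (∫⁻ z in LL P Q K₀ \ U, φ z) := by
      refine hmass.trans ((lintegral_mono_set hsub).trans ((lintegral_union_le _ _ _).trans ?_))
      rw [add_comm]
      refine add_le_add_left ?_ _
      exact (biUnion_le Z An φ).trans (Finset.sum_le_sum hAnint)
    have h2 := (ENNReal.add_le_add_iff_right hfinite).1 h1
    refine h2.trans (le_of_eq ?_)
    rw [← ENNReal.ofReal_sum_of_nonneg (fun _ _ => by positivity), Finset.sum_mul]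
  -- the integral over the annulus vanishes
  have hzero : ∫⁻ z in A, φ z = 0 := by
    have h1 : Tendsto (fun r : ℝ =>
        ENNReal.ofReal ((∑ _z ∈ Z, (K / c ^ 2 * (Real.pi * (2 * W * C')))) * r))
        (𝓝[>] (0 : ℝ)) (𝓝 0) := by
      have h2 : Tendsto (fun r : ℝ => (∑ _z ∈ Z, (K / c ^ 2 * (Real.pi * (2 * W * C')))) * r)
          (𝓝[>] (0 : ℝ)) (𝓝 ((∑ _z ∈ Z, (K / c ^ 2 * (Real.pi * (2 * W * C')))) * 0)) :=
        ((continuous_const.mul continuous_id).tendsto 0).mono_left nhdsWithin_le_nhds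
      rw [mul_zero] at h2
      simpa using ENNReal.tendsto_ofReal h2
    exact le_antisymm (ge_of_tendsto h1 hmain) zero_le
  have hqm : Measurable (qd Z a b) := Pool.Agent.H713R5.QJ.INJ.qd_measurable Z a b
  have hφm : Measurable φ := by
    fun_prop
  have hAo : IsOpen A := isOpen_interior.sdiff hLc.isClosed
  have hAm : MeasurableSet A := hAo.measurableSet
  have hAne : A.Nonempty := by
    by_contra hcon
    rw [not_nonempty_iff_eq_empty, hA, sdiff_eq_empty] at hcon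
    have h1 : interior K₀ = LL P Q K₀ := subset_antisymm hcon hLi
    have h2 : IsClopen (interior K₀) := ⟨by rw [h1]; exact hLc.isClosed, isOpen_interior⟩
    obtain ⟨z, hz⟩ := hZne
    rcases isClopen_iff.1 h2 with h3 | h3
    · have := hLi (hZL z hz)
      rw [h3] at this
      exact this
    · have h4 : IsCompact (univ : Set ℂ) := by rw [← h3, h1]; exact hLc
      exact noncompact_univ ℂ h4
  have hae : ∀ᵐ z : ℂ, z ∈ A → qd Z a b z = 0 := by
    rw [lintegral_eq_zero_iff hφm] at hzero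
    have h2 := (ae_restrict_iff' hAm).1 hzero
    filter_upwards [h2] with z hz hzA
    have h3 := hz hzA
    simpa [hφ] using h3
  refine Pool.Agent.H713R5.QJ.INJ.qd_zero Z a b {z : ℂ | z ∈ A ∧ qd Z a b z = 0} ?_ ?_
  · intro hfin
    have h1 : volume {z : ℂ | z ∈ A ∧ qd Z a b z = 0} = 0 := hfin.measure_zero _
    have h2 : volume A ≤ volume {z : ℂ | z ∈ A ∧ qd Z a b z = 0} := by
      refine measure_mono_ae ?_
      filter_upwards [hae] with z hz hzA
      exact ⟨hzA, hz hzA⟩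
    have h4 : 0 < volume A := hAo.measure_pos volume hAne
    exact absurd (h2.trans h1.le) (not_le.2 h4)
  · rintro ζ ⟨hζA, hζ0⟩
    exact ⟨fun hζZ => hζA.2 (hZL ζ hζZ), hζ0⟩

end Pool.Agent.W85.RQINJ
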