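import Pool.Agent.W757.QR.St
import Pool.Agent.H713R5.QJ.TAPSb
import Pool.Agent.H790R3.RB.TPQ
import Pool.Agent.H790R3.RB.TSP
import Pool.Agent.W85.RQINJ

/-!
# Points of Siegel discs and of their preimages become attracted (rational maps)
-/

set_option autoImplicit false

open Topology Filter Metric Set Polynomial MeasureTheory
open scoped OnePoint
open Pool.Agent.H790R3.RB (CV hF cr ND wr rt sp pr hc pol Sink Attd HypTop StSP StPQ)

namespace Pool.Agent.W85.RQAPS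

open Pool.Agent.W757.QR Pool.Agent.H713R5.QJ.APS

variable {d : ℕ}

lemma pol_eval (x : CV d) (i : Fin 2) (u : ℂ) :
    (pol x i).eval u = ∑ j : Fin (d + 1), x (i, j) * u ^ (j : ℕ) := by
  simp [pol, eval_finsetSum]

lemma pol_close (x x' : CV d) (i : Fin 2) {R : ℝ} (hR : 1 ≤ R) {u : ℂ} (hu : ‖u‖ ≤ R) :
    ‖(pol x' i).eval u - (pol x i).eval u‖ ≤ (d + 1) * R ^ d * ‖x' - x‖ := by
  rw [pol_eval, pol_eval, ← Finset.sum_sub_distrib]
  refine (norm_sum_le _ _).trans ?_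
  have h1 : ∀ j ∈ (Finset.univ : Finset (Fin (d + 1))),
      ‖x' (i, j) * u ^ (j : ℕ) - x (i, j) * u ^ (j : ℕ)‖ ≤ R ^ d * ‖x' - x‖ := by
    intro j _
    rw [← sub_mul, norm_mul, norm_pow]
    have h2 : ‖u‖ ^ (j : ℕ) ≤ R ^ d :=
      (pow_le_pow_left₀ (norm_nonneg _) hu _).trans (pow_le_pow_right₀ hR (by omega))
    have h3 : ‖x' (i, j) - x (i, j)‖ ≤ ‖x' - x‖ := norm_le_pi_norm (x' - x) (i, j)
    rw [mul_comm]
    exact mul_le_mul h2 h3 (norm_nonneg _) (by positivity)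
  refine (Finset.sum_le_card_nsmul _ _ _ h1).trans ?_
  rw [Finset.card_univ, Fintype.card_fin, nsmul_eq_mul]
  push_cast
  linarith

lemma fx_diffOn (x : CV d) : DifferentiableOn ℂ (fx x) {z : ℂ | (de x).eval z ≠ 0} :=
  Pool.Agent.W85.RQINJ.fr_differentiableOn _ _

lemma fx_diffAt (x : CV d) {z : ℂ} (hz : (de x).eval z ≠ 0) : DifferentiableAt ℂ (fx x) z :=
  (fx_diffOn x).differentiableAt ((Pool.Agent.W85.RQINJ.isOpen_ne (de x)).mem_nhds hz)

lemma iter_diffAt (x : CV d) (m : ℕ) {z : ℂ} (hz : ∀ j < m, (de x).eval ((fx x)^[j] z) ≠ 0) :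
    DifferentiableAt ℂ ((fx x)^[m]) z := by
  induction m with
  | zero => exact differentiableAt_id
  | succ m ih =>
    have h1 := ih fun j hj => hz j (by omega)
    have h2 := fx_diffAt x (hz m (by omega))
    rw [Function.iterate_succ']
    exact DifferentiableAt.comp z h2 h1

/-- one step -/
lemma step (x : CV d) {X : ℝ → CV d} {t₀ C₀ : ℝ} (ht₀ : 0 < t₀) (hC₀ : 0 < C₀)
    (cf : ∀ t : ℝ, 0 ≤ t → t ≤ t₀ → ‖X t - x‖ ≤ C₀ * t) {K : Set ℂ} (hK : IsCompact K)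
    (hQ : ∀ v ∈ K, (de x).eval v ≠ 0) :
    ∃ η M C t₁ : ℝ, 0 < η ∧ 0 ≤ M ∧ 0 ≤ C ∧ 0 < t₁ ∧ ∀ t : ℝ, 0 ≤ t → t ≤ t₁ → ∀ v ∈ K, ∀ u : ℂ,
      ‖u - v‖ ≤ η → (de (X t)).eval u ≠ 0 ∧ ‖fx (X t) u - fx x v‖ ≤ C * t + M * ‖u - v‖ := by
  have hUo := Pool.Agent.W85.RQINJ.isOpen_ne (de x)
  obtain ⟨η₁, M, hη₁, hM, hlip⟩ := lip_near hUo (fx_diffOn x) hK hQ
  obtain ⟨η₂, hη₂, hsub⟩ := hK.exists_cthickening_subset_open hUo hQ
  have hKc : IsCompact (cthickening η₂ K) := hK.cthickening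
  -- bounds on the thickening
  obtain ⟨R, hR⟩ := hKc.exists_bound_of_continuousOn (f := fun u : ℂ => u) continuousOn_id
  obtain ⟨B0, hB0⟩ := hKc.exists_bound_of_continuousOn (f := fun u : ℂ => (nu x).eval u)
    (nu x).continuous.continuousOn
  obtain ⟨B1, hB1⟩ := hKc.exists_bound_of_continuousOn (f := fun u : ℂ => (de x).eval u)
    (de x).continuous.continuousOn
  obtain ⟨B2, hB2⟩ := hKc.exists_bound_of_continuousOn (f := fun u : ℂ => ((de x).eval u)⁻¹)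
    ((de x).continuous.continuousOn.inv₀ fun u hu => hsub hu)
  set R' : ℝ := max R 1 with hR'
  have hR1 : 1 ≤ R' := le_max_right _ _
  set A : ℝ := (d + 1) * R' ^ d * C₀ with hA
  have hA0 : 0 ≤ A := by positivity
  set b0 : ℝ := max B0 0 with hb0
  set b1 : ℝ := max B1 0 with hb1
  set b2 : ℝ := max B2 1 with hb2
  have hb00 : 0 ≤ b0 := le_max_right _ _
  have hb10 : 0 ≤ b1 := le_max_right _ _
  have hb21 : 1 ≤ b2 := le_max_right _ _
  refine ⟨min η₁ η₂, M, (A * b1 + b0 * A) * (2 * b2 * b2), min t₀ (1 / (2 * b2 * (A + 1))),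
    lt_min hη₁ hη₂, hM, by positivity, lt_min ht₀ (by positivity), ?_⟩
  intro t h0 h1 v hv u hu
  have htt : t ≤ t₀ := h1.trans (min_le_left _ _)
  have ht2 : t ≤ 1 / (2 * b2 * (A + 1)) := h1.trans (min_le_right _ _)
  have huc : u ∈ cthickening η₂ K := closedBall_subset_cthickening hv η₂ (by
    rw [mem_closedBall, dist_eq_norm]; exact hu.trans (min_le_right _ _))
  have huR : ‖u‖ ≤ R' := (hR u huc).trans (le_max_left _ _)
  obtain ⟨huU, hul⟩ := hlip v hv u (hu.trans (min_le_left _ _))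
  have e0 : ‖(nu (X t)).eval u - (nu x).eval u‖ ≤ A * t := by
    refine (pol_close x (X t) 0 hR1 huR).trans ?_
    rw [hA, mul_assoc _ C₀ t]
    exact mul_le_mul_of_nonneg_left (cf t h0 htt) (by positivity)
  have e1 : ‖(de (X t)).eval u - (de x).eval u‖ ≤ A * t := by
    refine (pol_close x (X t) 1 hR1 huR).trans ?_
    rw [hA, mul_assoc _ C₀ t]
    exact mul_le_mul_of_nonneg_left (cf t h0 htt) (by positivity)
  have hAt : A * t ≤ 1 / (2 * b2) := by
    have h2 : A * t ≤ (A + 1) * t := by nlinarith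
    have h3 : (A + 1) * t ≤ (A + 1) * (1 / (2 * b2 * (A + 1))) :=
      mul_le_mul_of_nonneg_left ht2 (by positivity)
    refine h2.trans (h3.trans (le_of_eq ?_))
    field_simp
  have n0 : ‖(nu x).eval u‖ ≤ b0 := (hB0 u huc).trans (le_max_left _ _)
  have n1 : ‖(de x).eval u‖ ≤ b1 := (hB1 u huc).trans (le_max_left _ _)
  have n2 : ‖((de x).eval u)⁻¹‖ ≤ b2 := (hB2 u huc).trans (le_max_left _ _)
  have huQ : (de x).eval u ≠ 0 := huU
  have n3 : 1 / b2 ≤ ‖(de x).eval u‖ := by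
    rw [norm_inv] at n2
    have hp : 0 < ‖(de x).eval u‖ := norm_pos_iff.2 huQ
    rw [div_le_iff₀ (by positivity)]
    have := mul_le_mul_of_nonneg_left n2 hp.le
    rwa [mul_inv_cancel₀ hp.ne'] at this
  have n4 : 1 / (2 * b2) ≤ ‖(de (X t)).eval u‖ := by
    have h2 : ‖(de x).eval u‖ ≤ ‖(de (X t)).eval u‖ + ‖(de (X t)).eval u - (de x).eval u‖ := by
      have := norm_sub_le ((de (X t)).eval u) ((de (X t)).eval u - (de x).eval u)
      simpa using this
    have h3 : 1 / b2 = 1 / (2 * b2) + 1 / (2 * b2) := by field_simp; norm_num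
    linarith
  have hne : (de (X t)).eval u ≠ 0 := by
    intro h
    rw [h, norm_zero] at n4
    have : 0 < 1 / (2 * b2) := by positivity
    linarith
  refine ⟨hne, ?_⟩
  have e2 : fx (X t) u - fx x u = (((nu (X t)).eval u - (nu x).eval u) * (de x).eval u -
      (nu x).eval u * ((de (X t)).eval u - (de x).eval u)) *
        (((de (X t)).eval u)⁻¹ * ((de x).eval u)⁻¹) := by
    unfold fx fr
    field_simp
    ring
  have n5 : ‖((de (X t)).eval u)⁻¹‖ ≤ 2 * b2 := by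
    rw [norm_inv]
    refine inv_le_of_inv_le₀ (by positivity) ?_
    rw [← one_div]
    exact n4
  have e3 : ‖fx (X t) u - fx x u‖ ≤ (A * b1 + b0 * A) * (2 * b2 * b2) * t := by
    rw [e2, norm_mul, norm_mul]
    have h2 : ‖((nu (X t)).eval u - (nu x).eval u) * (de x).eval u -
        (nu x).eval u * ((de (X t)).eval u - (de x).eval u)‖ ≤ (A * b1 + b0 * A) * t := by
      refine (norm_sub_le _ _).trans ?_
      rw [norm_mul, norm_mul]
      have h3 : ‖(nu (X t)).eval u - (nu x).eval u‖ * ‖(de x).eval u‖ ≤ A * t * b1 :=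
        mul_le_mul e0 n1 (norm_nonneg _) (by positivity)
      have h4 : ‖(nu x).eval u‖ * ‖(de (X t)).eval u - (de x).eval u‖ ≤ b0 * (A * t) :=
        mul_le_mul n0 e1 (norm_nonneg _) hb00
      linarith
    have h5 : ‖((de (X t)).eval u)⁻¹‖ * ‖((de x).eval u)⁻¹‖ ≤ 2 * b2 * b2 :=
      mul_le_mul n5 n2 (norm_nonneg _) (by positivity)
    calc _ ≤ (A * b1 + b0 * A) * t * (2 * b2 * b2) :=
          mul_le_mul h2 h5 (by positivity) (by positivity)
      _ = _ := by ring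
  calc ‖fx (X t) u - fx x v‖ = ‖(fx (X t) u - fx x u) + (fx x u - fx x v)‖ := by congr 1; ring
    _ ≤ _ := (norm_add_le _ _).trans (add_le_add e3 hul)

/-- closeness of iterates -/
lemma iter_close (x : CV d) {X : ℝ → CV d} {t₀ C₀ : ℝ} (ht₀ : 0 < t₀) (hC₀ : 0 < C₀)
    (cf : ∀ t : ℝ, 0 ≤ t → t ≤ t₀ → ‖X t - x‖ ≤ C₀ * t) {K : Set ℂ} (hK : IsCompact K) (m : ℕ)
    (hQ : ∀ v ∈ K, ∀ j < m, (de x).eval ((fx x)^[j] v) ≠ 0) :
    ∃ η M C t₁ : ℝ, 0 < η ∧ 0 ≤ M ∧ 0 ≤ C ∧ 0 < t₁ ∧ ∀ t : ℝ, 0 ≤ t → t ≤ t₁ → ∀ v ∈ K, ∀ u : ℂ,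
      ‖u - v‖ ≤ η → (∀ j < m, (de (X t)).eval ((fx (X t))^[j] u) ≠ 0) ∧
        ‖(fx (X t))^[m] u - (fx x)^[m] v‖ ≤ C * t + M * ‖u - v‖ := by
  induction m with
  | zero =>
    refine ⟨1, 1, 0, 1, one_pos, zero_le_one, le_rfl, one_pos, fun t h0 h1 v hv u hu => ?_⟩
    refine ⟨fun j hj => absurd hj (by omega), ?_⟩
    simp
  | succ m ih =>
    obtain ⟨η, M, C, t₁, hη, hM, hC, ht₁, h⟩ := ih fun v hv j hj => hQ v hv j (by omega)
    have hKm : IsCompact ((fx x)^[m] '' K) := by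
      refine hK.image_of_continuousOn fun v hv => ?_
      exact (iter_diffAt x m fun j hj => hQ v hv j (by omega)).continuousAt.continuousWithinAt
    obtain ⟨η', M', C', t₁', hη', hM', hC', ht₁', h'⟩ := step x ht₀ hC₀ cf hKm (by
      rintro _ ⟨v, hv, rfl⟩
      exact hQ v hv m (by omega))
    refine ⟨min η (η' / (2 * (M + 1))), M' * M, C' + M' * C,
      min (min t₁ t₁') (η' / (2 * (C + 1))), lt_min hη (by positivity), by positivity,
      by positivity, lt_min (lt_min ht₁ ht₁') (by positivity), ?_⟩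
    intro t h0 h1 v hv u hu
    have hta : t ≤ t₁ := h1.trans ((min_le_left _ _).trans (min_le_left _ _))
    have htb : t ≤ t₁' := h1.trans ((min_le_left _ _).trans (min_le_right _ _))
    have htc : t ≤ η' / (2 * (C + 1)) := h1.trans (min_le_right _ _)
    obtain ⟨h2, h3⟩ := h t h0 hta v hv u (hu.trans (min_le_left _ _))
    have h4 : M * ‖u - v‖ ≤ η' / 2 := by
      have h5 : ‖u - v‖ ≤ η' / (2 * (M + 1)) := hu.trans (min_le_right _ _)
      have h6 : M * ‖u - v‖ ≤ (M + 1) * ‖u - v‖ := by nlinarith [norm_nonneg (u - v)]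
      have h7 : (M + 1) * ‖u - v‖ ≤ (M + 1) * (η' / (2 * (M + 1))) :=
        mul_le_mul_of_nonneg_left h5 (by positivity)
      refine h6.trans (h7.trans (le_of_eq ?_))
      field_simp
    have h5 : C * t ≤ η' / 2 := by
      have h6 : C * t ≤ (C + 1) * t := by nlinarith
      have h7 : (C + 1) * t ≤ (C + 1) * (η' / (2 * (C + 1))) :=
        mul_le_mul_of_nonneg_left htc (by positivity)
      refine h6.trans (h7.trans (le_of_eq ?_))
      field_simp
    obtain ⟨h6, h7⟩ := h' t h0 htb _ ⟨v, hv, rfl⟩ ((fx (X t))^[m] u) (by linarith)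
    refine ⟨fun j hj => ?_, ?_⟩
    · rcases Nat.lt_succ_iff_lt_or_eq.1 hj with hj | rfl
      · exact h2 j hj
      · exact h6
    · rw [Function.iterate_succ_apply', Function.iterate_succ_apply']
      refine h7.trans ?_
      have h8 := mul_le_mul_of_nonneg_left h3 hM'
      linarith

/-- iterates on the sphere -/
lemma sp_iter (hd : 1 ≤ d) (x : CV d) (hx : ND x) (m : ℕ) {z : ℂ}
    (hz : ∀ j < m, (de x).eval ((fx x)^[j] z) ≠ 0) :
    (sp x)^[m] (z : OnePoint ℂ) = (((fx x)^[m] z : ℂ) : OnePoint ℂ) := by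
  have hPQ := (Pool.Agent.H790R3.RB.PQ Pool.Agent.H790R3.RB.SP d hd).1 x hx
  induction m with
  | zero => rfl
  | succ m ih =>
    rw [Function.iterate_succ_apply', Function.iterate_succ_apply', ih fun j hj => hz j (by omega)]
    exact hPQ.2.2.2.2 _ (hz m (by omega))

/-- shift of a sink -/
lemma sink_shift {f : OnePoint ℂ → OnePoint ℂ} (hf : Continuous f) {p : ℕ} {a : OnePoint ℂ}
    (h : Sink f p a) (m : ℕ) : Sink f p (f^[m] a) := by
  obtain ⟨hp, hfix, U, hU, hUV⟩ := h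
  have hcomm : ∀ (i j : ℕ) (w : OnePoint ℂ), f^[i] (f^[j] w) = f^[i + j] w := fun i j w =>
    (Function.iterate_add_apply f i j w).symm
  refine ⟨hp, ?_, (f^[p * m - m]) ⁻¹' U, ?_, ?_⟩
  · rw [hcomm, add_comm, ← hcomm, hfix]
  · refine (hf.iterate _).continuousAt.preimage_mem_nhds ?_
    have hle : m ≤ p * m := Nat.le_mul_of_pos_left m hp
    have h1 : f^[p * m - m] (f^[m] a) = a := by
      rw [hcomm, Nat.sub_add_cancel hle, Function.iterate_mul]
      exact Function.iterate_fixed hfix m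
    rw [h1]
    exact hU
  · intro V hV
    have h1 : (f^[m]) ⁻¹' V ∈ 𝓝 a := (hf.iterate m).continuousAt.preimage_mem_nhds hV
    have h2 := hUV _ h1
    rw [eventually_atTop] at h2 ⊢
    obtain ⟨N, hN⟩ := h2
    refine ⟨N + m, fun k hk w hw => ?_⟩
    have h3 := hN (k - m) (by omega) _ hw
    have h4 : f^[m] (f^[p * (k - m)] (f^[p * m - m] w)) ∈ V := h3
    rw [hcomm, hcomm] at h4
    have hle : m ≤ p * m := Nat.le_mul_of_pos_left m hp
    have h5 : m + p * (k - m) + (p * m - m) = p * k := by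
      have h6 : p * (k - m) + p * m = p * k := by
        rw [← Nat.mul_add, Nat.sub_add_cancel (by omega)]
      omega
    rwa [h5] at h4

/-- attracted after `n` steps -/
lemma attd_of {f : OnePoint ℂ → OnePoint ℂ} (hf : Continuous f) {p : ℕ} {a : OnePoint ℂ}
    (h : Sink f p a) {n : ℕ} {z : OnePoint ℂ}
    (hz : Tendsto (fun i : ℕ => f^[p * i] (f^[n] z)) atTop (𝓝 a)) : Attd f z := by
  refine ⟨p, f^[p * n - n] a, sink_shift hf h _, ?_⟩
  rw [← tendsto_add_atTop_iff_nat n]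
  have h1 := ((hf.iterate (p * n - n)).tendsto a).comp hz
  refine h1.congr (fun i => ?_)
  simp only [Function.comp_apply]
  rw [← Function.iterate_add_apply, ← Function.iterate_add_apply]
  congr 2
  have hle : n ≤ p * n := Nat.le_mul_of_pos_left n h.1
  rw [mul_add]
  omega

theorem task : StAPS := by
  intro hSNK hSGL d x n p ρ r h X y k t₀ C₀ z hPC hr hρ hρ' hd hi hconj hzF hz
  obtain ⟨w0, hw0, hw0z⟩ := hz
  have hw0' : ‖w0‖ < r := by rwa [mem_ball_zero_iff] at hw0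
  obtain ⟨hO, g, hgd, hgl, hgder⟩ := Pool.Agent.Helper405.Conv.inv_facts isOpen_ball hd hi
  -- radii
  obtain ⟨q, hq⟩ : ∃ q : ℝ, q = (r - ‖w0‖) / 5 := ⟨_, rfl⟩
  have hq0 : 0 < q := by rw [hq]; linarith
  have hq5 : ‖w0‖ + 5 * q = r := by rw [hq]; ring
  -- the compact set
  set K : Set ℂ := h '' closedBall 0 (‖w0‖ + 4 * q) with hK
  have hcb : closedBall (0 : ℂ) (‖w0‖ + 4 * q) ⊆ ball 0 r :=
    closedBall_subset_ball (by linarith)
  have hKc : IsCompact K := (isCompact_closedBall _ _).image_of_continuousOn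
    (hd.continuousOn.mono hcb)
  have hKU : K ⊆ h '' ball 0 r := image_mono hcb
  obtain ⟨η, M, hη, hM, hlip⟩ := lip_near hO hgd hKc hKU
  have hmemK : ∀ w : ℂ, ‖w‖ ≤ ‖w0‖ + 4 * q → h w ∈ K := fun w hw =>
    ⟨w, mem_closedBall_zero_iff.mpr hw, rfl⟩
  have hball : ∀ w : ℂ, ‖w‖ ≤ ‖w0‖ + 4 * q → w ∈ ball (0 : ℂ) r := fun w hw =>
    hcb (mem_closedBall_zero_iff.mpr hw)
  have hhg : ∀ u ∈ h '' ball 0 r, h (g u) = u ∧ g u ∈ ball (0 : ℂ) r := by
    rintro _ ⟨w, hw, rfl⟩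
    rw [hgl w hw]
    exact ⟨rfl, hw⟩
  have hKF : ∀ v ∈ K, ∀ j < p, (de x).eval ((fx x)^[j] v) ≠ 0 := by
    intro v hv j _
    obtain ⟨w, hw, rfl⟩ := hKU hv
    exact (hconj w hw).1 j
  obtain ⟨ηa, Ma, C1, ta, hηa, hMa, hC1, hta, hcl⟩ :=
    iter_close x hPC.t0 hPC.C0 hPC.cf hKc p hKF
  obtain ⟨ηb, Mb, C2, tb, hηb, hMb, hC2, htb, hcl2⟩ :=
    iter_close x hPC.t0 hPC.C0 hPC.cf (isCompact_singleton (x := z)) n (by
      intro v hv j _
      rw [mem_singleton_iff] at hv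
      rw [hv]
      exact hzF j)
  have hC₀ := hPC.C0
  -- SGL
  obtain ⟨s₀, hs₀, hsgl⟩ := hSGL ρ (‖w0‖ + 3 * q) (‖w0‖ + 2 * q) (M * C1 + 2 * (M * C₀)) hρ hρ'
    (by positivity) (by linarith) (by positivity)
  -- smallness of the ball around `z`
  obtain ⟨δ, hδ, hδb, hδ1, hδ2⟩ : ∃ δ : ℝ, 0 < δ ∧ δ ≤ ηb ∧ Mb * δ ≤ η / 2 ∧
      M * (Mb * δ) ≤ q / 2 := by
    refine ⟨min ηb (min (η / (2 * (Mb + 1))) (q / (2 * (M * Mb + 1)))), ?_, min_le_left _ _, ?_, ?_⟩
    · exact lt_min hηb (lt_min (by positivity) (by positivity))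
    · set e := min ηb (min (η / (2 * (Mb + 1))) (q / (2 * (M * Mb + 1)))) with he
      have h1 : e ≤ η / (2 * (Mb + 1)) := (min_le_right _ _).trans (min_le_left _ _)
      have h2 : 0 ≤ e := (lt_min hηb (lt_min (by positivity) (by positivity))).le
      have h3 : Mb * e ≤ (Mb + 1) * e := by nlinarith
      have h4 : (Mb + 1) * e ≤ (Mb + 1) * (η / (2 * (Mb + 1))) :=
        mul_le_mul_of_nonneg_left h1 (by positivity)
      refine h3.trans (h4.trans (le_of_eq ?_))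
      field_simp
    · set e := min ηb (min (η / (2 * (Mb + 1))) (q / (2 * (M * Mb + 1)))) with he
      have h1 : e ≤ q / (2 * (M * Mb + 1)) := (min_le_right _ _).trans (min_le_right _ _)
      have h2 : 0 ≤ e := (lt_min hηb (lt_min (by positivity) (by positivity))).le
      have h3 : M * (Mb * e) ≤ (M * Mb + 1) * e := by nlinarith
      have h4 : (M * Mb + 1) * e ≤ (M * Mb + 1) * (q / (2 * (M * Mb + 1))) :=
        mul_le_mul_of_nonneg_left h1 (by positivity)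
      refine h3.trans (h4.trans (le_of_eq ?_))
      field_simp
  -- smallness of t
  have hsmall : ∃ t₁ : ℝ, 0 < t₁ ∧ ∀ t : ℝ, 0 < t → t < t₁ → t ≤ t₀ ∧ t < 1 ∧ C1 * t ≤ η ∧
      C₀ * t ≤ η ∧ M * (C₀ * t) ≤ q ∧ C2 * t < η / 2 ∧ M * (C2 * t) < q / 2 ∧
      1 - (1 - t) ^ k < s₀ ∧ t ≤ ta ∧ t ≤ tb := by
    have e : ∀ c : ℝ, Tendsto (fun t : ℝ => c * t) (𝓝 0) (𝓝 0) := by
      intro c
      simpa using (tendsto_id (x := 𝓝 (0 : ℝ))).const_mul c
    have e8 : Tendsto (fun t : ℝ => 1 - (1 - t) ^ k) (𝓝 0) (𝓝 0) := by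
      have : Continuous (fun t : ℝ => 1 - (1 - t) ^ k) := by fun_prop
      simpa using this.tendsto 0
    have h3 := ((((((((((tendsto_order.mp (tendsto_id (x := 𝓝 (0 : ℝ)))).2 _ hPC.t0).and
      ((tendsto_order.mp (tendsto_id (x := 𝓝 (0 : ℝ)))).2 1 one_pos)).and
      ((tendsto_order.mp (e C1)).2 _ hη)).and
      ((tendsto_order.mp (e C₀)).2 _ hη)).and
      ((tendsto_order.mp (e (M * C₀))).2 _ hq0)).and
      ((tendsto_order.mp (e C2)).2 (η / 2) (by linarith))).and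
      ((tendsto_order.mp (e (M * C2))).2 (q / 2) (by linarith))).and
      ((tendsto_order.mp e8).2 _ hs₀)).and
      ((tendsto_order.mp (tendsto_id (x := 𝓝 (0 : ℝ)))).2 _ hta)).and
      ((tendsto_order.mp (tendsto_id (x := 𝓝 (0 : ℝ)))).2 _ htb)
    obtain ⟨t₁, ht₁, h4⟩ := Metric.eventually_nhds_iff.mp h3
    refine ⟨t₁, ht₁, fun t ht htt => ?_⟩
    obtain ⟨⟨⟨⟨⟨⟨⟨⟨⟨a1, a2⟩, a3⟩, a4⟩, a5⟩, a6⟩, a7⟩, a8⟩, a9⟩, a10⟩ := h4 (y := t) (by
      rw [Real.dist_eq, sub_zero, abs_of_pos ht]; exact htt)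
    refine ⟨a1.le, a2, a3.le, a4.le, ?_, a6, ?_, a8, a9.le, a10.le⟩
    · rw [← mul_assoc]; exact a5.le
    · rw [← mul_assoc]; exact a7
  obtain ⟨t₁, ht₁, hsmall⟩ := hsmall
  refine ⟨δ, t₁, hδ, ht₁, fun t ht htt z' hz' => ?_⟩
  obtain ⟨b1, b2, b3, b4, b5, b6, b7, b8, b9, b10⟩ := hsmall t ht htt
  set f := fx (X t) with hf
  -- the fixed point
  have hyx := hPC.yx t ht.le b1
  have h0K : h 0 ∈ K := hmemK 0 (by rw [norm_zero]; positivity)
  have hg0 : g (h 0) = 0 := hgl 0 (mem_ball_self hr)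
  obtain ⟨hyU, hyl⟩ := hlip (h 0) h0K (y t) (hyx.trans b4)
  set v := g (y t) with hv
  have hvn : ‖v‖ ≤ M * (C₀ * t) := by
    rw [hg0, sub_zero] at hyl
    exact hyl.trans (mul_le_mul_of_nonneg_left hyx hM)
  have hhv : h v = y t := (hhg _ hyU).1
  have hvb : v ∈ ball (0 : ℂ) r := (hhg _ hyU).2
  have hfix : f^[p] (y t) = y t := hPC.fixt t ht.le b1
  have hmul : deriv (f^[p]) (y t) = ((1 - t : ℝ) : ℂ) ^ k * ρ := hPC.mult t ht.le b1
  -- finiteness and differentiability on `K`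
  have hfin : ∀ u : ℂ, ‖u‖ ≤ ‖w0‖ + 4 * q → ∀ j < p, (de (X t)).eval (f^[j] (h u)) ≠ 0 := by
    intro u hu
    exact (hcl t ht.le b9 (h u) (hmemK u hu) (h u) (by rw [sub_self, norm_zero]; exact hηa.le)).1
  have hfp : ∀ u : ℂ, ‖u‖ ≤ ‖w0‖ + 4 * q → DifferentiableAt ℂ (f^[p]) (h u) := fun u hu =>
    iter_diffAt (X t) p (hfin u hu)
  have hvq : ‖v‖ ≤ ‖w0‖ + 4 * q := by
    have := norm_nonneg w0
    linarith [hvn.trans b5]
  -- closeness
  have hclose : ∀ u : ℂ, ‖u‖ ≤ ‖w0‖ + 4 * q → f^[p] (h u) ∈ h '' ball 0 r ∧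
      ‖g (f^[p] (h u)) - ρ * u‖ ≤ M * (C1 * t) := by
    intro u hu
    have h1 := (hcl t ht.le b9 (h u) (hmemK u hu) (h u)
      (by rw [sub_self, norm_zero]; exact hηa.le)).2
    rw [sub_self, norm_zero, mul_zero, add_zero, (hconj u (hball u hu)).2] at h1
    have hρu : ‖ρ * u‖ ≤ ‖w0‖ + 4 * q := by rw [norm_mul, hρ, one_mul]; exact hu
    obtain ⟨h2, h3⟩ := hlip (h (ρ * u)) (hmemK _ hρu) (f^[p] (h u)) (h1.trans b3)
    rw [hgl _ (hball _ hρu)] at h3
    exact ⟨h2, h3.trans (mul_le_mul_of_nonneg_left h1 hM)⟩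
  set G : ℂ → ℂ := fun w => g (f^[p] (h (v + w))) - v with hG
  have hvw : ∀ w ∈ ball (0 : ℂ) (‖w0‖ + 3 * q), ‖v + w‖ ≤ ‖w0‖ + 4 * q := by
    intro w hw
    rw [mem_ball_zero_iff] at hw
    calc ‖v + w‖ ≤ ‖v‖ + ‖w‖ := norm_add_le _ _
      _ ≤ q + (‖w0‖ + 3 * q) := add_le_add (hvn.trans b5) hw.le
      _ = _ := by ring
  have hGd : DifferentiableOn ℂ G (ball 0 (‖w0‖ + 3 * q)) := by
    intro w hw
    have h1 := hvw w hw
    have hb := hball _ h1
    have d1 : DifferentiableAt ℂ h (v + w) := hd.differentiableAt (isOpen_ball.mem_nhds hb)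
    have d2 : DifferentiableAt ℂ (fun w => h (v + w)) w :=
      DifferentiableAt.comp (g := h) (f := fun w => v + w) w d1 (by fun_prop)
    have d3 : DifferentiableAt ℂ (fun w => f^[p] (h (v + w))) w :=
      DifferentiableAt.comp (g := f^[p]) (f := fun w => h (v + w)) w (hfp _ h1) d2
    have d4 : DifferentiableAt ℂ g (f^[p] (h (v + w))) :=
      hgd.differentiableAt (hO.mem_nhds (hclose _ h1).1)
    have d5 : DifferentiableAt ℂ (fun w => g (f^[p] (h (v + w)))) w :=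
      DifferentiableAt.comp (g := g) (f := fun w => f^[p] (h (v + w))) w d4 d3
    exact (d5.sub_const v).differentiableWithinAt
  have hs : t ≤ 1 - (1 - t) ^ k := by
    obtain ⟨k', rfl⟩ : ∃ k', k = k' + 1 := ⟨k - 1, by have := hPC.kp; omega⟩
    have h1 : (1 - t) ^ k' ≤ 1 := pow_le_one₀ (by linarith) (by linarith)
    have h2 : (1 - t) ^ (k' + 1) ≤ 1 - t := by
      rw [pow_succ]
      exact mul_le_of_le_one_left (by linarith) h1
    linarith
  have hGρ : ∀ w ∈ ball (0 : ℂ) (‖w0‖ + 3 * q),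
      ‖G w - ρ * w‖ ≤ (M * C1 + 2 * (M * C₀)) * (1 - (1 - t) ^ k) := by
    intro w hw
    have h1 := (hclose _ (hvw w hw)).2
    have e1 : G w - ρ * w = (g (f^[p] (h (v + w))) - ρ * (v + w)) + (ρ * v - v) := by
      rw [hG]; ring
    have e2 : ‖ρ * v - v‖ ≤ 2 * (M * (C₀ * t)) := by
      calc ‖ρ * v - v‖ ≤ ‖ρ * v‖ + ‖v‖ := norm_sub_le _ _
        _ = 2 * ‖v‖ := by rw [norm_mul, hρ]; ring
        _ ≤ _ := by linarith
    calc ‖G w - ρ * w‖ ≤ ‖g (f^[p] (h (v + w))) - ρ * (v + w)‖ + ‖ρ * v - v‖ := by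
          rw [e1]; exact norm_add_le _ _
      _ ≤ M * (C1 * t) + 2 * (M * (C₀ * t)) := add_le_add h1 e2
      _ = (M * C1 + 2 * (M * C₀)) * t := by ring
      _ ≤ _ := mul_le_mul_of_nonneg_left hs (by positivity)
  have hG0 : G 0 = 0 := by
    simp only [hG]
    rw [add_zero, hhv, hfix, ← hv, sub_self]
  have hGder : deriv G 0 = ρ * ((1 - (1 - (1 - t) ^ k) : ℝ) : ℂ) := by
    have c1 : HasDerivAt (fun w : ℂ => v + w) 1 0 := by
      simpa using (hasDerivAt_id (0 : ℂ)).const_add v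
    have c2 : HasDerivAt h (deriv h v) (v + 0) := by
      rw [add_zero]
      exact (hd.differentiableAt (isOpen_ball.mem_nhds hvb)).hasDerivAt
    have c3 : HasDerivAt (fun w : ℂ => h (v + w)) (deriv h v * 1) 0 :=
      HasDerivAt.comp (h₂ := h) (h := fun w => v + w) 0 c2 c1
    have c4 : HasDerivAt (f^[p]) (((1 - t : ℝ) : ℂ) ^ k * ρ) (h (v + 0)) := by
      rw [add_zero, ← hmul]
      have := (hfp v hvq).hasDerivAt
      rw [hhv] at this ⊢
      exact this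
    have c5 : HasDerivAt (fun w : ℂ => f^[p] (h (v + w))) (((1 - t : ℝ) : ℂ) ^ k * ρ *
        (deriv h v * 1)) 0 :=
      HasDerivAt.comp (h₂ := f^[p]) (h := fun w => h (v + w)) 0 c4 c3
    have c6 : HasDerivAt g (deriv h v)⁻¹ (f^[p] (h (v + 0))) := by
      rw [add_zero, hhv, hfix, ← hhv]
      exact hgder v hvb
    have c7 : HasDerivAt (fun w : ℂ => g (f^[p] (h (v + w)))) ((deriv h v)⁻¹ *
        (((1 - t : ℝ) : ℂ) ^ k * ρ * (deriv h v * 1))) 0 :=
      HasDerivAt.comp (h₂ := g) (h := fun w => f^[p] (h (v + w))) 0 c6 c5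
    have c8 := (c7.sub_const v).deriv
    have hne : deriv h v ≠ 0 := Pool.Agent.Helper405.Conv.deriv_ne_zero_of_injOn isOpen_ball hd hi
      hvb
    rw [hG, c8]
    have : ((1 - (1 - (1 - t) ^ k) : ℝ) : ℂ) = ((1 - t : ℝ) : ℂ) ^ k := by
      push_cast; ring
    rw [this]
    field_simp
  have hs0 : 0 < 1 - (1 - t) ^ k := lt_of_lt_of_le ht hs
  have hmain := hsgl (1 - (1 - t) ^ k) hs0 b8 G hGd hGρ hG0 hGder
  -- the point
  have hz'1 : ‖z' - z‖ ≤ δ := by
    rw [mem_ball, dist_eq_norm] at hz'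
    exact hz'.le
  obtain ⟨hzfin, d3⟩ := hcl2 t ht.le b10 z (mem_singleton z) z' (hz'1.trans hδb)
  set u := f^[n] z' with hu
  have d4 : ‖u - h w0‖ ≤ C2 * t + Mb * δ := by
    rw [hw0z]
    have := mul_le_mul_of_nonneg_left hz'1 hMb
    linarith
  have hw0K : h w0 ∈ K := hmemK w0 (by linarith)
  obtain ⟨d5, d6⟩ := hlip (h w0) hw0K u (by linarith)
  rw [hgl w0 hw0] at d6
  set w := g u - v with hw
  have d7 : M * ‖u - h w0‖ ≤ q := by
    calc M * ‖u - h w0‖ ≤ M * (C2 * t + Mb * δ) :=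
          mul_le_mul_of_nonneg_left d4 hM
      _ = M * (C2 * t) + M * (Mb * δ) := by ring
      _ ≤ q := by linarith
  have hwn : w ∈ closedBall (0 : ℂ) (‖w0‖ + 2 * q) := by
    rw [mem_closedBall_zero_iff]
    calc ‖w‖ = ‖w0 + (g u - w0) - v‖ := by rw [hw]; congr 1; ring
      _ ≤ ‖w0 + (g u - w0)‖ + ‖v‖ := norm_sub_le _ _
      _ ≤ ‖w0‖ + ‖g u - w0‖ + ‖v‖ := by gcongr; exact norm_add_le _ _
      _ ≤ ‖w0‖ + q + q := by
          gcongr
          · exact d6.trans d7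
          · exact hvn.trans b5
      _ = _ := by ring
  obtain ⟨hin, hlim⟩ := hmain w hwn
  have hd2 : 2 ≤ d := hPC.hd
  have hND : ND (X t) := hPC.ndt t ht.le b1
  have hconj2 : ∀ i : ℕ, (sp (X t))^[p * i] (u : OnePoint ℂ) =
      ((h (v + G^[i] w) : ℂ) : OnePoint ℂ) := by
    intro i
    induction i with
    | zero =>
      simp only [Nat.mul_zero, Function.iterate_zero, id]
      rw [hw, add_sub_cancel, (hhg _ d5).1]
    | succ i ih =>
      rw [Nat.mul_succ, Nat.add_comm, Function.iterate_add_apply, ih,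
        Function.iterate_succ_apply' G]
      have h1 := hvw _ (hin i)
      have h2 : v + G (G^[i] w) = g (f^[p] (h (v + G^[i] w))) := by
        show v + (g (f^[p] (h (v + G^[i] w))) - v) = _
        ring
      rw [sp_iter (by omega) (X t) hND p (hfin _ h1), h2, (hhg _ (hclose _ h1).1).1]
  have hmlt : ‖deriv (f^[p]) (y t)‖ < 1 := by
    rw [hmul, norm_mul, hρ, mul_one, norm_pow, Complex.norm_real, Real.norm_of_nonneg (by linarith)]
    linarith
  have hsink : Sink (sp (X t)) p (y t : OnePoint ℂ) :=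
    (hSNK d (X t) hd2 hND).2.2 p (y t) hPC.pp (hPC.fint t ht.le b1) hfix hmlt
  have hcont : Continuous (sp (X t)) :=
    (Pool.Agent.H790R3.RB.SP d (X t) (by omega) hND).1
  apply attd_of hcont hsink (n := n)
  rw [sp_iter (by omega) (X t) hND n hzfin]
  have hch : ContinuousAt h v := (hd.differentiableAt (isOpen_ball.mem_nhds hvb)).continuousAt
  have h5 : Tendsto (fun i : ℕ => v + G^[i] w) atTop (𝓝 v) := by
    simpa using hlim.const_add v
  have h6 := hch.tendsto.comp h5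
  rw [hhv] at h6
  have h7 := (OnePoint.continuous_coe.tendsto (y t)).comp h6
  refine h7.congr (fun i => ?_)
  simp only [Function.comp_apply]
  rw [← hconj2 i]

end Pool.Agent.W85.RQAPS
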