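import Pool.Agent.W722.Cq.Stm

set_option autoImplicit false
set_option linter.all false

open Metric Set Filter Topology Asymptotics

namespace Pool.Agent.W85.CQ

open Pool.Agent.W722.Cq

/-- the weight controls the norm -/
theorem wt_small {k : ℕ} (m : ℕ) (hm : 1 ≤ m) (μ : ℝ) (hμ : 0 < μ) :
    ∃ om : ℝ, 0 < om ∧ ∀ z : EE k, Wt m z ≤ om → ‖z‖ ≤ μ := by
  refine ⟨min (min (μ / 2) ((μ / 2) ^ 2)) (min (μ ^ 2) (μ ^ (2 * m))), by positivity, ?_⟩
  intro z hz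
  have h1 : Wt m z ≤ μ / 2 := hz.trans ((min_le_left _ _).trans (min_le_left _ _))
  have h2 : Wt m z ≤ (μ / 2) ^ 2 := hz.trans ((min_le_left _ _).trans (min_le_right _ _))
  have h3 : Wt m z ≤ μ ^ 2 := hz.trans ((min_le_right _ _).trans (min_le_left _ _))
  have h4 : Wt m z ≤ μ ^ (2 * m) := hz.trans ((min_le_right _ _).trans (min_le_right _ _))
  unfold Wt at h1 h2 h3 h4
  have p1 : 0 ≤ |z.2.2.re| := abs_nonneg _
  have p2 : 0 ≤ z.2.2.im ^ 2 := sq_nonneg _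
  have p3 : 0 ≤ ‖z.2.1‖ ^ 2 := by positivity
  have p4 : 0 ≤ ‖z.1‖ ^ (2 * m) := by positivity
  have q1 : |z.2.2.re| ≤ μ / 2 := by linarith
  have q2 : |z.2.2.im| ≤ μ / 2 := by
    by_contra hcon
    rw [not_le] at hcon
    have h5 := pow_lt_pow_left₀ hcon (by positivity : (0 : ℝ) ≤ μ / 2) (two_ne_zero)
    rw [sq_abs] at h5
    linarith
  have q3 : ‖z.2.1‖ ≤ μ := by
    by_contra hcon
    rw [not_le] at hcon
    have h5 := pow_lt_pow_left₀ hcon hμ.le (two_ne_zero)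
    linarith
  have q4 : ‖z.1‖ ≤ μ := by
    by_contra hcon
    rw [not_le] at hcon
    have := pow_lt_pow_left₀ hcon hμ.le (show 2 * m ≠ 0 by omega)
    linarith
  have q5 : ‖z.2.2‖ ≤ μ := by
    calc ‖z.2.2‖ ≤ |z.2.2.re| + |z.2.2.im| := Complex.norm_le_abs_re_add_abs_im _
      _ ≤ μ := by linarith
  rw [Prod.norm_def, Prod.norm_def]
  exact max_le q4 (max_le q3 q5)

/-- the disc lemma: bounds of the weight on a ball mapped into a small neighbourhood of `p` -/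
theorem disc {n k m : ℕ} {D : Set (V n)} {p : V n} {Φ : EE k → V n} {Ψ : V n → EE k}
    {P : ℂ → ℝ} {C c : ℝ} (hS : Sit m D p Φ Ψ P C c) {c0 a b θ Cθ : ℝ} (hac : a ≤ c) (hac0 : a ≤ c0)
    (hθ : 0 < θ)
    (hcp : ∀ (γ : ℂ → EE k) (s : ℝ), 0 < s → DifferentiableOn ℂ γ (ball 0 s) →
      (∀ ζ ∈ ball (0 : ℂ) s, ‖γ ζ‖ ≤ c0 ∧ rho0 P (γ ζ) ≤ C * ‖γ ζ‖ * Wt m (γ ζ)) →
      ∀ ζ : ℂ, ‖ζ‖ ≤ θ * s → Wt m (γ ζ) ≤ Cθ * Wt m (γ 0) ∧
        ‖(γ ζ).2.2 - (γ 0).2.2‖ ≤ Cθ * Wt m (γ 0))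
    (hb : ∀ x : V n, ‖x - p‖ < b → ‖Ψ x‖ < a ∧ Φ (Ψ x) = x)
    (ξ : EE k) (hξ : ‖ξ‖ < c) (h : V n → V n) (s : ℝ) (hs : 0 < s)
    (hd : DifferentiableOn ℂ h (ball 0 s)) (hD : MapsTo h (ball 0 s) D) (h0 : h 0 = Φ ξ)
    (hp : ∀ z ∈ ball (0 : V n) s, ‖h z - p‖ < b) (z : V n) (hz : ‖z‖ ≤ θ * s) :
    Wt m (Ψ (h z)) ≤ Cθ * Wt m ξ ∧ ‖(Ψ (h z)).2.2 - ξ.2.2‖ ≤ Cθ * Wt m ξ := by
  have hmem : ∀ l ∈ ball (0 : ℂ) (1 / θ), l • z ∈ ball (0 : V n) s := by
    intro l hl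
    rw [mem_ball_zero_iff] at hl ⊢
    rw [norm_smul]
    calc ‖l‖ * ‖z‖ ≤ ‖l‖ * (θ * s) := mul_le_mul_of_nonneg_left hz (norm_nonneg _)
      _ < (1 / θ) * (θ * s) := mul_lt_mul_of_pos_right hl (by positivity)
      _ = s := by field_simp
  have hγ0 : Ψ (h ((0 : ℂ) • z)) = ξ := by
    rw [zero_smul, h0]
    exact (hS.inv1 ξ hξ).1
  have key := hcp (fun l => Ψ (h (l • z))) (1 / θ) (by positivity) ?_ ?_ 1 ?_
  · simp only [hγ0, one_smul] at key
    exact key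
  · intro l hl
    have hl' := hmem l hl
    have e1 := hb _ (hp _ hl')
    have d1 : DifferentiableAt ℂ Ψ (h (l • z)) := by
      have := (hS.inv1 (Ψ (h (l • z))) (lt_of_lt_of_le e1.1 hac)).2.2
      rwa [e1.2] at this
    have d2 : DifferentiableAt ℂ h (l • z) := hd.differentiableAt (isOpen_ball.mem_nhds hl')
    have d3 : DifferentiableAt ℂ (fun l : ℂ => l • z) l := by fun_prop
    have d4 : DifferentiableAt ℂ (fun l : ℂ => h (l • z)) l := DifferentiableAt.comp l d2 d3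
    exact (DifferentiableAt.comp l d1 d4).differentiableWithinAt
  · intro l hl
    have hl' := hmem l hl
    have e1 := hb _ (hp _ hl')
    refine ⟨(e1.1.le).trans hac0, ?_⟩
    apply hS.inside _ (lt_of_lt_of_le e1.1 hac)
    rw [e1.2]
    exact hD hl'
  · rw [norm_one]
    field_simp
    exact le_refl _

theorem a2 (hCP : S_CP) (hT : S_T) : Pool.Agent.W722.Cq.S_A2 := by
  intro n k m D p Φ Ψ P C c C2 hS hC2 R hR hR1
  have hC1 := hS.C1
  have hC : 0 < C := by linarith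
  obtain ⟨c0, hc0, hcp⟩ := hCP k m P C hS.two hS.pol hC
  set a : ℝ := min c c0 / 2 with ha
  have hapos : 0 < a := by have := hS.c0; positivity
  have hac : a ≤ c := by
    have := min_le_left c c0; have := lt_min hS.c0 hc0; rw [ha]; linarith
  have hac0 : a ≤ c0 := by
    have := min_le_right c c0; have := lt_min hS.c0 hc0; rw [ha]; linarith
  obtain ⟨b, hb, hbinv⟩ := hS.inv2 a hapos
  -- the radii
  set R1 : ℝ := (1 + R) / 2 with hR1d
  set R' : ℝ := (1 + R1) / 2 with hR'd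
  have hRR1 : R < R1 := by rw [hR1d]; linarith
  have hR1R' : R1 < R' := by rw [hR'd, hR1d]; linarith
  have hR'1 : R' < 1 := by rw [hR'd, hR1d]; linarith
  have hR'34 : 3 / 4 < R' := by rw [hR'd, hR1d]; linarith
  -- constants of the weight bound
  obtain ⟨Ca, hCa, hcpa⟩ := hcp (1 / 2) (by norm_num) (by norm_num)
  have hθ0 : 0 < R / R1 := by positivity
  have hθ1 : R / R1 < 1 := by rw [div_lt_one (by linarith)]; exact hRR1
  obtain ⟨Cb, hCb, hcpb⟩ := hcp (R / R1) hθ0 hθ1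
  -- the small ball
  set R2 : ℝ := 2 * C + 1 with hR2
  set c5 : ℝ := min (1 / 4) (b / (4 * R2)) with hc5
  have hR2pos : 0 < R2 := by rw [hR2]; linarith
  have hc5pos : 0 < c5 := by rw [hc5]; positivity
  have hc5le : c5 ≤ 1 / 4 := min_le_left _ _
  have hc5b : R2 * (2 * c5) ≤ b / 2 := by
    have : c5 ≤ b / (4 * R2) := min_le_right _ _
    calc R2 * (2 * c5) ≤ R2 * (2 * (b / (4 * R2))) := by gcongr
      _ = b / 2 := by field_simp; ring
  -- smallness spreads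
  obtain ⟨μ, hμ, hμT⟩ := hT n C R' R1 (c5 / 2) (b / 2) (by positivity) (by linarith) hR1R'
    (by positivity)
  obtain ⟨om, hom, homW⟩ := wt_small (k := k) m (by have := hS.two; omega) (μ / C) (by positivity)
  -- tau
  set τ : ℝ := min (min (b / (2 * C)) c) (min (1 - R') (om / (Ca * C2))) with hτ
  have hτpos : 0 < τ := by
    have h1 : 0 < 1 - R' := by linarith
    have h2 := hS.c0
    rw [hτ]; positivity
  have hτ1 : τ ≤ b / (2 * C) := (min_le_left _ _).trans (min_le_left _ _)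
  have hτ2 : τ ≤ c := (min_le_left _ _).trans (min_le_right _ _)
  have hτ3 : τ ≤ 1 - R' := (min_le_right _ _).trans (min_le_left _ _)
  have hτ4 : τ ≤ om / (Ca * C2) := (min_le_right _ _).trans (min_le_right _ _)
  refine ⟨Cb * C2, τ, by positivity, hτpos, ?_⟩
  intro ξ δ ε h hδ hδτ hξ hWξ hε hετ hd hD h0
  have hsub : ball (0 : V n) R' ⊆ ball 0 (1 - ε) := ball_subset_ball (by linarith)
  have hξc : ‖ξ‖ < c := lt_of_lt_of_le hξ hτ2
  have h0p : ‖h 0 - p‖ < b / 2 := by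
    rw [h0]
    calc ‖Φ ξ - p‖ ≤ C * ‖ξ‖ := (hS.inv1 ξ hξc).2.1
      _ < C * τ := mul_lt_mul_of_pos_left hξ hC
      _ ≤ C * (b / (2 * C)) := mul_le_mul_of_nonneg_left hτ1 hC.le
      _ = b / 2 := by field_simp
  -- step 1
  have st1 : ∀ z ∈ ball (0 : V n) c5, ‖h z - p‖ < b := by
    intro z hz
    rw [mem_ball_zero_iff] at hz
    have hmem : ∀ l ∈ ball (0 : ℂ) (1 / (2 * c5)), l • z ∈ ball (0 : V n) (1 - ε) := by
      intro l hl
      rw [mem_ball_zero_iff] at hl ⊢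
      rw [norm_smul]
      calc ‖l‖ * ‖z‖ ≤ (1 / (2 * c5)) * c5 :=
            mul_le_mul hl.le hz.le (norm_nonneg _) (by positivity)
        _ = 1 / 2 := by field_simp
        _ < 1 - ε := by linarith
    have hsch := Complex.dist_le_div_mul_dist_of_mapsTo_ball (f := fun l : ℂ => h (l • z))
      (c := 0) (R₁ := 1 / (2 * c5)) (R₂ := R2) (z := 1) ?_ ?_ ?_
    · simp only [one_smul, zero_smul] at hsch
      rw [dist_eq_norm, dist_zero_right, norm_one, mul_one] at hsch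
      have e1 : R2 / (1 / (2 * c5)) = R2 * (2 * c5) := by field_simp
      rw [e1] at hsch
      calc ‖h z - p‖ = ‖(h z - h 0) + (h 0 - p)‖ := by rw [sub_add_sub_cancel]
        _ ≤ ‖h z - h 0‖ + ‖h 0 - p‖ := norm_add_le _ _
        _ < b := by linarith
    · intro l hl
      have d2 : DifferentiableAt ℂ h (l • z) := hd.differentiableAt (isOpen_ball.mem_nhds (hmem l hl))
      have d3 : DifferentiableAt ℂ (fun l : ℂ => l • z) l := by fun_prop
      exact (DifferentiableAt.comp l d2 d3).differentiableWithinAt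
    · intro l hl
      have e1 := hS.bdd _ (hD (hmem l hl))
      have e2 := hS.bdd _ (hD (show (0 : V n) ∈ ball (0 : V n) (1 - ε) by
        rw [mem_ball_zero_iff, norm_zero]; linarith))
      rw [mem_closedBall, dist_eq_norm]
      simp only [zero_smul]
      calc ‖h (l • z) - h 0‖ = ‖(h (l • z) - p) - (h 0 - p)‖ := by rw [sub_sub_sub_cancel_right]
        _ ≤ ‖h (l • z) - p‖ + ‖h 0 - p‖ := norm_sub_le _ _
        _ ≤ R2 := by rw [hR2]; linarith
    · rw [mem_ball_zero_iff, norm_one, lt_div_iff₀ (by positivity)]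
      linarith
  have hWδ : ∀ K : ℝ, 0 < K → K * Wt m ξ ≤ K * C2 * δ := fun K hK => by
    calc K * Wt m ξ ≤ K * (C2 * δ) := mul_le_mul_of_nonneg_left hWξ hK.le
      _ = K * C2 * δ := by ring
  -- step 2
  have st2 : ∀ z ∈ ball (0 : V n) (c5 / 2), ‖h z - p‖ ≤ μ := by
    intro z hz
    rw [mem_ball_zero_iff] at hz
    have hz5 : z ∈ ball (0 : V n) c5 := by rw [mem_ball_zero_iff]; linarith
    have hsub5 : ball (0 : V n) c5 ⊆ ball 0 (1 - ε) := ball_subset_ball (by linarith)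
    have e1 := disc hS hac hac0 (by norm_num) hcpa hbinv ξ hξc h c5 hc5pos (hd.mono hsub5)
      (fun x hx => hD (hsub5 hx)) h0 st1 z (by linarith)
    have e2 : Wt m (Ψ (h z)) ≤ om := by
      calc Wt m (Ψ (h z)) ≤ Ca * C2 * δ := e1.1.trans (hWδ Ca hCa)
        _ ≤ Ca * C2 * (om / (Ca * C2)) := by gcongr; linarith
        _ = om := by field_simp
    have e3 := homW _ e2
    have e4 := hbinv _ (st1 z hz5)
    calc ‖h z - p‖ = ‖Φ (Ψ (h z)) - p‖ := by rw [e4.2]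
      _ ≤ C * ‖Ψ (h z)‖ := (hS.inv1 _ (lt_of_lt_of_le e4.1 hac)).2.1
      _ ≤ C * (μ / C) := mul_le_mul_of_nonneg_left e3 hC.le
      _ = μ := by field_simp
  -- step 3
  have st3 : ∀ z ∈ ball (0 : V n) R1, ‖h z - p‖ < b := by
    intro z hz
    have := hμT (fun z => h z - p) ((hd.mono hsub).sub_const p)
      (fun z hz => hS.bdd _ (hD (hsub hz))) st2 z hz
    linarith
  intro ζ hζ
  have hζ1 : ζ ∈ ball (0 : V n) R1 := by rw [mem_ball_zero_iff]; linarith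
  have hsub1 : ball (0 : V n) R1 ⊆ ball 0 (1 - ε) := ball_subset_ball (by linarith)
  have e4 := hbinv _ (st3 ζ hζ1)
  have e5 := disc hS hac hac0 hθ0 hcpb hbinv ξ hξc h R1 (by linarith) (hd.mono hsub1)
    (fun x hx => hD (hsub1 hx)) h0 st3 ζ (by
      have : R / R1 * R1 = R := div_mul_cancel₀ R (by linarith)
      rw [this]; exact hζ)
  exact ⟨lt_of_lt_of_le e4.1 hac, e4.2, e5.1.trans (hWδ Cb hCb), e5.2.trans (hWδ Cb hCb)⟩

end Pool.Agent.W85.CQ
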