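import Pool.Agent.H695R3.PP.Stmts

/-!
# Project H695-LP, TaskDich: averaging loses a part of the norm unless the function is spread out
-/

set_option autoImplicit false

open scoped BigOperators ENNReal
open MeasureTheory

namespace Pool.Agent.W85.LPD

open Pool.Agent.H695R3.PP

theorem lintegral_U (f : ℝ → ℝ≥0∞) :
    ∫⁻ s, f s ∂U = ENNReal.ofReal (1 / 2) * ∫⁻ s in Set.Icc (-1 : ℝ) 1, f s := by
  unfold U
  rw [lintegral_smul_measure, smul_eq_mul]

/-- The `L²` distance to the translate. -/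
noncomputable def dl (F : ℝ → ℝ) (v : ℝ) : ℝ≥0∞ := ∫⁻ x, ENNReal.ofReal ((F x - F (x + v)) ^ 2)

theorem variance (h : ℝ → ℝ) (hm : Measurable h) (h0 : ∀ s, 0 ≤ h s) :
    2 * ∫⁻ s, ENNReal.ofReal (h s) ^ 2 ∂U =
      2 * (∫⁻ s, ENNReal.ofReal (h s) ∂U) ^ 2 +
        ∫⁻ s, ∫⁻ s', ENNReal.ofReal ((h s - h s') ^ 2) ∂U ∂U := by
  have e1 : ∀ s s' : ℝ, ENNReal.ofReal (h s) ^ 2 + ENNReal.ofReal (h s') ^ 2 =
      2 * (ENNReal.ofReal (h s) * ENNReal.ofReal (h s')) +
        ENNReal.ofReal ((h s - h s') ^ 2) := by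
    intro s s'
    have := h0 s
    have := h0 s'
    rw [← ENNReal.ofReal_pow (h0 s), ← ENNReal.ofReal_pow (h0 s'), ← ENNReal.ofReal_mul (h0 s),
      ← ENNReal.ofReal_add (by positivity) (by positivity),
      show (2 : ℝ≥0∞) = ENNReal.ofReal 2 by simp, ← ENNReal.ofReal_mul (by norm_num),
      ← ENNReal.ofReal_add (by positivity) (by positivity)]
    congr 1
    ring
  have e2 : ∫⁻ s, ∫⁻ s', (ENNReal.ofReal (h s) ^ 2 + ENNReal.ofReal (h s') ^ 2) ∂U ∂U =
      2 * ∫⁻ s, ENNReal.ofReal (h s) ^ 2 ∂U := by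
    have : ∀ s : ℝ, ∫⁻ s', (ENNReal.ofReal (h s) ^ 2 + ENNReal.ofReal (h s') ^ 2) ∂U =
        ENNReal.ofReal (h s) ^ 2 + ∫⁻ s', ENNReal.ofReal (h s') ^ 2 ∂U := by
      intro s
      rw [lintegral_add_left measurable_const]
      simp
    simp only [this]
    rw [lintegral_add_right _ measurable_const]
    simp only [lintegral_const, measure_univ, mul_one]
    ring
  rw [← e2]
  simp only [e1]
  have e3 : ∀ s : ℝ, ∫⁻ s', (2 * (ENNReal.ofReal (h s) * ENNReal.ofReal (h s')) +
      ENNReal.ofReal ((h s - h s') ^ 2)) ∂U =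
      2 * (ENNReal.ofReal (h s) * ∫⁻ s', ENNReal.ofReal (h s') ∂U) +
        ∫⁻ s', ENNReal.ofReal ((h s - h s') ^ 2) ∂U := by
    intro s
    rw [lintegral_add_left (by fun_prop), lintegral_const_mul _ (by fun_prop),
      lintegral_const_mul _ (by fun_prop)]
  simp only [e3]
  rw [lintegral_add_left (by fun_prop), lintegral_const_mul _ (by fun_prop),
    lintegral_mul_const _ (by fun_prop), sq]

theorem dl_mul (F : ℝ → ℝ) (hF : Measurable F) (v : ℝ) (n : ℕ) :
    dl F (n * v) ≤ (n : ℝ≥0∞) ^ 2 * dl F v := by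
  have e1 : ∀ x : ℝ, ENNReal.ofReal ((F x - F (x + n * v)) ^ 2) ≤
      (n : ℝ≥0∞) * ∑ i ∈ Finset.range n,
        ENNReal.ofReal ((F (x + i * v) - F (x + i * v + v)) ^ 2) := by
    intro x
    have t1 : F x - F (x + n * v) = ∑ i ∈ Finset.range n, (F (x + i * v) - F (x + i * v + v)) := by
      have := Finset.sum_range_sub' (fun i : ℕ => F (x + i * v)) n
      simp only [Nat.cast_zero, zero_mul, add_zero] at this
      rw [← this]
      apply Finset.sum_congr rfl
      intro i _
      congr 2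
      push_cast
      ring
    have t2 : (F x - F (x + n * v)) ^ 2 ≤
        n * ∑ i ∈ Finset.range n, (F (x + i * v) - F (x + i * v + v)) ^ 2 := by
      rw [t1]
      have := sq_sum_le_card_mul_sum_sq (s := Finset.range n)
        (f := fun i : ℕ => F (x + i * v) - F (x + i * v + v))
      simpa using this
    refine (ENNReal.ofReal_le_ofReal t2).trans ?_
    rw [ENNReal.ofReal_mul (by positivity), ENNReal.ofReal_natCast,
      ENNReal.ofReal_sum_of_nonneg (fun i _ => sq_nonneg _)]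
  unfold dl
  refine (lintegral_mono e1).trans ?_
  rw [lintegral_const_mul _ (by fun_prop), lintegral_finsetSum _ (by fun_prop)]
  have e2 : ∀ i : ℕ, ∫⁻ x, ENNReal.ofReal ((F (x + i * v) - F (x + i * v + v)) ^ 2) =
      ∫⁻ x, ENNReal.ofReal ((F x - F (x + v)) ^ 2) := by
    intro i
    exact lintegral_add_right_eq_self (fun x => ENNReal.ofReal ((F x - F (x + v)) ^ 2)) (i * v)
  simp only [e2, Finset.sum_const, Finset.card_range, nsmul_eq_mul]
  rw [sq, mul_assoc]

theorem spread (F : ℝ → ℝ) (hF : Measurable F) (h0 : ∀ x, 0 ≤ F x) (y v : ℝ) (k : ℕ)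
    (hk : 4 < k * v) :
    16 * ∫⁻ x in Set.Icc y (y + 4), ENNReal.ofReal (F x) ^ 2 ≤
      2 * (∫⁻ x, ENNReal.ofReal (F x) ^ 2) + 8192 * (k : ℝ≥0∞) ^ 2 * dl F v := by
  set a : ℝ := k * v with ha
  have e1 : ∀ j : ℕ, ∫⁻ x in Set.Icc y (y + 4), ENNReal.ofReal (F x) ^ 2 ≤
      2 * (∫⁻ x in Set.Icc (y + j * a) (y + 4 + j * a), ENNReal.ofReal (F x) ^ 2) +
        2 * dl F (j * a) := by
    intro j
    have t1 : ∀ x : ℝ, ENNReal.ofReal (F x) ^ 2 ≤
        2 * ENNReal.ofReal (F (x + j * a)) ^ 2 +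
          2 * ENNReal.ofReal ((F x - F (x + j * a)) ^ 2) := by
      intro x
      rw [← ENNReal.ofReal_pow (h0 _), ← ENNReal.ofReal_pow (h0 _),
        show (2 : ℝ≥0∞) = ENNReal.ofReal 2 by simp, ← ENNReal.ofReal_mul (by norm_num),
        ← ENNReal.ofReal_mul (by norm_num), ← ENNReal.ofReal_add (by positivity) (by positivity)]
      apply ENNReal.ofReal_le_ofReal
      nlinarith [sq_nonneg (2 * F (x + j * a) - F x)]
    refine (lintegral_mono t1).trans ?_
    rw [lintegral_add_left (by fun_prop), lintegral_const_mul _ (by fun_prop),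
      lintegral_const_mul _ (by fun_prop)]
    apply add_le_add
    · apply le_of_eq
      congr 1
      rw [← lintegral_indicator measurableSet_Icc, ← lintegral_indicator measurableSet_Icc]
      rw [← lintegral_add_right_eq_self ((Set.Icc (y + (j : ℝ) * a) (y + 4 + (j : ℝ) * a)).indicator
        fun x => ENNReal.ofReal (F x) ^ 2) (j * a)]
      apply lintegral_congr
      intro x
      by_cases hx : x ∈ Set.Icc y (y + 4)
      · rw [Set.indicator_of_mem hx, Set.indicator_of_mem]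
        constructor <;> linarith [hx.1, hx.2]
      · rw [Set.indicator_of_notMem hx, Set.indicator_of_notMem]
        intro hx'
        apply hx
        constructor <;> linarith [hx'.1, hx'.2]
    · exact mul_le_mul_right (setLIntegral_le_lintegral _ _) _
  have e2 : ∑ j ∈ Finset.range 16, ∫⁻ x in Set.Icc (y + (j : ℝ) * a) (y + 4 + (j : ℝ) * a),
      ENNReal.ofReal (F x) ^ 2 ≤ ∫⁻ x, ENNReal.ofReal (F x) ^ 2 := by
    rw [← lintegral_biUnion_finset]
    · exact setLIntegral_le_lintegral _ _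
    · intro i _ j _ hij
      apply Set.disjoint_left.mpr
      intro x hx hx'
      apply hij
      rcases lt_trichotomy i j with h | h | h
      · exfalso
        have : (i : ℝ) + 1 ≤ j := by exact_mod_cast h
        nlinarith [hx.1, hx.2, hx'.1, hx'.2]
      · exact h
      · exfalso
        have : (j : ℝ) + 1 ≤ i := by exact_mod_cast h
        nlinarith [hx.1, hx.2, hx'.1, hx'.2]
    · intro i _
      exact measurableSet_Icc
  have e3 : ∀ j ∈ Finset.range 16, dl F (j * a) ≤ 256 * (k : ℝ≥0∞) ^ 2 * dl F v := by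
    intro j hj
    rw [Finset.mem_range] at hj
    have t1 := dl_mul F hF v (j * k)
    rw [ha, ← mul_assoc, ← Nat.cast_mul]
    refine t1.trans ?_
    apply mul_le_mul_left
    push_cast
    rw [mul_pow]
    apply mul_le_mul_left
    have : ((j : ℝ≥0∞)) ≤ 16 := by exact_mod_cast hj.le
    calc (j : ℝ≥0∞) ^ 2 ≤ 16 ^ 2 := pow_le_pow_left' this 2
      _ = 256 := by norm_num
  calc 16 * ∫⁻ x in Set.Icc y (y + 4), ENNReal.ofReal (F x) ^ 2
      = ∑ j ∈ Finset.range 16, ∫⁻ x in Set.Icc y (y + 4), ENNReal.ofReal (F x) ^ 2 := by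
        simp
    _ ≤ ∑ j ∈ Finset.range 16,
        (2 * (∫⁻ x in Set.Icc (y + (j : ℝ) * a) (y + 4 + (j : ℝ) * a),
          ENNReal.ofReal (F x) ^ 2) + 2 * dl F (j * a)) := Finset.sum_le_sum fun j _ => e1 j
    _ ≤ 2 * (∫⁻ x, ENNReal.ofReal (F x) ^ 2) +
        ∑ j ∈ Finset.range 16, 2 * (256 * (k : ℝ≥0∞) ^ 2 * dl F v) := by
        rw [Finset.sum_add_distrib, ← Finset.mul_sum]
        apply add_le_add
        · exact mul_le_mul_right e2 _
        · exact Finset.sum_le_sum fun j hj => mul_le_mul_right (e3 j hj) _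
    _ = 2 * (∫⁻ x, ENNReal.ofReal (F x) ^ 2) + 8192 * (k : ℝ≥0∞) ^ 2 * dl F v := by
        rw [Finset.sum_const, Finset.card_range, nsmul_eq_mul]
        congr 1
        push_cast
        ring

theorem measurable_dl (F : ℝ → ℝ) (hF : Measurable F) : Measurable (dl F) := by
  unfold dl
  apply Measurable.lintegral_prod_right' (f := fun p : ℝ × ℝ =>
    ENNReal.ofReal ((F p.2 - F (p.2 + p.1)) ^ 2))
  fun_prop

theorem total (F : ℝ → ℝ) (hF : Measurable F) (h0 : ∀ x, 0 ≤ F x) (ε : ℝ) :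
    2 * nsqL (fun x => ENNReal.ofReal (F x)) =
      2 * nsqL (avg ε (fun x => ENNReal.ofReal (F x))) +
        ∫⁻ s, ∫⁻ s', dl F (ε * (s' - s)) ∂U ∂U := by
  have hma : Measurable (avg ε (fun x => ENNReal.ofReal (F x))) := by
    unfold avg
    apply Measurable.lintegral_prod_right' (f := fun p : ℝ × ℝ =>
      ENNReal.ofReal (F (p.1 + ε * p.2)))
    fun_prop
  have e1 : ∫⁻ x, 2 * ∫⁻ s, ENNReal.ofReal (F (x + ε * s)) ^ 2 ∂U =
      2 * nsqL (fun x => ENNReal.ofReal (F x)) := by
    rw [lintegral_const_mul]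
    · rw [lintegral_lintegral_swap (by fun_prop)]
      have : ∀ s : ℝ, ∫⁻ x, ENNReal.ofReal (F (x + ε * s)) ^ 2 =
          ∫⁻ x, ENNReal.ofReal (F x) ^ 2 := fun s =>
        lintegral_add_right_eq_self (fun x => ENNReal.ofReal (F x) ^ 2) (ε * s)
      simp only [this, lintegral_const, measure_univ, mul_one]
      rfl
    · apply Measurable.lintegral_prod_right' (f := fun p : ℝ × ℝ =>
        ENNReal.ofReal (F (p.1 + ε * p.2)) ^ 2)
      fun_prop
  rw [← e1]
  have e2 : ∀ x : ℝ, 2 * ∫⁻ s, ENNReal.ofReal (F (x + ε * s)) ^ 2 ∂U =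
      2 * avg ε (fun x => ENNReal.ofReal (F x)) x ^ 2 +
        ∫⁻ s, ∫⁻ s', ENNReal.ofReal ((F (x + ε * s) - F (x + ε * s')) ^ 2) ∂U ∂U := by
    intro x
    exact variance (fun s => F (x + ε * s)) (by fun_prop) (fun s => h0 _)
  simp only [e2]
  rw [lintegral_add_left (by fun_prop), lintegral_const_mul _ (by fun_prop)]
  congr 1
  rw [lintegral_lintegral_swap]
  · apply lintegral_congr
    intro s
    rw [lintegral_lintegral_swap (by fun_prop)]
    apply lintegral_congr
    intro s'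
    unfold dl
    rw [← lintegral_add_right_eq_self (fun x => ENNReal.ofReal
      ((F x - F (x + ε * (s' - s))) ^ 2)) (ε * s)]
    apply lintegral_congr
    intro x
    congr 3
    congr 1
    ring
  · apply Measurable.aemeasurable
    apply Measurable.lintegral_prod_right' (f := fun p : (ℝ × ℝ) × ℝ =>
      ENNReal.ofReal ((F (p.1.1 + ε * p.1.2) - F (p.1.1 + ε * p.2)) ^ 2))
    fun_prop

theorem double_lower (Φ : ℝ → ℝ≥0∞) :
    ENNReal.ofReal (1 / 8) * ∫⁻ u in Set.Icc (1 : ℝ) (3 / 2), Φ u ≤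
      ∫⁻ s, ∫⁻ s', Φ (s' - s) ∂U ∂U := by
  set M := ∫⁻ u in Set.Icc (1 : ℝ) (3 / 2), Φ u with hM
  have e1 : ∀ s ∈ Set.Icc (-1 : ℝ) (-1 / 2),
      ENNReal.ofReal (1 / 2) * M ≤ ∫⁻ s', Φ (s' - s) ∂U := by
    intro s hs
    rw [lintegral_U]
    apply mul_le_mul_right
    rw [hM, ← lintegral_indicator measurableSet_Icc, ← lintegral_indicator measurableSet_Icc,
      ← lintegral_sub_right_eq_self _ s]
    apply lintegral_mono
    intro s'
    by_cases h : s' - s ∈ Set.Icc (1 : ℝ) (3 / 2)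
    · have h2 : s' ∈ Set.Icc (-1 : ℝ) 1 := by
        constructor <;> linarith [h.1, h.2, hs.1, hs.2]
      simp only [Set.indicator_of_mem h, Set.indicator_of_mem h2, le_refl]
    · simp only [Set.indicator_of_notMem h]
      exact bot_le
  rw [lintegral_U]
  calc ENNReal.ofReal (1 / 8) * M
      = ENNReal.ofReal (1 / 2) * (ENNReal.ofReal (1 / 2) * M *
          volume (Set.Icc (-1 : ℝ) (-1 / 2))) := by
        rw [Real.volume_Icc, mul_comm (ENNReal.ofReal (1 / 2) * M), ← mul_assoc, ← mul_assoc,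
          ← ENNReal.ofReal_mul (by norm_num), ← ENNReal.ofReal_mul (by norm_num)]
        norm_num
    _ = ENNReal.ofReal (1 / 2) * ∫⁻ _ in Set.Icc (-1 : ℝ) (-1 / 2),
          ENNReal.ofReal (1 / 2) * M := by
        rw [setLIntegral_const]
    _ ≤ ENNReal.ofReal (1 / 2) * ∫⁻ s in Set.Icc (-1 : ℝ) (-1 / 2), ∫⁻ s', Φ (s' - s) ∂U := by
        apply mul_le_mul_right
        exact setLIntegral_mono' measurableSet_Icc e1
    _ ≤ _ := by
        apply mul_le_mul_right
        exact lintegral_mono_set (Set.Icc_subset_Icc_right (by norm_num))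

theorem real_case (F : ℝ → ℝ) (hF : Measurable F) (h0 : ∀ x, 0 ≤ F x) (ε y : ℝ) (hε : 0 < ε)
    (hε1 : ε ≤ 1) :
    (∫⁻ x in Set.Icc y (y + 4), ENNReal.ofReal (F x) ^ 2) +
      ENNReal.ofReal (409600 / ε ^ 2) * nsqL (avg ε (fun x => ENNReal.ofReal (F x))) ≤
      ENNReal.ofReal (1 / 8) * nsqL (fun x => ENNReal.ofReal (F x)) +
        ENNReal.ofReal (409600 / ε ^ 2) * nsqL (fun x => ENNReal.ofReal (F x)) := by
  set I := ∫⁻ x in Set.Icc y (y + 4), ENNReal.ofReal (F x) ^ 2 with hI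
  set N := nsqL (fun x => ENNReal.ofReal (F x)) with hN
  set A := nsqL (avg ε (fun x => ENNReal.ofReal (F x))) with hA
  set D := ∫⁻ s, ∫⁻ s', dl F (ε * (s' - s)) ∂U ∂U with hD
  have htot : 2 * N = 2 * A + D := total F hF h0 ε
  set k : ℕ := ⌊4 / ε⌋₊ + 1 with hk
  have hk1 : 4 / ε < k := by
    rw [hk]
    push_cast
    exact Nat.lt_floor_add_one _
  have hk2 : (k : ℝ) ≤ 5 / ε := by
    have h1 := Nat.floor_le (show 0 ≤ 4 / ε by positivity)
    have h2 : 1 ≤ 1 / ε := by rw [le_div_iff₀ hε]; linarith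
    rw [hk]
    push_cast
    calc (⌊4 / ε⌋₊ : ℝ) + 1 ≤ 4 / ε + 1 / ε := add_le_add h1 h2
      _ = 5 / ε := by ring
  have hsp : ∀ u ∈ Set.Icc (1 : ℝ) (3 / 2), 16 * I ≤
      2 * N + 8192 * (k : ℝ≥0∞) ^ 2 * dl F (ε * u) := by
    intro u hu
    apply spread F hF h0 y (ε * u) k
    rw [div_lt_iff₀ hε] at hk1
    have : (k : ℝ) * ε * 1 ≤ k * ε * u := mul_le_mul_of_nonneg_left hu.1 (by positivity)
    nlinarith
  have h8 : 8 * I ≤ N + 65536 * (k : ℝ≥0∞) ^ 2 * D := by
    have t1 := setLIntegral_mono' (μ := volume) measurableSet_Icc hsp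
    have hmd : Measurable (fun u : ℝ => dl F (ε * u)) :=
      (measurable_dl F hF).comp (by fun_prop : Measurable fun u : ℝ => ε * u)
    rw [lintegral_add_left (by fun_prop), setLIntegral_const, setLIntegral_const,
      Real.volume_Icc, lintegral_const_mul _ hmd] at t1
    have t2 := double_lower (fun u => dl F (ε * u))
    have t3 : ENNReal.ofReal (3 / 2 - 1) = 1 / 2 := by
      rw [show (3 / 2 - 1 : ℝ) = 1 / 2 by norm_num, ENNReal.ofReal_div_of_pos (by norm_num)]
      simp
    have t4 : ENNReal.ofReal (1 / 8) = 1 / 8 := by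
      rw [ENNReal.ofReal_div_of_pos (by norm_num)]
      simp
    rw [t3] at t1
    rw [t4] at t2
    have t5 : ∫⁻ u in Set.Icc (1 : ℝ) (3 / 2), dl F (ε * u) ≤ 8 * D := by
      calc ∫⁻ u in Set.Icc (1 : ℝ) (3 / 2), dl F (ε * u)
          = 8 * (1 / 8 * ∫⁻ u in Set.Icc (1 : ℝ) (3 / 2), dl F (ε * u)) := by
            rw [← mul_assoc, one_div, ENNReal.mul_inv_cancel (by norm_num) (by norm_num), one_mul]
        _ ≤ 8 * D := mul_le_mul_right t2 _
    calc 8 * I = 16 * I * (1 / 2) := by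
          rw [mul_comm (16 * I), ← mul_assoc]
          congr 1
          rw [one_div, show (16 : ℝ≥0∞) = 2 * 8 by norm_num, ← mul_assoc,
            ENNReal.inv_mul_cancel (by norm_num) (by norm_num), one_mul]
      _ ≤ 2 * N * (1 / 2) + 8192 * (k : ℝ≥0∞) ^ 2 *
          ∫⁻ u in Set.Icc (1 : ℝ) (3 / 2), dl F (ε * u) := t1
      _ ≤ N + 8192 * (k : ℝ≥0∞) ^ 2 * (8 * D) := by
          apply add_le_add
          · rw [mul_comm (2 * N), ← mul_assoc, one_div,
              ENNReal.inv_mul_cancel (by norm_num) (by norm_num), one_mul]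
          · exact mul_le_mul_right t5 _
      _ = _ := by ring
  have h1 : I ≤ ENNReal.ofReal (1 / 8) * N + ENNReal.ofReal (204800 / ε ^ 2) * D := by
    have t4 : ENNReal.ofReal (1 / 8) = 8⁻¹ := by
      rw [ENNReal.ofReal_div_of_pos (by norm_num)]
      simp
    have t6 : (8192 : ℝ≥0∞) * (k : ℝ≥0∞) ^ 2 ≤ ENNReal.ofReal (204800 / ε ^ 2) := by
      have : (8192 : ℝ≥0∞) * (k : ℝ≥0∞) ^ 2 = ENNReal.ofReal (8192 * (k : ℝ) ^ 2) := by
        rw [ENNReal.ofReal_mul (by norm_num), ENNReal.ofReal_pow (by positivity),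
          ENNReal.ofReal_natCast]
        simp
      rw [this]
      apply ENNReal.ofReal_le_ofReal
      have h5 : (k : ℝ) ^ 2 ≤ (5 / ε) ^ 2 := pow_le_pow_left₀ (by positivity) hk2 2
      calc 8192 * (k : ℝ) ^ 2 ≤ 8192 * (5 / ε) ^ 2 := by linarith
        _ = 204800 / ε ^ 2 := by
          field_simp
          norm_num
    calc I = 8⁻¹ * (8 * I) := by
          rw [← mul_assoc, ENNReal.inv_mul_cancel (by norm_num) (by norm_num), one_mul]
      _ ≤ 8⁻¹ * (N + 65536 * (k : ℝ≥0∞) ^ 2 * D) := mul_le_mul_right h8 _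
      _ = 8⁻¹ * N + 8192 * (k : ℝ≥0∞) ^ 2 * D := by
          rw [mul_add]
          congr 1
          rw [show (65536 : ℝ≥0∞) = 8 * 8192 by norm_num, mul_assoc 8, mul_assoc 8,
            ← mul_assoc (8⁻¹), ENNReal.inv_mul_cancel (by norm_num) (by norm_num), one_mul]
      _ ≤ _ := by
          rw [t4]
          exact add_le_add le_rfl (mul_le_mul_left t6 _)
  have h409 : ENNReal.ofReal (409600 / ε ^ 2) = ENNReal.ofReal (204800 / ε ^ 2) * 2 := by
    rw [show (2 : ℝ≥0∞) = ENNReal.ofReal 2 by simp, ← ENNReal.ofReal_mul (by positivity)]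
    congr 1
    ring
  calc I + ENNReal.ofReal (409600 / ε ^ 2) * A
      ≤ ENNReal.ofReal (1 / 8) * N + ENNReal.ofReal (204800 / ε ^ 2) * D +
        ENNReal.ofReal (409600 / ε ^ 2) * A := add_le_add h1 le_rfl
    _ = ENNReal.ofReal (1 / 8) * N + ENNReal.ofReal (204800 / ε ^ 2) * (2 * A + D) := by
        rw [h409]
        ring
    _ = _ := by
        rw [← htot, h409]
        ring

theorem taskDich : TaskDich := by
  refine ⟨409600, by norm_num, ?_⟩
  intro ε g y hε hε1 hg
  by_cases htop : nsqL g = ⊤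
  · rw [htop, ENNReal.mul_top (by norm_num)]
    simp
  · have hlt : ∀ᵐ x, g x < ⊤ := by
      have h1 : ∀ᵐ x, g x ^ 2 < ⊤ := ae_lt_top (by fun_prop) htop
      filter_upwards [h1] with x hx
      by_contra hc
      rw [not_lt, top_le_iff] at hc
      rw [hc] at hx
      simp at hx
    set F : ℝ → ℝ := fun x => (g x).toReal with hF
    have hFm : Measurable F := by
      rw [hF]
      fun_prop
    have hae : ∀ᵐ x, g x = ENNReal.ofReal (F x) := by
      filter_upwards [hlt] with x hx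
      rw [hF, ENNReal.ofReal_toReal hx.ne]
    have hmain := real_case F hFm (fun x => ENNReal.toReal_nonneg) ε y hε hε1
    have e1 : nsqL g = nsqL (fun x => ENNReal.ofReal (F x)) := by
      unfold nsqL
      apply lintegral_congr_ae
      filter_upwards [hae] with x hx
      rw [hx]
    have e2 : ∫⁻ x in Set.Icc y (y + 4), g x ^ 2 =
        ∫⁻ x in Set.Icc y (y + 4), ENNReal.ofReal (F x) ^ 2 := by
      apply lintegral_congr_ae
      filter_upwards [ae_restrict_of_ae hae] with x hx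
      rw [hx]
    have e3 : avg ε g = avg ε (fun x => ENNReal.ofReal (F x)) := by
      funext x
      unfold avg
      apply lintegral_congr_ae
      have hq : ∀ᵐ s : ℝ, g (x + ε * s) = ENNReal.ofReal (F (x + ε * s)) := by
        have h1 : ∀ᵐ z : ℝ, g (x + z) = ENNReal.ofReal (F (x + z)) :=
          (quasiMeasurePreserving_add_left volume x).ae hae
        have h2 : Measure.QuasiMeasurePreserving (fun s : ℝ => ε * s) volume volume := by
          refine ⟨by fun_prop, ?_⟩
          rw [Real.map_volume_mul_left hε.ne']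
          exact Measure.smul_absolutelyContinuous
        exact h2.ae h1
      have hU : U ≪ volume := by
        unfold U
        exact Measure.smul_absolutelyContinuous.trans Measure.restrict_le_self.absolutelyContinuous
      exact hU.ae_le hq
    rw [e1, e2, e3]
    exact hmain

end Pool.Agent.W85.LPD
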