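import Pool.Agent.W85.LPTaskJ

/-!
# Project H695-LP, TaskFE: the fixed energy estimate
-/

set_option autoImplicit false

open scoped BigOperators ENNReal
open MeasureTheory

namespace Pool.Agent.W85.LPFE

open Pool.Agent.H695R3.PP Pool.Agent.W85.LPJ

theorem rsol_ne (V : ℤ → ℝ) (E : ℝ) (b : ℤ) (j : ℕ) :
    0 < (rsol V E b j).1 ^ 2 + (rsol V E b j).2 ^ 2 := by
  induction j with
  | zero => norm_num [rsol]
  | succ j ih =>
    simp only [rsol]
    by_contra h
    have h1 : ((E - V (b - j)) * (rsol V E b j).1 - (rsol V E b j).2) ^ 2 +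
        (rsol V E b j).1 ^ 2 = 0 := le_antisymm (not_lt.mp h) (by positivity)
    have h2 : (rsol V E b j).1 ^ 2 = 0 := by
      nlinarith [sq_nonneg ((E - V (b - j)) * (rsol V E b j).1 - (rsol V E b j).2),
        sq_nonneg (rsol V E b j).1]
    have h3 : (rsol V E b j).1 = 0 := by
      exact pow_eq_zero_iff (two_ne_zero) |>.mp h2
    rw [h3] at h1 ih
    have h4 : (rsol V E b j).2 ^ 2 = 0 := by nlinarith
    rw [h4] at ih
    norm_num at ih

theorem U_le (S : Set ℝ) (a l : ℝ) (h : S ∩ Set.Icc (-1) 1 ⊆ Set.Icc (a - l) (a + l)) :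
    U S ≤ ENNReal.ofReal l := by
  unfold U
  rw [Measure.smul_apply, smul_eq_mul]
  have h1 : (volume.restrict (Set.Icc (-1 : ℝ) 1)) S ≤ ENNReal.ofReal (2 * l) := by
    rw [Measure.restrict_apply' measurableSet_Icc]
    refine (measure_mono h).trans ?_
    rw [Real.volume_Icc]
    apply ENNReal.ofReal_le_ofReal
    linarith
  refine (mul_le_mul_right h1 _).trans ?_
  rw [← ENNReal.ofReal_mul (by norm_num)]
  apply ENNReal.ofReal_le_ofReal
  linarith

theorem key (A p q ε R t : ℝ) (hε : 0 < ε) (hε1 : ε ≤ 1) (hR : 1 ≤ R) (hA : |A| ≤ 2 * R)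
    (ht : 0 < t) (hpq : 0 < p ^ 2 + q ^ 2) :
    U {s : ℝ | |(A - ε * s) * p - q| ≤ t} ≤
      ENNReal.ofReal (8 * R * t / ε * (1 / Real.sqrt (p ^ 2 + q ^ 2))) := by
  set r := Real.sqrt (p ^ 2 + q ^ 2) with hr
  have hr0 : 0 < r := Real.sqrt_pos.mpr hpq
  have hr1 : r ≤ |p| + |q| := by
    rw [hr, Real.sqrt_le_left (by positivity)]
    nlinarith [sq_abs p, sq_abs q, mul_nonneg (abs_nonneg p) (abs_nonneg q)]
  by_cases hp : r / (8 * R) ≤ |p|
  · have hp0 : 0 < |p| := lt_of_lt_of_le (by positivity) hp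
    have hpn : p ≠ 0 := abs_pos.mp hp0
    refine (U_le _ ((A - q / p) / ε) (t / (ε * |p|)) ?_).trans (ENNReal.ofReal_le_ofReal ?_)
    · rintro s ⟨hs, -⟩
      simp only [Set.mem_setOf_eq] at hs
      have h1 : (A - ε * s) * p - q = (ε * p) * ((A - q / p) / ε - s) := by
        field_simp
        ring
      rw [h1, abs_mul, abs_mul, abs_of_pos hε] at hs
      have h2 : |(A - q / p) / ε - s| ≤ t / (ε * |p|) := by
        rw [le_div_iff₀ (by positivity)]
        linarith
      rw [abs_le] at h2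
      constructor <;> linarith [h2.1, h2.2]
    · rw [div_le_iff₀ (by positivity)]
      have h3 : 8 * R * t / ε * (1 / r) * (ε * |p|) = t * (8 * R * |p| / r) := by
        field_simp
      rw [h3]
      have h4 : 1 ≤ 8 * R * |p| / r := by
        rw [le_div_iff₀ hr0]
        rw [div_le_iff₀ (by positivity)] at hp
        linarith
      nlinarith
  · push Not at hp
    rw [lt_div_iff₀ (by positivity)] at hp
    by_cases hrt : r ≤ 2 * t
    · refine (prob_le_one).trans ?_
      rw [← ENNReal.ofReal_one]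
      apply ENNReal.ofReal_le_ofReal
      have h5 : 8 * R * t / ε * (1 / r) = 8 * R * t / (ε * r) := by
        field_simp
      rw [h5, le_div_iff₀ (by positivity)]
      have : ε * r ≤ 1 * r := mul_le_mul_of_nonneg_right hε1 hr0.le
      nlinarith
    · push Not at hrt
      have : U {s : ℝ | |(A - ε * s) * p - q| ≤ t} ≤ ENNReal.ofReal (-1) := by
        apply U_le _ 0
        rintro s ⟨hs, hs1⟩
        exfalso
        simp only [Set.mem_setOf_eq] at hs
        have h6 : |s| ≤ 1 := abs_le.mpr ⟨hs1.1, hs1.2⟩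
        have h7 : |A - ε * s| ≤ 3 * R := by
          calc |A - ε * s| ≤ |A| + |ε * s| := abs_sub _ _
            _ = |A| + ε * |s| := by rw [abs_mul, abs_of_pos hε]
            _ ≤ 2 * R + 1 * 1 := by
              apply add_le_add hA
              exact mul_le_mul hε1 h6 (abs_nonneg _) zero_le_one
            _ ≤ 3 * R := by linarith
        have h8 : |q| ≤ |(A - ε * s) * p - q| + |(A - ε * s) * p| := by
          have := abs_sub_abs_le_abs_sub q ((A - ε * s) * p)
          rw [abs_sub_comm] at this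
          linarith
        rw [abs_mul] at h8
        have h9 : |A - ε * s| * |p| ≤ 3 * R * |p| :=
          mul_le_mul_of_nonneg_right h7 (abs_nonneg _)
        have h10 : |p| ≤ R * |p| := by nlinarith [abs_nonneg p]
        nlinarith
      refine this.trans ?_
      rw [ENNReal.ofReal_of_nonpos (by norm_num)]
      exact bot_le

theorem taskFE (h : TaskJ) : TaskFE := by
  obtain ⟨c, C, hc0, hc1, hC, hJ⟩ := h
  refine ⟨c, 16 * C, hc0, hc1, by positivity, ?_⟩
  intro ε R E t W L hε hε1 hR hE hW ht hL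
  obtain ⟨L, rfl⟩ : ∃ L', L = L' + 1 := ⟨L - 1, by omega⟩
  have hε2 : ε ^ 2 ≤ 1 := by nlinarith
  have hcε : c * ε ^ 2 ≤ 1 / 2 := by nlinarith [sq_nonneg ε]
  set b : ℤ := ((L + 1 : ℕ) : ℤ) with hb
  set B : Set (ℤ → ℝ) := {x | |(rsol (fun n => W n + ε * x n) E b (L + 1)).1| ≤ t} with hB
  have hBm : MeasurableSet B := by
    have h1 : Measurable (fun x : ℤ → ℝ => |(rsol (fun n => W n + ε * x n) E b (L + 1)).1|) :=
      (measurable_fst.comp (measurable_rsol W ε E b (L + 1))).abs
    exact measurableSet_le h1 measurable_const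
  have e1 : PZ B = ∫⁻ x, ∫⁻ s, B.indicator 1 (Function.update x (b - L) s) ∂U ∂PZ := by
    rw [← lintegral_resample (b - L) _ (measurable_one.indicator hBm), lintegral_indicator_one hBm]
  rw [e1]
  have e2 : ∀ x : ℤ → ℝ, ∫⁻ s, B.indicator 1 (Function.update x (b - L) s) ∂U ≤
      ENNReal.ofReal (8 * R * t / ε) *
        ENNReal.ofReal (1 / rlen (fun n => W n + ε * x n) E b L) := by
    intro x
    have hset : MeasurableSet {s : ℝ | Function.update x (b - L) s ∈ B} :=
      (measurable_update x) hBm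
    have e3 : ∫⁻ s, B.indicator 1 (Function.update x (b - L) s) ∂U =
        U {s : ℝ | Function.update x (b - L) s ∈ B} := by
      rw [← lintegral_indicator_one hset]
      rfl
    rw [e3, ← ENNReal.ofReal_mul (by positivity)]
    have e4 : {s : ℝ | Function.update x (b - L) s ∈ B} =
        {s : ℝ | |(E - W (b - L) - ε * s) * (rsol (fun n => W n + ε * x n) E b L).1 -
          (rsol (fun n => W n + ε * x n) E b L).2| ≤ t} := by
      ext s
      simp only [hB, Set.mem_setOf_eq, rsol, rsol_update W ε E b x s L L le_rfl,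
        Function.update_self]
      rw [sub_sub]
    rw [e4]
    exact key _ _ _ ε R t hε hε1 hR (by
      calc |E - W (b - L)| ≤ |E| + |W (b - L)| := abs_sub _ _
        _ ≤ R + R := add_le_add hE (hW _)
        _ = 2 * R := by ring) ht (rsol_ne _ _ _ _)
  refine (lintegral_mono e2).trans ?_
  rw [lintegral_const_mul' _ _ ENNReal.ofReal_ne_top]
  refine (mul_le_mul_right (hJ ε E W b L hε hε1) _).trans ?_
  rw [← ENNReal.ofReal_mul (by positivity)]
  apply ENNReal.ofReal_le_ofReal
  have hr : (0 : ℝ) < 1 - c * ε ^ 2 := by linarith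
  calc 8 * R * t / ε * (C / ε * (1 - c * ε ^ 2) ^ L)
      = (8 * R * t / ε * (C / ε * (1 - c * ε ^ 2) ^ L)) * 1 := by ring
    _ ≤ (8 * R * t / ε * (C / ε * (1 - c * ε ^ 2) ^ L)) * (2 * (1 - c * ε ^ 2)) := by
        apply mul_le_mul_of_nonneg_left _ (by positivity)
        linarith
    _ = 16 * C * R / ε ^ 2 * t * (1 - c * ε ^ 2) ^ (L + 1) := by
        field_simp
        ring

end Pool.Agent.W85.LPFE
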