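import Pool.Agent.H853R3.PP.TaskResample

/-!
# Project H695-LP, TaskJ: the first negative moment of the length decays exponentially
-/

set_option autoImplicit false

open scoped BigOperators ENNReal
open MeasureTheory

namespace Pool.Agent.W85.LPJ

open Pool.Agent.H695R3.PP

/-- Integration over `PZ` by resampling the coordinate `i`. -/
theorem lintegral_resample (i : ℤ) (f : (ℤ → ℝ) → ℝ≥0∞) (hf : Measurable f) :
    ∫⁻ x, f x ∂PZ = ∫⁻ x, ∫⁻ s, f (Function.update x i s) ∂U ∂PZ := by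
  have h := Pool.Agent.H853R3.PP.Resample.taskResample ℤ (fun _ => ℝ) (fun _ => U) i
  have hm : Measurable (fun p : (ℤ → ℝ) × ℝ => Function.update p.1 i p.2) :=
    Pool.Agent.H853R3.PP.Resample.measurable_upd (X := fun _ : ℤ => ℝ) i
  have h1 : ∫⁻ x, f x ∂PZ =
      ∫⁻ x, f x ∂(Measure.map (fun p : (ℤ → ℝ) × ℝ => Function.update p.1 i p.2)
        (PZ.prod U)) := by
    unfold PZ
    rw [h]
  rw [h1, lintegral_map hf hm, lintegral_prod]
  exact (hf.comp hm).aemeasurable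

/-- One random step. -/
noncomputable def T (ε c : ℝ) (F : ℝ × ℝ → ℝ≥0∞) (v : ℝ × ℝ) : ℝ≥0∞ :=
  ∫⁻ s, F ((c - ε * s) * v.1 - v.2, v.1) ∂U

theorem measurable_T (ε c : ℝ) (F : ℝ × ℝ → ℝ≥0∞) (hF : Measurable F) :
    Measurable (T ε c F) := by
  unfold T
  apply Measurable.lintegral_prod_right' (f := fun p : (ℝ × ℝ) × ℝ =>
    F ((c - ε * p.2) * p.1.1 - p.1.2, p.1.1))
  apply hF.comp
  fun_prop

/-- The iterated operator: `it ε c L F = T_{c 0} (T_{c 1} (... (T_{c (L-1)} F)))`. -/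
noncomputable def it (ε : ℝ) (c : ℕ → ℝ) : ℕ → (ℝ × ℝ → ℝ≥0∞) → ℝ × ℝ → ℝ≥0∞
  | 0, F => F
  | (L + 1), F => it ε c L (T ε (c L) F)

theorem rsol_update (W : ℤ → ℝ) (ε E : ℝ) (b : ℤ) (x : ℤ → ℝ) (s : ℝ) (L j : ℕ) (hj : j ≤ L) :
    rsol (fun n => W n + ε * Function.update x (b - L) s n) E b j =
      rsol (fun n => W n + ε * x n) E b j := by
  induction j with
  | zero => rfl
  | succ j ih =>
    have ih' := ih (by omega)
    have hne : b - (j : ℤ) ≠ b - (L : ℤ) := by omega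
    simp only [rsol, ih', Function.update_of_ne hne]

theorem measurable_rsol (W : ℤ → ℝ) (ε E : ℝ) (b : ℤ) (j : ℕ) :
    Measurable (fun x : ℤ → ℝ => rsol (fun n => W n + ε * x n) E b j) := by
  induction j with
  | zero => exact measurable_const
  | succ j ih =>
    simp only [rsol]
    have h1 : Measurable (fun x : ℤ → ℝ => (rsol (fun n => W n + ε * x n) E b j).1) :=
      measurable_fst.comp ih
    have h2 : Measurable (fun x : ℤ → ℝ => (rsol (fun n => W n + ε * x n) E b j).2) :=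
      measurable_snd.comp ih
    have h3 : Measurable (fun x : ℤ → ℝ => x (b - j)) := measurable_pi_apply _
    fun_prop

theorem lintegral_rsol (W : ℤ → ℝ) (ε E : ℝ) (b : ℤ) (L : ℕ) (F : ℝ × ℝ → ℝ≥0∞)
    (hF : Measurable F) :
    ∫⁻ x, F (rsol (fun n => W n + ε * x n) E b L) ∂PZ =
      it ε (fun j => E - W (b - j)) L F (1, 0) := by
  induction L generalizing F with
  | zero =>
    simp only [rsol, it, lintegral_const, measure_univ, mul_one]
  | succ L ih =>
    rw [lintegral_resample (b - L) (fun x => F (rsol (fun n => W n + ε * x n) E b (L + 1)))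
      (hF.comp (measurable_rsol W ε E b (L + 1)))]
    have h1 : ∀ (x : ℤ → ℝ) (s : ℝ),
        rsol (fun n => W n + ε * Function.update x (b - L) s n) E b (L + 1) =
          ((E - W (b - L) - ε * s) * (rsol (fun n => W n + ε * x n) E b L).1 -
            (rsol (fun n => W n + ε * x n) E b L).2, (rsol (fun n => W n + ε * x n) E b L).1) := by
      intro x s
      simp only [rsol, rsol_update W ε E b x s L L le_rfl, Function.update_self]
      rw [sub_sub]
    simp only [h1]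
    have h2 := ih (T ε (E - W (b - L)) F) (measurable_T _ _ _ hF)
    simp only [it]
    rw [← h2]
    rfl

/-- Homogeneous functions of degree `-1`. -/
noncomputable def G (g : ℝ → ℝ≥0∞) (v : ℝ × ℝ) : ℝ≥0∞ :=
  ENNReal.ofReal |v.2|⁻¹ * g (v.1 / v.2)

theorem U_singleton (s : ℝ) : U {s} = 0 := by
  unfold U
  rw [Measure.smul_apply]
  have : (volume.restrict (Set.Icc (-1 : ℝ) 1)) {s} = 0 := by
    refine le_antisymm ((Measure.restrict_apply_le _ _).trans ?_) (by simp)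
    rw [Real.volume_singleton]
  rw [this, smul_zero]

theorem ae_ne (s₀ : ℝ) : ∀ᵐ s ∂U, s ≠ s₀ := by
  have := U_singleton s₀
  rw [ae_iff]
  simpa using this

theorem ae_step (ε c p q : ℝ) (hε : 0 < ε) (hp : p ≠ 0) :
    ∀ᵐ s ∂U, (c - ε * s) * p - q ≠ 0 := by
  filter_upwards [ae_ne ((c - q / p) / ε)] with s hs h
  apply hs
  have : ε * s = c - q / p := by
    field_simp
    linarith
  rw [← this]
  field_simp

/-- `U` is symmetric. -/
theorem lintegral_U_neg (f : ℝ → ℝ≥0∞) (hf : Measurable f) :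
    ∫⁻ s, f (-s) ∂U = ∫⁻ s, f s ∂U := by
  have hmp : MeasurePreserving (fun s : ℝ => -s) U U := by
    refine ⟨measurable_neg, ?_⟩
    unfold U
    rw [Measure.map_smul]
    congr 1
    have h1 := (Measure.measurePreserving_neg (volume : Measure ℝ)).restrict_preimage
      (measurableSet_Icc (a := (-1 : ℝ)) (b := 1))
    have h2 : (Neg.neg ⁻¹' Set.Icc (-1 : ℝ) 1) = Set.Icc (-1 : ℝ) 1 := by
      ext x
      simp only [Set.mem_preimage, Set.mem_Icc]
      constructor <;> rintro ⟨h1, h2⟩ <;> constructor <;> linarith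
    rw [h2] at h1
    exact h1.map_eq
  exact hmp.lintegral_comp hf

theorem step_G (ε c : ℝ) (g : ℝ → ℝ≥0∞) (hg : Measurable g) (p q : ℝ) (hp : p ≠ 0) :
    ∫⁻ s, G g ((c - ε * s) * p - q, p) ∂U = ENNReal.ofReal |p|⁻¹ * avg ε g (c - q / p) := by
  unfold G avg
  simp only
  rw [lintegral_const_mul']
  · congr 1
    rw [← lintegral_U_neg]
    · apply lintegral_congr
      intro s
      congr 1
      field_simp
      ring
    · fun_prop
  · exact ENNReal.ofReal_ne_top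

/-- The backward evolution of the profile. -/
noncomputable def gs (ε : ℝ) (g : ℝ → ℝ≥0∞) (d : ℕ → ℝ) : ℕ → ℝ → ℝ≥0∞
  | 0 => g
  | (k + 1) => UR (d k) (avg ε (gs ε g d k))

theorem T_congr (ε c : ℝ) (hε : 0 < ε) (F F' : ℝ × ℝ → ℝ≥0∞)
    (h : ∀ v : ℝ × ℝ, v.1 ≠ 0 → v.2 ≠ 0 → F v = F' v) (v : ℝ × ℝ) (hv : v.1 ≠ 0) :
    T ε c F v = T ε c F' v := by
  unfold T
  apply lintegral_congr_ae
  filter_upwards [ae_step ε c v.1 v.2 hε hv] with s hs
  exact h _ hs hv

theorem it_congr (ε : ℝ) (c : ℕ → ℝ) (hε : 0 < ε) (L : ℕ) (F F' : ℝ × ℝ → ℝ≥0∞)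
    (h : ∀ v : ℝ × ℝ, v.1 ≠ 0 → v.2 ≠ 0 → F v = F' v) (v : ℝ × ℝ) (hv : v.1 ≠ 0)
    (hL : 1 ≤ L ∨ v.2 ≠ 0) : it ε c L F v = it ε c L F' v := by
  induction L generalizing F F' with
  | zero =>
    rcases hL with hL | hL
    · omega
    · exact h v hv hL
  | succ L ih =>
    simp only [it]
    rcases Nat.eq_zero_or_pos L with h0 | h0
    · subst h0
      simp only [it]
      exact T_congr ε (c 0) hε F F' h v hv
    · exact ih _ _ (fun w hw _ => T_congr ε (c L) hε F F' h w hw) (Or.inl h0)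

theorem T_G (ε c : ℝ) (g : ℝ → ℝ≥0∞) (hg : Measurable g) (v : ℝ × ℝ) (h1 : v.1 ≠ 0)
    (h2 : v.2 ≠ 0) : T ε c (G g) v = G (UR c (avg ε g)) v := by
  unfold T
  rw [step_G ε c g hg v.1 v.2 h1]
  unfold G UR
  rw [← mul_assoc, ← ENNReal.ofReal_mul (by positivity), inv_div]
  congr 2
  rw [abs_div, inv_div]
  have := abs_pos.mpr h1
  have := abs_pos.mpr h2
  field_simp

theorem measurable_UR (c : ℝ) (g : ℝ → ℝ≥0∞) (hg : Measurable g) : Measurable (UR c g) := by
  unfold UR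
  apply Measurable.mul
  · fun_prop
  · exact hg.comp (by fun_prop)

theorem measurable_gs (h2 : TaskAvg) (ε : ℝ) (hε : 0 < ε) (hε1 : ε ≤ 1) (g : ℝ → ℝ≥0∞)
    (hg : Measurable g) (d : ℕ → ℝ) (k : ℕ) : Measurable (gs ε g d k) := by
  induction k with
  | zero => exact hg
  | succ k ih =>
    simp only [gs]
    exact measurable_UR _ _ (h2 ε _ hε hε1 ih).1

theorem it_gs (h2 : TaskAvg) (ε : ℝ) (hε : 0 < ε) (hε1 : ε ≤ 1) (g : ℝ → ℝ≥0∞)
    (hg : Measurable g) (c : ℕ → ℝ) (d : ℕ → ℝ) (L k : ℕ)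
    (hd : ∀ i, i < L → d (k + i) = c (L - i)) :
    it ε c (L + 1) (G (gs ε g d k)) (1, 0) = T ε (c 0) (G (gs ε g d (k + L))) (1, 0) := by
  induction L generalizing k with
  | zero => rfl
  | succ L ih =>
    have hk := hd 0 (by omega)
    simp only [add_zero, Nat.sub_zero] at hk
    have h1 : it ε c (L + 1 + 1) (G (gs ε g d k)) (1, 0) =
        it ε c (L + 1) (G (gs ε g d (k + 1))) (1, 0) := by
      conv_lhs => rw [it]
      apply it_congr ε c hε (L + 1) _ _ _ _ (by norm_num) (Or.inl (by omega))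
      intro v hv1 hv2
      rw [T_G ε _ _ (measurable_gs h2 ε hε hε1 g hg d k) v hv1 hv2, ← hk]
      rfl
    rw [h1, ih (k + 1) (fun i hi => by
      have := hd (i + 1) (by omega)
      rw [show k + 1 + i = k + (i + 1) by ring, this]
      congr 1
      omega)]
    rw [show k + 1 + L = k + (L + 1) by ring]

theorem nsq_gs (h1 : TaskIso) (h2 : TaskAvg) (c ε : ℝ)
    (hc : ∀ (c₁ : ℝ) (g : ℝ → ℝ≥0∞), Measurable g →
      nsqL (avg ε (UR c₁ (avg ε g))) ≤ ENNReal.ofReal (1 - c * ε ^ 2) * nsqL g)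
    (hε : 0 < ε) (hε1 : ε ≤ 1) (hc0 : 0 < c) (hc1 : c ≤ 1 / 2) (g : ℝ → ℝ≥0∞)
    (hg : Measurable g) (d : ℕ → ℝ) (K : ℝ) (hK : 0 < K)
    (h0 : nsqL g ≤ ENNReal.ofReal K) (k : ℕ) :
    nsqL (gs ε g d k) ≤ ENNReal.ofReal (2 * K * (1 - c / 4 * ε ^ 2) ^ (2 * k)) ∧
    nsqL (gs ε g d (k + 1)) ≤ ENNReal.ofReal (2 * K * (1 - c / 4 * ε ^ 2) ^ (2 * (k + 1))) := by
  have hε2 : ε ^ 2 ≤ 1 := by nlinarith
  have hcε : c * ε ^ 2 ≤ 1 / 2 := by nlinarith [sq_nonneg ε]
  have hcε0 : 0 < c * ε ^ 2 := by positivity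
  have hr : (7 : ℝ) / 8 ≤ 1 - c / 4 * ε ^ 2 := by linarith
  induction k with
  | zero =>
    constructor
    · refine h0.trans (ENNReal.ofReal_le_ofReal ?_)
      simp only [mul_zero, pow_zero, mul_one]
      linarith
    · simp only [gs]
      rw [(h1 _ _ (h2 ε g hε hε1 hg).1).1]
      refine ((h2 ε g hε hε1 hg).2.1.trans h0).trans (ENNReal.ofReal_le_ofReal ?_)
      have : (1 : ℝ) / 2 ≤ (1 - c / 4 * ε ^ 2) ^ (2 * (0 + 1)) := by
        norm_num
        nlinarith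
      nlinarith
  | succ k ih =>
    refine ⟨ih.2, ?_⟩
    have hm := measurable_gs h2 ε hε hε1 g hg d k
    have hm1 := measurable_gs h2 ε hε hε1 g hg d (k + 1)
    have e1 : nsqL (gs ε g d (k + 1 + 1)) = nsqL (avg ε (UR (d k) (avg ε (gs ε g d k)))) := by
      simp only [gs]
      rw [(h1 _ _ (h2 ε _ hε hε1 (by simpa only [gs] using hm1)).1).1]
    rw [e1]
    refine (hc (d k) _ hm).trans ?_
    refine (mul_le_mul_right ih.1 _).trans ?_
    rw [← ENNReal.ofReal_mul (by linarith)]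
    apply ENNReal.ofReal_le_ofReal
    have h4 : 1 - c * ε ^ 2 ≤ (1 - c / 4 * ε ^ 2) ^ 4 := by
      have := one_add_mul_le_pow (a := -(c / 4 * ε ^ 2)) (by linarith) 4
      push_cast at this
      calc 1 - c * ε ^ 2 = 1 + 4 * -(c / 4 * ε ^ 2) := by ring
        _ ≤ (1 + -(c / 4 * ε ^ 2)) ^ 4 := this
        _ = _ := by ring
    have h5 : (0 : ℝ) ≤ 2 * K * (1 - c / 4 * ε ^ 2) ^ (2 * k) := by
      have : (0 : ℝ) ≤ (1 - c / 4 * ε ^ 2) := by linarith
      positivity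
    calc (1 - c * ε ^ 2) * (2 * K * (1 - c / 4 * ε ^ 2) ^ (2 * k))
        ≤ (1 - c / 4 * ε ^ 2) ^ 4 * (2 * K * (1 - c / 4 * ε ^ 2) ^ (2 * k)) :=
          mul_le_mul_of_nonneg_right h4 h5
      _ = _ := by ring

/-- The starting profile. -/
noncomputable def g0 (z : ℝ) : ℝ≥0∞ := ENNReal.ofReal (1 / Real.sqrt (1 + z ^ 2))

theorem measurable_g0 : Measurable g0 := by
  unfold g0
  fun_prop

theorem nsq_g0 : nsqL g0 ≤ ENNReal.ofReal Real.pi := by
  unfold nsqL g0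
  have h : ∀ x : ℝ, ENNReal.ofReal (1 / Real.sqrt (1 + x ^ 2)) ^ 2 =
      ENNReal.ofReal ((1 + x ^ 2)⁻¹) := by
    intro x
    rw [← ENNReal.ofReal_pow (by positivity)]
    congr 1
    rw [div_pow, one_pow, Real.sq_sqrt (by positivity), one_div]
  simp only [h]
  rw [← integral_univ_inv_one_add_sq, ofReal_integral_eq_lintegral_ofReal
    integrable_inv_one_add_sq (Filter.Eventually.of_forall fun x => by positivity)]

theorem G_g0 (v : ℝ × ℝ) (hv : v.2 ≠ 0) :
    ENNReal.ofReal (1 / Real.sqrt (v.1 ^ 2 + v.2 ^ 2)) = G g0 v := by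
  unfold G g0
  rw [← ENNReal.ofReal_mul (by positivity)]
  congr 1
  have h1 : Real.sqrt (v.1 ^ 2 + v.2 ^ 2) = |v.2| * Real.sqrt (1 + (v.1 / v.2) ^ 2) := by
    rw [← Real.sqrt_sq_eq_abs, ← Real.sqrt_mul (sq_nonneg _)]
    congr 1
    field_simp
    ring
  rw [h1, one_div, mul_inv, one_div]

theorem taskJ (h1 : TaskIso) (h2 : TaskAvg) (h3 : TaskContr) : TaskJ := by
  obtain ⟨c, hc0, hc1, hc⟩ := h3
  have hpi : 0 < Real.pi := Real.pi_pos
  refine ⟨c / 4, 8 / 7 * Real.sqrt (2 * Real.pi), by positivity, by linarith, by positivity, ?_⟩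
  intro ε E W b L hε hε1
  have hε2 : ε ^ 2 ≤ 1 := by nlinarith
  have hcε : c * ε ^ 2 ≤ 1 / 2 := by nlinarith [sq_nonneg ε]
  have hcε0 : 0 < c * ε ^ 2 := by positivity
  have hr : (7 : ℝ) / 8 ≤ 1 - c / 4 * ε ^ 2 := by linarith
  set F : ℝ × ℝ → ℝ≥0∞ := fun v => ENNReal.ofReal (1 / Real.sqrt (v.1 ^ 2 + v.2 ^ 2)) with hF
  have hFm : Measurable F := by
    rw [hF]
    fun_prop
  have e1 : ∫⁻ x, ENNReal.ofReal (1 / rlen (fun n => W n + ε * x n) E b L) ∂PZ =
      ∫⁻ x, F (rsol (fun n => W n + ε * x n) E b L) ∂PZ := rfl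
  rw [e1, lintegral_rsol W ε E b L F hFm]
  rcases L with _ | L
  · simp only [it, hF, pow_zero, mul_one]
    apply ENNReal.ofReal_le_ofReal
    have : (1 : ℝ) ≤ Real.sqrt (2 * Real.pi) := by
      rw [Real.one_le_sqrt]
      nlinarith [Real.pi_gt_three]
    have h10 : (1 : ℝ) / Real.sqrt (1 ^ 2 + 0 ^ 2) = 1 := by norm_num
    rw [h10, le_div_iff₀ hε]
    linarith
  · set cc : ℕ → ℝ := fun j => E - W (b - j) with hcc
    have e2 : it ε cc (L + 1) F (1, 0) = it ε cc (L + 1) (G g0) (1, 0) := by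
      apply it_congr ε cc hε (L + 1) _ _ _ _ (by norm_num) (Or.inl (by omega))
      intro v _ hv
      exact G_g0 v hv
    set d : ℕ → ℝ := fun i => cc (L - i) with hd
    have e3 := it_gs h2 ε hε hε1 g0 measurable_g0 cc d L 0 (fun i _ => by
      simp only [hd, zero_add])
    have e4 : gs ε g0 d 0 = g0 := rfl
    rw [e4, zero_add] at e3
    rw [e2, e3]
    have hm := measurable_gs h2 ε hε hε1 g0 measurable_g0 d L
    have e5 : T ε (cc 0) (G (gs ε g0 d L)) (1, 0) = avg ε (gs ε g0 d L) (cc 0 - 0 / 1) := by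
      unfold T
      have := step_G ε (cc 0) (gs ε g0 d L) hm 1 0 one_ne_zero
      simpa using this
    rw [e5]
    refine ((h2 ε _ hε hε1 hm).2.2.2 _).trans ?_
    have hb := (nsq_gs h1 h2 c ε (fun c₁ g hg => hc ε c₁ g hε hε1 hg) hε hε1 hc0 hc1 g0
      measurable_g0 d Real.pi hpi nsq_g0 L).1
    have hr0 : (0 : ℝ) < 1 - c / 4 * ε ^ 2 := by linarith
    have hsq : nsqL (gs ε g0 d L) ^ (1 / 2 : ℝ) ≤
        ENNReal.ofReal (Real.sqrt (2 * Real.pi) * (1 - c / 4 * ε ^ 2) ^ L) := by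
      refine (ENNReal.rpow_le_rpow hb (by norm_num)).trans ?_
      rw [ENNReal.ofReal_rpow_of_nonneg (by positivity) (by norm_num), ← Real.sqrt_eq_rpow]
      apply ENNReal.ofReal_le_ofReal
      rw [Real.sqrt_mul (by positivity), mul_comm 2 L, pow_mul, Real.sqrt_sq (by positivity)]
    refine (mul_le_mul_right hsq _).trans ?_
    rw [← ENNReal.ofReal_mul (by positivity)]
    apply ENNReal.ofReal_le_ofReal
    have hs : ε ≤ Real.sqrt ε := by
      rw [Real.le_sqrt' hε]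
      nlinarith
    have hsε : 1 / Real.sqrt ε ≤ 1 / ε := one_div_le_one_div_of_le hε hs
    have hA : 0 < Real.sqrt (2 * Real.pi) := by positivity
    have hB : 0 < (1 - c / 4 * ε ^ 2) ^ L := by positivity
    calc 1 / Real.sqrt ε * (Real.sqrt (2 * Real.pi) * (1 - c / 4 * ε ^ 2) ^ L)
        ≤ 1 / ε * (Real.sqrt (2 * Real.pi) * (1 - c / 4 * ε ^ 2) ^ L) :=
          mul_le_mul_of_nonneg_right hsε (by positivity)
      _ = (Real.sqrt (2 * Real.pi) / ε * (1 - c / 4 * ε ^ 2) ^ L) * 1 := by ring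
      _ ≤ (Real.sqrt (2 * Real.pi) / ε * (1 - c / 4 * ε ^ 2) ^ L) *
          (8 / 7 * (1 - c / 4 * ε ^ 2)) := by
          apply mul_le_mul_of_nonneg_left _ (by positivity)
          linarith
      _ = 8 / 7 * Real.sqrt (2 * Real.pi) / ε * (1 - c / 4 * ε ^ 2) ^ (L + 1) := by ring

end Pool.Agent.W85.LPJ
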