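import Mathlib
import Pool.Agent.W252.GelDefs

/-!
# Gel'fond's transcendence criterion, from the bound for coprime polynomials
-/

set_option autoImplicit false

open Filter Polynomial Pool.Agent.W252

namespace Pool.Agent.W85.GelA2

theorem mm_ge {P : Polynomial ℤ} (hP : P ≠ 0) :
    1 ≤ (P.map (Int.castRingHom ℂ)).mahlerMeasure := Polynomial.one_le_mahlerMeasure_of_ne_zero hP

theorem sigma_nonneg {P : Polynomial ℤ} (hP : P ≠ 0) : 0 ≤ sigma P := by
  unfold sigma
  have := Real.log_nonneg (mm_ge hP)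
  positivity

theorem sigma_ge_one {P : Polynomial ℤ} (hP : 0 < P.natDegree) : 1 ≤ sigma P := by
  unfold sigma
  have h0 : P ≠ 0 := by
    rintro rfl
    simp at hP
  have := Real.log_nonneg (mm_ge h0)
  have h1 : (1 : ℝ) ≤ P.natDegree := by exact_mod_cast hP
  linarith

theorem sigma_mul {P Q : Polynomial ℤ} (hP : P ≠ 0) (hQ : Q ≠ 0) :
    sigma (P * Q) = sigma P + sigma Q := by
  unfold sigma
  rw [natDegree_mul hP hQ, Polynomial.map_mul, mahlerMeasure_mul,
    Real.log_mul (by linarith [mm_ge hP]) (by linarith [mm_ge hQ])]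
  push_cast
  ring

theorem unit_cases {u : Polynomial ℤ} (hu : IsUnit u) : u = 1 ∨ u = -1 := by
  rw [Polynomial.isUnit_iff] at hu
  obtain ⟨r, hr, rfl⟩ := hu
  rcases Int.isUnit_iff.mp hr with rfl | rfl
  · left; simp
  · right; simp

theorem sigma_one : sigma 1 = 0 := by
  unfold sigma
  simp

theorem sigma_neg (P : Polynomial ℤ) : sigma (-P) = sigma P := by
  by_cases hP : P = 0
  · subst hP; simp
  have h1 : sigma (-1 : Polynomial ℤ) = 0 := by
    have := sigma_mul (P := -1) (Q := -1) (by norm_num) (by norm_num)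
    rw [show (-1 : Polynomial ℤ) * -1 = 1 by ring, sigma_one] at this
    linarith
  rw [show -P = (-1) * P by ring, sigma_mul (by norm_num) hP, h1, zero_add]

theorem claim (θ : ℂ) (μ : ℝ) (A : Polynomial ℤ) (hA : aeval θ A ≠ 0)
    (h : ∀ Q, Irreducible Q → Q ∣ A → -Real.log ‖aeval θ Q‖ ≤ μ * sigma Q) :
    -Real.log ‖aeval θ A‖ ≤ μ * sigma A := by
  induction A using WfDvdMonoid.induction_on_irreducible with
  | zero => simp at hA
  | unit u hu =>
    rcases unit_cases hu with rfl | rfl
    · simp [sigma_one]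
    · rw [sigma_neg, sigma_one]
      simp
  | mul a i ha hi ih =>
    rw [map_mul] at hA
    have hi0 := left_ne_zero_of_mul hA
    have ha0 := right_ne_zero_of_mul hA
    have h1 := ih ha0 (fun Q hQ hd => h Q hQ (Dvd.dvd.mul_left hd i))
    have h2 := h i hi (dvd_mul_right i a)
    rw [map_mul, norm_mul, Real.log_mul (norm_ne_zero_iff.mpr hi0) (norm_ne_zero_iff.mpr ha0),
      sigma_mul hi.ne_zero ha]
    linarith

theorem sigma_le {P : Polynomial ℤ} (hP : P ≠ 0) (T : ℝ) (hT : 1 ≤ T)
    (hdeg : (P.natDegree : ℝ) ≤ T) (hht : ∀ i, |(P.coeff i : ℝ)| ≤ Real.exp T) :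
    sigma P ≤ 3 * T := by
  unfold sigma
  have h1 : (P.map (Int.castRingHom ℂ)).mahlerMeasure ≤ (T + 1) * Real.exp T := by
    refine (mahlerMeasure_le_sum_norm_coeff _).trans ?_
    rw [Polynomial.sum_over_range _ (by simp)]
    have h2 : ∀ i ∈ Finset.range ((P.map (Int.castRingHom ℂ)).natDegree + 1),
        ‖(P.map (Int.castRingHom ℂ)).coeff i‖ ≤ Real.exp T := by
      intro i _
      have := hht i
      simpa using this
    refine (Finset.sum_le_sum h2).trans ?_
    rw [Finset.sum_const, Finset.card_range, nsmul_eq_mul]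
    apply mul_le_mul_of_nonneg_right _ (Real.exp_pos T).le
    have h3 : (P.map (Int.castRingHom ℂ)).natDegree ≤ P.natDegree := natDegree_map_le
    have h4 : ((P.map (Int.castRingHom ℂ)).natDegree : ℝ) ≤ P.natDegree := by exact_mod_cast h3
    push_cast
    linarith
  have h5 := mm_ge hP
  have h6 : Real.log (P.map (Int.castRingHom ℂ)).mahlerMeasure ≤
      Real.log ((T + 1) * Real.exp T) := Real.log_le_log (by linarith) h1
  rw [Real.log_mul (by linarith) (Real.exp_pos T).ne', Real.log_exp] at h6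
  have h7 : Real.log (T + 1) ≤ T + 1 - 1 := Real.log_le_sub_one_of_pos (by linarith)
  linarith

theorem assoc_cases {P Q : Polynomial ℤ} (h : Associated P Q) : Q = P ∨ Q = -P := by
  obtain ⟨u, hu⟩ := h
  rcases unit_cases u.isUnit with h1 | h1
  · left; rw [← hu, h1, mul_one]
  · right; rw [← hu, h1]; ring

theorem gelfond_criterion_of (θ : ℂ)
    (hcop : ∃ C : ℝ, 0 ≤ C ∧ ∀ P Q : Polynomial ℤ,
      Irreducible P → Irreducible Q → ¬ Associated P Q → 0 < P.natDegree → 0 < Q.natDegree →
      Real.exp (-(C * sigma P * sigma Q)) ≤ max ‖aeval θ P‖ ‖aeval θ Q‖)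
    (T : ℕ → ℝ) (a : ℝ)
    (hT1 : ∀ n, 1 ≤ T n) (hmono : Monotone T) (hTt : Tendsto T atTop atTop)
    (hTa : ∀ n, T (n + 1) ≤ a * T n)
    (P : ℕ → Polynomial ℤ) (hdeg : ∀ n, ((P n).natDegree : ℝ) ≤ T n)
    (hht : ∀ n i, |((P n).coeff i : ℝ)| ≤ Real.exp (T n))
    (hne : ∀ n, aeval θ (P n) ≠ 0)
    (hsm : ∀ C : ℝ, ∀ᶠ n in atTop, ‖aeval θ (P n)‖ ≤ Real.exp (-C * T n ^ 2)) : False := by
  obtain ⟨C, hC, hcop⟩ := hcop
  have ha : 1 ≤ a := by
    have h1 := hTa 0
    have h2 := hmono (Nat.zero_le 1)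
    have h3 := hT1 0
    by_contra hlt
    push Not at hlt
    nlinarith
  set K : ℝ := 3 * (a + 1) * C + 1 with hK
  have hK0 : 0 < K := by positivity
  have hP0 : ∀ n, P n ≠ 0 := by
    intro n h
    apply hne n
    rw [h, map_zero]
  have hσP : ∀ n, sigma (P n) ≤ 3 * T n := fun n =>
    sigma_le (hP0 n) (T n) (hT1 n) (hdeg n) (hht n)
  -- the irreducible factors
  have hQ : ∀ᶠ n in atTop, ∃ Q : Polynomial ℤ, Irreducible Q ∧ Q ∣ P n ∧ 0 < Q.natDegree ∧
      sigma Q ≤ 3 * T n ∧ ‖aeval θ Q‖ < Real.exp (-(K * T n * sigma Q)) ∧ aeval θ Q ≠ 0 := by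
    filter_upwards [hsm (4 * K)] with n hn
    by_contra hcon
    push Not at hcon
    have hall : ∀ Q, Irreducible Q → Q ∣ P n → -Real.log ‖aeval θ Q‖ ≤ K * T n * sigma Q := by
      intro Q hQi hQd
      obtain ⟨R, hR⟩ := hQd
      have hQ0 : Q ≠ 0 := hQi.ne_zero
      have hR0 : R ≠ 0 := by
        rintro rfl
        apply hP0 n
        rw [hR, mul_zero]
      have hev : aeval θ Q ≠ 0 := by
        intro h
        apply hne n
        rw [hR, map_mul, h, zero_mul]
      by_cases hd : 0 < Q.natDegree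
      · by_contra hlt
        push Not at hlt
        have hs : sigma Q ≤ 3 * T n := by
          have h1 := hσP n
          rw [hR, sigma_mul hQ0 hR0] at h1
          linarith [sigma_nonneg hR0]
        apply hev
        apply hcon Q hQi ⟨R, hR⟩ hd hs
        rw [← Real.log_lt_iff_lt_exp (norm_pos_iff.mpr hev)]
        linarith
      · have hd0 : Q.natDegree = 0 := by omega
        obtain ⟨c, rfl⟩ : ∃ c, Q = Polynomial.C c := ⟨_, eq_C_of_natDegree_eq_zero hd0⟩
        have hc : c ≠ 0 := by
          rintro rfl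
          simp at hQ0
        have h1 : (1 : ℝ) ≤ ‖(aeval θ (Polynomial.C c) : ℂ)‖ := by
          rw [aeval_C]
          simp only [algebraMap_int_eq, eq_intCast, Complex.norm_intCast]
          exact_mod_cast Int.one_le_abs hc
        have h2 := Real.log_nonneg h1
        have h3 : 0 ≤ K * T n * sigma (Polynomial.C c) := by
          have := sigma_nonneg hQ0
          have := hT1 n
          positivity
        linarith
    have h1 := claim θ (K * T n) (P n) (hne n) hall
    have h2 : Real.log ‖aeval θ (P n)‖ ≤ -(4 * K) * T n ^ 2 := by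
      rw [Real.log_le_iff_le_exp (norm_pos_iff.mpr (hne n))]
      exact hn
    have h3 := hσP n
    have h4 := hT1 n
    have h5 : K * T n * sigma (P n) ≤ K * T n * (3 * T n) :=
      mul_le_mul_of_nonneg_left h3 (by positivity)
    have h6 : 0 < K * T n ^ 2 := by positivity
    nlinarith
  obtain ⟨n0, hn0⟩ := eventually_atTop.mp hQ
  choose! Q hQi hQd hQn hQs hQl hQv using hn0
  have hstep : ∀ n, n0 ≤ n → Associated (Q n) (Q (n + 1)) := by
    intro n hn
    by_contra hna
    have hn' : n0 ≤ n + 1 := by omega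
    have h1 := hcop (Q n) (Q (n + 1)) (hQi n hn) (hQi _ hn') hna (hQn n hn) (hQn _ hn')
    have s1 := sigma_ge_one (hQn n hn)
    have s2 := sigma_ge_one (hQn _ hn')
    have t1 := hT1 n
    have t2 := hT1 (n + 1)
    have l1 := hQl n hn
    have l2 := hQl _ hn'
    have k1 : C * sigma (Q n) * sigma (Q (n + 1)) ≤ K * T n * sigma (Q n) := by
      have h2 : sigma (Q (n + 1)) ≤ 3 * a * T n := by
        have := hQs _ hn'
        have := hTa n
        linarith
      have h3 : C * sigma (Q (n + 1)) ≤ K * T n := by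
        calc C * sigma (Q (n + 1)) ≤ C * (3 * a * T n) := mul_le_mul_of_nonneg_left h2 hC
          _ = (3 * a * C) * T n := by ring
          _ ≤ K * T n := by
            apply mul_le_mul_of_nonneg_right _ (by linarith)
            rw [hK]
            nlinarith
      calc C * sigma (Q n) * sigma (Q (n + 1)) = C * sigma (Q (n + 1)) * sigma (Q n) := by ring
        _ ≤ K * T n * sigma (Q n) := mul_le_mul_of_nonneg_right h3 (by linarith)
    have k2 : C * sigma (Q n) * sigma (Q (n + 1)) ≤ K * T (n + 1) * sigma (Q (n + 1)) := by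
      have h2 : sigma (Q n) ≤ 3 * T (n + 1) := by
        have := hQs n hn
        have := hmono (Nat.le_succ n)
        simp only [Nat.succ_eq_add_one] at this
        linarith
      have h3 : C * sigma (Q n) ≤ K * T (n + 1) := by
        calc C * sigma (Q n) ≤ C * (3 * T (n + 1)) := mul_le_mul_of_nonneg_left h2 hC
          _ = (3 * C) * T (n + 1) := by ring
          _ ≤ K * T (n + 1) := by
            apply mul_le_mul_of_nonneg_right _ (by linarith)
            rw [hK]
            nlinarith
      exact mul_le_mul_of_nonneg_right h3 (by linarith)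
    have m1 : ‖aeval θ (Q n)‖ < Real.exp (-(C * sigma (Q n) * sigma (Q (n + 1)))) :=
      lt_of_lt_of_le l1 (Real.exp_le_exp.mpr (by linarith))
    have m2 : ‖aeval θ (Q (n + 1))‖ < Real.exp (-(C * sigma (Q n) * sigma (Q (n + 1)))) :=
      lt_of_lt_of_le l2 (Real.exp_le_exp.mpr (by linarith))
    have := max_lt m1 m2
    linarith
  have hall : ∀ n, n0 ≤ n → Associated (Q n0) (Q n) := by
    intro n hn
    induction n, hn using Nat.le_induction with
    | base => exact Associated.refl _
    | succ n hn ih => exact ih.trans (hstep n hn)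
  have hsmall : ∀ n, n0 ≤ n → ‖aeval θ (Q n0)‖ ≤ Real.exp (-(K * T n)) := by
    intro n hn
    have h1 := hQl n hn
    have h2 : ‖aeval θ (Q n)‖ = ‖aeval θ (Q n0)‖ := by
      rcases assoc_cases (hall n hn) with h | h
      · rw [h]
      · rw [h, map_neg, norm_neg]
    rw [h2] at h1
    refine h1.le.trans (Real.exp_le_exp.mpr ?_)
    have s1 := sigma_ge_one (hQn n hn)
    have t1 := hT1 n
    have : K * T n * 1 ≤ K * T n * sigma (Q n) := mul_le_mul_of_nonneg_left s1 (by positivity)
    linarith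
  have hlim : Tendsto (fun n => Real.exp (-(K * T n))) atTop (nhds 0) := by
    apply Real.tendsto_exp_neg_atTop_nhds_zero.comp
    exact hTt.const_mul_atTop hK0
  have : ‖aeval θ (Q n0)‖ ≤ 0 :=
    ge_of_tendsto hlim (eventually_atTop.mpr ⟨n0, hsmall⟩)
  exact hQv n0 le_rfl (norm_le_zero_iff.mp this)

end Pool.Agent.W85.GelA2
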