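import Mathlib

/-!
# Integral matrix representation of a finite extension of `ℚ(θ)`
-/

set_option autoImplicit false

open Polynomial

namespace Pool.Agent.W85.GelB1

theorem frac (θ : ℂ) (z : ℂ) (hz : z ∈ IntermediateField.adjoin ℚ {θ}) :
    ∃ p q : Polynomial ℤ, aeval θ q ≠ 0 ∧ aeval θ q * z = aeval θ p := by
  induction hz using IntermediateField.adjoin_induction with
  | mem x hx =>
    simp only [Set.mem_singleton_iff] at hx
    subst hx
    exact ⟨X, 1, by simp, by simp⟩
  | algebraMap x =>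
    refine ⟨C x.num, C (x.den : ℤ), ?_, ?_⟩
    · simp
    · have h : ((x.den : ℚ)) * x = x.num := by
        rw [mul_comm]
        exact Rat.mul_den_eq_num x
      have h2 : ((x.den : ℂ)) * (x : ℂ) = (x.num : ℂ) := by exact_mod_cast h
      rw [aeval_C, aeval_C]
      simpa using h2
  | add x y hx hy ihx ihy =>
    obtain ⟨p1, q1, h1, e1⟩ := ihx
    obtain ⟨p2, q2, h2, e2⟩ := ihy
    refine ⟨p1 * q2 + p2 * q1, q1 * q2, ?_, ?_⟩
    · rw [map_mul]
      exact mul_ne_zero h1 h2
    · rw [map_mul, map_add, map_mul, map_mul, ← e1, ← e2]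
      ring
  | inv x hx ih =>
    obtain ⟨p, q, h, e⟩ := ih
    by_cases hx0 : x = 0
    · subst hx0
      exact ⟨0, 1, by simp, by simp⟩
    · refine ⟨q, p, ?_, ?_⟩
      · rw [← e]
        exact mul_ne_zero h hx0
      · rw [← e]
        field_simp
  | mul x y hx hy ihx ihy =>
    obtain ⟨p1, q1, h1, e1⟩ := ihx
    obtain ⟨p2, q2, h2, e2⟩ := ihy
    refine ⟨p1 * p2, q1 * q2, ?_, ?_⟩
    · rw [map_mul]
      exact mul_ne_zero h1 h2
    · rw [map_mul, map_mul, ← e1, ← e2]
      ring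

theorem common {ι : Type*} [Fintype ι] [DecidableEq ι] (θ : ℂ) (z : ι → ℂ)
    (hz : ∀ i, z i ∈ IntermediateField.adjoin ℚ {θ}) :
    ∃ (b : Polynomial ℤ) (M : ι → Polynomial ℤ), aeval θ b ≠ 0 ∧
      ∀ i, aeval θ (M i) = aeval θ b * z i := by
  choose p q hq e using fun i => frac θ (z i) (hz i)
  refine ⟨∏ i, q i, fun i => p i * ∏ j ∈ Finset.univ.erase i, q j, ?_, ?_⟩
  · rw [map_prod]
    exact Finset.prod_ne_zero_iff.mpr fun i _ => hq i
  · intro i
    rw [map_mul, ← e i, ← Finset.mul_prod_erase Finset.univ q (Finset.mem_univ i), map_mul]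
    ring

theorem exists_rep (θ : ℂ) (hθ : Transcendental ℚ θ) {m : ℕ} (ξ : Fin m → ℂ)
    (hξ : ∀ j, IsAlgebraic (IntermediateField.adjoin ℚ {θ}) (ξ j)) :
    ∃ (ν : ℕ) (v : Fin (ν + 1) → ℂ) (b : Polynomial ℤ)
      (M : Fin m → Matrix (Fin (ν + 1)) (Fin (ν + 1)) (Polynomial ℤ)),
      b ≠ 0 ∧ (∀ u : Fin (ν + 1) → Polynomial ℤ, ∑ i, aeval θ (u i) * v i = 0 → u = 0) ∧
      ∀ j i, ∑ k, aeval θ (M j i k) * v k = aeval θ b * ξ j * v i := by
  classical
  set F := IntermediateField.adjoin ℚ {θ} with hF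
  set K := IntermediateField.adjoin F (Set.range ξ) with hK
  have : FiniteDimensional F K := by
    apply IntermediateField.finiteDimensional_adjoin
    rintro x ⟨j, rfl⟩
    exact (hξ j).isIntegral
  have hpos : 0 < Module.finrank F K := Module.finrank_pos
  obtain ⟨ν, hν⟩ : ∃ ν, Module.finrank F K = ν + 1 := ⟨Module.finrank F K - 1, by omega⟩
  let B : Module.Basis (Fin (ν + 1)) F K := Module.finBasisOfFinrankEq F K hν
  let ξK : Fin m → K := fun j => ⟨ξ j, IntermediateField.subset_adjoin F _ ⟨j, rfl⟩⟩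
  let z : Fin m × Fin (ν + 1) × Fin (ν + 1) → ℂ := fun t =>
    ((B.repr (ξK t.1 * B t.2.1) t.2.2 : F) : ℂ)
  obtain ⟨b, M, hb, hM⟩ := common θ z (fun t => (B.repr (ξK t.1 * B t.2.1) t.2.2).2)
  refine ⟨ν, fun i => ((B i : K) : ℂ), b, fun j i k => M (j, i, k), ?_, ?_, ?_⟩
  · rintro rfl
    simp at hb
  · intro u hu
    have hmem : ∀ i, (aeval θ (u i) : ℂ) ∈ F := by
      intro i
      have h1 : (aeval θ (u i) : ℂ) = aeval θ ((u i).map (Int.castRingHom ℚ)) := by
        exact (aeval_map_algebraMap ℚ θ (u i)).symm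
      rw [h1]
      exact IntermediateField.algebra_adjoin_le_adjoin ℚ {θ}
        (Algebra.adjoin_singleton_eq_range_aeval ℚ θ ▸ ⟨_, rfl⟩)
    have h2 : ∑ i, (⟨aeval θ (u i), hmem i⟩ : F) • B i = 0 := by
      apply Subtype.ext
      rw [AddSubmonoidClass.coe_finsetSum]
      simpa [IntermediateField.algebraMap_apply, Algebra.smul_def] using hu
    have h3 := Fintype.linearIndependent_iff.mp B.linearIndependent _ h2
    funext i
    have h4 : (aeval θ (u i) : ℂ) = 0 := by
      have := congrArg (fun y : F => (y : ℂ)) (h3 i)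
      simpa using this
    have h5 : aeval θ ((u i).map (Int.castRingHom ℚ)) = (0 : ℂ) := by
      rw [← h4]
      exact aeval_map_algebraMap ℚ θ (u i)
    have h6 : (u i).map (Int.castRingHom ℚ) = 0 := by
      by_contra hne
      exact hθ ⟨_, hne, h5⟩
    exact (Polynomial.map_eq_zero_iff (RingHom.injective_int (Int.castRingHom ℚ))).mp h6
  · intro j i
    have h1 := B.sum_repr (ξK j * B i)
    have h2 := congrArg (fun y : K => (y : ℂ)) h1
    simp only [AddSubmonoidClass.coe_finsetSum] at h2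
    have h3 : ∑ k, z (j, i, k) * ((B k : K) : ℂ) = ξ j * ((B i : K) : ℂ) := by
      simpa [z, ξK, Algebra.smul_def, IntermediateField.algebraMap_apply] using h2
    simp only [hM]
    rw [mul_assoc, ← h3, Finset.mul_sum]
    apply Finset.sum_congr rfl
    intro k _
    ring

end Pool.Agent.W85.GelB1
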